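import Pool.Agent.PWI.Final

/-!
# PWI: short names for the statement

`Pi1 g n` is the fundamental group of the closed oriented surface of genus `g` with `n` points
removed and `Mcg g n` is the group of its automorphisms preserving the conjugacy classes of the
puncture loops.  `Pi1` is `SG` and `Mcg` is `PMod`, as types of their own.
-/

namespace Pool.Agent.PWI

variable {g n : ℕ}

/-- The fundamental group of the closed oriented surface of genus `g` with `n` points removed:
generators `a_i, b_i (i < g)`, `z_j (j < n)`, one relation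
`[a_0, b_0] ... [a_(g-1), b_(g-1)] z_0 ... z_(n-1) = 1`. -/
def Pi1 (g n : ℕ) : Type := PresentedGroup ({rel g n} : Set (FreeGroup (Gen g n)))

/-- The group structure of `Pi1 g n`. -/
@[reducible] def groupPi1 (g n : ℕ) : Group (Pi1 g n) :=
  instGroupPresentedGroup ({rel g n} : Set (FreeGroup (Gen g n)))

attribute [instance] groupPi1

/-- The generator `a_i` (trivial for `i ≥ g`). -/
def loopA (i : ℕ) : Pi1 g n := if h : i < g then PresentedGroup.of (Gen.a ⟨i, h⟩) else 1

/-- The generator `b_i` (trivial for `i ≥ g`). -/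
def loopB (i : ℕ) : Pi1 g n := if h : i < g then PresentedGroup.of (Gen.b ⟨i, h⟩) else 1

/-- The generator `z_j` (trivial for `j ≥ n`). -/
def loopZ (j : ℕ) : Pi1 g n := if h : j < n then PresentedGroup.of (Gen.z ⟨j, h⟩) else 1

theorem one_isPure (j : ℕ) : IsConj (loopZ j : Pi1 g n) ((1 : MulAut (Pi1 g n)) (loopZ j)) :=
  IsConj.refl _

theorem mul_isPure {S T : MulAut (Pi1 g n)}
    (hS : ∀ j : ℕ, IsConj (loopZ j : Pi1 g n) (S (loopZ j)))
    (hT : ∀ j : ℕ, IsConj (loopZ j : Pi1 g n) (T (loopZ j))) (j : ℕ) :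
    IsConj (loopZ j : Pi1 g n) ((S * T) (loopZ j)) :=
  (hS j).trans (MonoidHom.map_isConj (S : Pi1 g n →* Pi1 g n) (hT j))

theorem inv_isPure {T : MulAut (Pi1 g n)}
    (hT : ∀ j : ℕ, IsConj (loopZ j : Pi1 g n) (T (loopZ j))) (j : ℕ) :
    IsConj (loopZ j : Pi1 g n) (T⁻¹ (loopZ j)) := by
  have h := MonoidHom.map_isConj ((T⁻¹ : MulAut (Pi1 g n)) : Pi1 g n →* Pi1 g n) (hT j)
  have h2 : ((T⁻¹ : MulAut (Pi1 g n)) : Pi1 g n →* Pi1 g n) (T (loopZ j)) = loopZ j := by simp
  rw [h2] at h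
  exact h.symm

/-- Automorphisms of `Pi1 g n` which send every `z_j` to a conjugate of `z_j`. -/
def PureAut (g n : ℕ) : Subgroup (MulAut (Pi1 g n)) where
  carrier := {T | ∀ j : ℕ, IsConj (loopZ j : Pi1 g n) (T (loopZ j))}
  one_mem' := one_isPure
  mul_mem' := mul_isPure
  inv_mem' := inv_isPure

/-- The group of pure mapping classes, as a type. -/
def Mcg (g n : ℕ) : Type := PureAut g n

/-- The group structure of `Mcg g n`: composition of automorphisms. -/
@[reducible] def groupMcg (g n : ℕ) : Group (Mcg g n) := (PureAut g n).toGroup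

attribute [instance] groupMcg

/-- The action of mapping classes on the fundamental group. -/
def Mcg.act (T : Mcg g n) (x : Pi1 g n) : Pi1 g n := T.1 x

theorem pushPt_mem (x : Pi1 g n) : MulAut.conj x ∈ PureAut g n := by
  intro j
  rw [isConj_iff]
  exact ⟨x, by simp [MulAut.conj_apply]⟩

/-- Point pushing along `x`: conjugation by `x`. -/
def pushPt (x : Pi1 g n) : Mcg g n := ⟨MulAut.conj x, pushPt_mem x⟩

/-- `M` is joined to `P` by a series `M = B 0 ≤ ... ≤ B k = P`, every `B i` normal in `B (i + 1)`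
with cyclic quotient. -/
def CycSeries {G : Type} [Group G] (M P : Subgroup G) (k : ℕ) : Prop :=
  ∃ B : ℕ → Subgroup G, B 0 = M ∧ B k = P ∧ ∀ i < k, B i ≤ B (i + 1) ∧
    ((B i).subgroupOf (B (i + 1))).Normal ∧
    ∃ t ∈ B (i + 1), ∀ x ∈ B (i + 1), ∃ e : ℤ, x * (t ^ e)⁻¹ ∈ B i

/-- Some mapping class moves the first `m` handles into `P`. -/
def HasHandles (P : Subgroup (Pi1 g n)) (m : ℕ) : Prop :=
  ∃ T : Mcg g n, ∀ i < m, T.act (loopA i) ∈ P ∧ T.act (loopB i) ∈ P

theorem main (g n : ℕ) (hg : 3 ≤ g) (H : Subgroup (Mcg g n)) [H.FiniteIndex]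
    (M P : Subgroup (Pi1 g n)) [M.Normal] [M.FiniteIndex] (k : ℕ) (hk : k + 2 ≤ g)
    (hP : HasHandles P (k + 2)) (hM : CycSeries M P k)
    (hH : ∀ x ∈ M, ∀ y ∈ M, pushPt (x * y * x⁻¹ * y⁻¹) ∈ H)
    (f : H →* Multiplicative ℤ) (x : Pi1 g n) (hx : pushPt x ∈ H) : f ⟨pushPt x, hx⟩ = 1 :=
  @final g n hg H ‹_› M P ‹_› ‹_› k hk hP hM hH f x hx

end Pool.Agent.PWI
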