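import Pool.Agent.PWI.Loc

/-!
# PWI module LAN: the lantern relation in the centraliser of a twist (three handles)

Explicit automorphisms of `FreeGroup (Gen 3 0)`: the twists `tA0, tA1, tA2, tB1, tB2`, the twist `tC`
(linking the handles 1 and 2), and three more twists `tE, tY, tZ`.  Lantern relation:
`tA0 * tB1 * tB2 * tE = tC * tY * tZ`.  All of them commute with `tA0`, and in the centraliser of
`tA0` the six twists `tB1, tB2, tE, tC, tY, tZ` are conjugate (braid relations with `tA1, tA2`).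
-/

namespace Pool.Agent.PWI.LanX

open FreeGroup

abbrev F3 := FreeGroup (Gen 3 0)

/-- An assignment on the generators of three handles. -/
def mk6 (x0 x1 x2 y0 y1 y2 : F3) : Gen 3 0 → F3
  | Gen.a i => ![x0, x1, x2] i
  | Gen.b i => ![y0, y1, y2] i
  | Gen.z k => k.elim0

theorem forallGen {p : Gen 3 0 → Prop} (h : p (Gen.a 0) ∧ p (Gen.a 1) ∧ p (Gen.a 2) ∧
    p (Gen.b 0) ∧ p (Gen.b 1) ∧ p (Gen.b 2)) : ∀ x, p x := by
  obtain ⟨h0, h1, h2, h3, h4, h5⟩ := h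
  rintro (i | i | k)
  · fin_cases i
    · exact h0
    · exact h1
    · exact h2
  · fin_cases i
    · exact h3
    · exact h4
    · exact h5
  · exact k.elim0

theorem stExt {S T : StF 3 0} (h : ∀ x, S.1 (of x) = T.1 (of x)) : S = T := by
  apply Subtype.ext
  apply MulEquiv.toMonoidHom_injective
  apply FreeGroup.ext_hom
  exact h

def a0 : F3 := of (Gen.a 0)
def a1 : F3 := of (Gen.a 1)
def a2 : F3 := of (Gen.a 2)
def b0 : F3 := of (Gen.b 0)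
def b1 : F3 := of (Gen.b 1)
def b2 : F3 := of (Gen.b 2)

def tA0f : Gen 3 0 → F3 := mk6
  (a0)
  (a1)
  (a2)
  (b0 * a0)
  (b1)
  (b2)

def tA0g : Gen 3 0 → F3 := mk6
  (a0)
  (a1)
  (a2)
  (b0 * a0⁻¹)
  (b1)
  (b2)

def tA0 : StF 3 0 := mkSt 3 tA0f tA0g
  (forallGen (p := fun x => FreeGroup.lift tA0f (tA0g x) = of x) (by decide))
  (forallGen (p := fun x => FreeGroup.lift tA0g (tA0f x) = of x) (by decide))
  (by decide)

def tA1f : Gen 3 0 → F3 := mk6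
  (a0)
  (a1)
  (a2)
  (b0)
  (b1 * a1)
  (b2)

def tA1g : Gen 3 0 → F3 := mk6
  (a0)
  (a1)
  (a2)
  (b0)
  (b1 * a1⁻¹)
  (b2)

def tA1 : StF 3 0 := mkSt 3 tA1f tA1g
  (forallGen (p := fun x => FreeGroup.lift tA1f (tA1g x) = of x) (by decide))
  (forallGen (p := fun x => FreeGroup.lift tA1g (tA1f x) = of x) (by decide))
  (by decide)

def tA2f : Gen 3 0 → F3 := mk6
  (a0)
  (a1)
  (a2)
  (b0)
  (b1)
  (b2 * a2)

def tA2g : Gen 3 0 → F3 := mk6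
  (a0)
  (a1)
  (a2)
  (b0)
  (b1)
  (b2 * a2⁻¹)

def tA2 : StF 3 0 := mkSt 3 tA2f tA2g
  (forallGen (p := fun x => FreeGroup.lift tA2f (tA2g x) = of x) (by decide))
  (forallGen (p := fun x => FreeGroup.lift tA2g (tA2f x) = of x) (by decide))
  (by decide)

def tB1f : Gen 3 0 → F3 := mk6
  (a0)
  (a1 * b1⁻¹)
  (a2)
  (b0)
  (b1)
  (b2)

def tB1g : Gen 3 0 → F3 := mk6
  (a0)
  (a1 * b1)
  (a2)
  (b0)
  (b1)
  (b2)

def tB1 : StF 3 0 := mkSt 3 tB1f tB1g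
  (forallGen (p := fun x => FreeGroup.lift tB1f (tB1g x) = of x) (by decide))
  (forallGen (p := fun x => FreeGroup.lift tB1g (tB1f x) = of x) (by decide))
  (by decide)

def tB2f : Gen 3 0 → F3 := mk6
  (a0)
  (a1)
  (a2 * b2⁻¹)
  (b0)
  (b1)
  (b2)

def tB2g : Gen 3 0 → F3 := mk6
  (a0)
  (a1)
  (a2 * b2)
  (b0)
  (b1)
  (b2)

def tB2 : StF 3 0 := mkSt 3 tB2f tB2g
  (forallGen (p := fun x => FreeGroup.lift tB2f (tB2g x) = of x) (by decide))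
  (forallGen (p := fun x => FreeGroup.lift tB2g (tB2f x) = of x) (by decide))
  (by decide)

def tCf : Gen 3 0 → F3 := mk6
  (a0)
  (a1 * b1⁻¹ * a2 * b2 * a2⁻¹)
  (a2 * b2⁻¹ * a2⁻¹ * b1 * a2)
  (b0)
  (a2 * b2⁻¹ * a2⁻¹ * b1 * a2 * b2 * a2⁻¹)
  (b2)

def tCg : Gen 3 0 → F3 := mk6
  (a0)
  (a1 * a2 * b2⁻¹ * a2⁻¹ * b1)
  (b1⁻¹ * a2 * b2)
  (b0)
  (b1⁻¹ * a2 * b2 * a2⁻¹ * b1 * a2 * b2⁻¹ * a2⁻¹ * b1)
  (b2)

def tC : StF 3 0 := mkSt 3 tCf tCg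
  (forallGen (p := fun x => FreeGroup.lift tCf (tCg x) = of x) (by decide))
  (forallGen (p := fun x => FreeGroup.lift tCg (tCf x) = of x) (by decide))
  (by decide)

def tEf : Gen 3 0 → F3 := mk6
  (a2 * b2⁻¹ * a2⁻¹ * b1 * a0 * b1⁻¹ * a2 * b2 * a2⁻¹)
  (a2 * b2⁻¹ * a2⁻¹ * b1 * a0⁻¹ * b1⁻¹ * a2 * b2 * a2⁻¹ * a0 * a1 * a0 * b1⁻¹ * a2 * b2 * a2⁻¹)
  (a2 * b2⁻¹ * a2⁻¹ * b1 * a0⁻¹ * a2)
  (a2 * b2⁻¹ * a2⁻¹ * b1 * a0⁻¹ * b1⁻¹ * a2 * b2 * a2⁻¹ * a0 * b0 * a0 * b1⁻¹ * a2 * b2 * a2⁻¹)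
  (a2 * b2⁻¹ * a2⁻¹ * b1 * a0⁻¹ * b1 * a0 * b1⁻¹ * a2 * b2 * a2⁻¹)
  (b2)

def tEg : Gen 3 0 → F3 := mk6
  (a0 * b1⁻¹ * a2 * b2 * a2⁻¹ * a0 * a2 * b2⁻¹ * a2⁻¹ * b1 * a0⁻¹)
  (a0 * b1⁻¹ * a2 * b2 * a2⁻¹ * a0⁻¹ * a2 * b2⁻¹ * a2⁻¹ * b1 * a1 * a2 * b2⁻¹ * a2⁻¹ * b1 * a0⁻¹)
  (a0 * b1⁻¹ * a2 * b2)
  (a0 * b1⁻¹ * a2 * b2 * a2⁻¹ * a0⁻¹ * a2 * b2⁻¹ * a2⁻¹ * b1 * b0 * a2 * b2⁻¹ * a2⁻¹ * b1 * a0⁻¹)
  (a0 * b1⁻¹ * a2 * b2 * a2⁻¹ * b1 * a2 * b2⁻¹ * a2⁻¹ * b1 * a0⁻¹)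
  (b2)

def tE : StF 3 0 := mkSt 3 tEf tEg
  (forallGen (p := fun x => FreeGroup.lift tEf (tEg x) = of x) (by decide))
  (forallGen (p := fun x => FreeGroup.lift tEg (tEf x) = of x) (by decide))
  (by decide)

def tYf : Gen 3 0 → F3 := mk6
  (b1 * a0 * b1⁻¹)
  (b1 * a0⁻¹ * b1⁻¹ * a0 * a1 * a0 * b1⁻¹)
  (a2)
  (b1 * a0⁻¹ * b1⁻¹ * a0 * b0 * a0 * b1⁻¹)
  (b1 * a0⁻¹ * b1 * a0 * b1⁻¹)
  (b2)

def tYg : Gen 3 0 → F3 := mk6
  (a0 * b1⁻¹ * a0 * b1 * a0⁻¹)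
  (a0 * b1⁻¹ * a0⁻¹ * b1 * a1 * b1 * a0⁻¹)
  (a2)
  (a0 * b1⁻¹ * a0⁻¹ * b1 * b0 * b1 * a0⁻¹)
  (a0 * b1 * a0⁻¹)
  (b2)

def tY : StF 3 0 := mkSt 3 tYf tYg
  (forallGen (p := fun x => FreeGroup.lift tYf (tYg x) = of x) (by decide))
  (forallGen (p := fun x => FreeGroup.lift tYg (tYf x) = of x) (by decide))
  (by decide)

def tZf : Gen 3 0 → F3 := mk6
  (a2 * b2⁻¹ * a2⁻¹ * a0 * a2 * b2 * a2⁻¹)
  (a2 * b2⁻¹ * a2⁻¹ * a0⁻¹ * a2 * b2 * a2⁻¹ * a0 * a1 * a0⁻¹ * a2 * b2⁻¹ * a2⁻¹ * a0 * a2 * b2 * a2⁻¹)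
  (a2 * b2⁻¹ * a2⁻¹ * a0⁻¹ * a2)
  (a2 * b2⁻¹ * a2⁻¹ * a0⁻¹ * a2 * b2 * a2⁻¹ * a0 * b0 * a0 * a2 * b2 * a2⁻¹)
  (a2 * b2⁻¹ * a2⁻¹ * a0⁻¹ * a2 * b2 * a2⁻¹ * a0 * b1 * a0⁻¹ * a2 * b2⁻¹ * a2⁻¹ * a0 * a2 * b2 * a2⁻¹)
  (b2)

def tZg : Gen 3 0 → F3 := mk6
  (a0 * a2 * b2 * a2⁻¹ * a0 * a2 * b2⁻¹ * a2⁻¹ * a0⁻¹)
  (a0 * a2 * b2 * a2⁻¹ * a0⁻¹ * a2 * b2⁻¹ * a2⁻¹ * a1 * a2 * b2 * a2⁻¹ * a0 * a2 * b2⁻¹ * a2⁻¹ * a0⁻¹)
  (a0 * a2 * b2)
  (a0 * a2 * b2 * a2⁻¹ * a0⁻¹ * a2 * b2⁻¹ * a2⁻¹ * b0 * a2 * b2⁻¹ * a2⁻¹ * a0⁻¹)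
  (a0 * a2 * b2 * a2⁻¹ * a0⁻¹ * a2 * b2⁻¹ * a2⁻¹ * b1 * a2 * b2 * a2⁻¹ * a0 * a2 * b2⁻¹ * a2⁻¹ * a0⁻¹)
  (b2)

def tZ : StF 3 0 := mkSt 3 tZf tZg
  (forallGen (p := fun x => FreeGroup.lift tZf (tZg x) = of x) (by decide))
  (forallGen (p := fun x => FreeGroup.lift tZg (tZf x) = of x) (by decide))
  (by decide)

theorem com_tA1 : tA0 * tA1 = tA1 * tA0 :=
  stExt (forallGen (p := fun x => FreeGroup.lift tA0f (FreeGroup.lift tA1f (of x)) =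
    FreeGroup.lift tA1f (FreeGroup.lift tA0f (of x))) (by decide))

theorem com_tA2 : tA0 * tA2 = tA2 * tA0 :=
  stExt (forallGen (p := fun x => FreeGroup.lift tA0f (FreeGroup.lift tA2f (of x)) =
    FreeGroup.lift tA2f (FreeGroup.lift tA0f (of x))) (by decide))

theorem com_tB1 : tA0 * tB1 = tB1 * tA0 :=
  stExt (forallGen (p := fun x => FreeGroup.lift tA0f (FreeGroup.lift tB1f (of x)) =
    FreeGroup.lift tB1f (FreeGroup.lift tA0f (of x))) (by decide))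

theorem com_tB2 : tA0 * tB2 = tB2 * tA0 :=
  stExt (forallGen (p := fun x => FreeGroup.lift tA0f (FreeGroup.lift tB2f (of x)) =
    FreeGroup.lift tB2f (FreeGroup.lift tA0f (of x))) (by decide))

theorem com_tC : tA0 * tC = tC * tA0 :=
  stExt (forallGen (p := fun x => FreeGroup.lift tA0f (FreeGroup.lift tCf (of x)) =
    FreeGroup.lift tCf (FreeGroup.lift tA0f (of x))) (by decide))

theorem com_tE : tA0 * tE = tE * tA0 :=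
  stExt (forallGen (p := fun x => FreeGroup.lift tA0f (FreeGroup.lift tEf (of x)) =
    FreeGroup.lift tEf (FreeGroup.lift tA0f (of x))) (by decide))

theorem com_tY : tA0 * tY = tY * tA0 :=
  stExt (forallGen (p := fun x => FreeGroup.lift tA0f (FreeGroup.lift tYf (of x)) =
    FreeGroup.lift tYf (FreeGroup.lift tA0f (of x))) (by decide))

theorem com_tZ : tA0 * tZ = tZ * tA0 :=
  stExt (forallGen (p := fun x => FreeGroup.lift tA0f (FreeGroup.lift tZf (of x)) =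
    FreeGroup.lift tZf (FreeGroup.lift tA0f (of x))) (by decide))

theorem br_tB1_tA1 : tB1 * tA1 * tB1 = tA1 * tB1 * tA1 :=
  stExt (forallGen (p := fun x => FreeGroup.lift tB1f (FreeGroup.lift tA1f (FreeGroup.lift tB1f (of x))) =
    FreeGroup.lift tA1f (FreeGroup.lift tB1f (FreeGroup.lift tA1f (of x)))) (by decide))

theorem br_tA1_tC : tA1 * tC * tA1 = tC * tA1 * tC :=
  stExt (forallGen (p := fun x => FreeGroup.lift tA1f (FreeGroup.lift tCf (FreeGroup.lift tA1f (of x))) =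
    FreeGroup.lift tCf (FreeGroup.lift tA1f (FreeGroup.lift tCf (of x)))) (by decide))

theorem br_tC_tA2 : tC * tA2 * tC = tA2 * tC * tA2 :=
  stExt (forallGen (p := fun x => FreeGroup.lift tCf (FreeGroup.lift tA2f (FreeGroup.lift tCf (of x))) =
    FreeGroup.lift tA2f (FreeGroup.lift tCf (FreeGroup.lift tA2f (of x)))) (by decide))

theorem br_tA2_tB2 : tA2 * tB2 * tA2 = tB2 * tA2 * tB2 :=
  stExt (forallGen (p := fun x => FreeGroup.lift tA2f (FreeGroup.lift tB2f (FreeGroup.lift tA2f (of x))) =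
    FreeGroup.lift tB2f (FreeGroup.lift tA2f (FreeGroup.lift tB2f (of x)))) (by decide))

theorem br_tE_tA1 : tE * tA1 * tE = tA1 * tE * tA1 :=
  stExt (forallGen (p := fun x => FreeGroup.lift tEf (FreeGroup.lift tA1f (FreeGroup.lift tEf (of x))) =
    FreeGroup.lift tA1f (FreeGroup.lift tEf (FreeGroup.lift tA1f (of x)))) (by decide))

theorem br_tY_tA1 : tY * tA1 * tY = tA1 * tY * tA1 :=
  stExt (forallGen (p := fun x => FreeGroup.lift tYf (FreeGroup.lift tA1f (FreeGroup.lift tYf (of x))) =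
    FreeGroup.lift tA1f (FreeGroup.lift tYf (FreeGroup.lift tA1f (of x)))) (by decide))

theorem br_tZ_tA2 : tZ * tA2 * tZ = tA2 * tZ * tA2 :=
  stExt (forallGen (p := fun x => FreeGroup.lift tZf (FreeGroup.lift tA2f (FreeGroup.lift tZf (of x))) =
    FreeGroup.lift tA2f (FreeGroup.lift tZf (FreeGroup.lift tA2f (of x)))) (by decide))

theorem lant : tA0 * tB1 * tB2 * tE = tC * tY * tZ :=
  stExt (forallGen (p := fun x => FreeGroup.lift tA0f (FreeGroup.lift tB1f (FreeGroup.lift tB2f (FreeGroup.lift tEf (of x)))) =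
    FreeGroup.lift tCf (FreeGroup.lift tYf (FreeGroup.lift tZf (of x)))) (by decide))


theorem conj_of_braid {G : Type*} [Group G] {A : Type*} [CommGroup A] (ψ : G →* A) {x y : G}
    (h : x * y * x = y * x * y) : ψ x = ψ y := by
  have : ψ x * ψ y * ψ x = ψ y * ψ x * ψ y := by
    rw [← MonoidHom.map_mul, ← MonoidHom.map_mul, h, MonoidHom.map_mul, MonoidHom.map_mul]
  have h2 : ψ x * ψ y * ψ x = ψ y * (ψ x * ψ y) := by rw [this]; ac_rfl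
  rw [mul_comm (ψ x * ψ y) (ψ x)] at h2
  exact mul_right_cancel h2

end Pool.Agent.PWI.LanX

namespace Pool.Agent.PWI

open FreeGroup LanX

theorem lantern : ∃ τ : StF 3 0,
    (τ.1 (of (Gen.a 0)) = of (Gen.a 0) ∧ τ.1 (of (Gen.b 0)) = of (Gen.b 0) * of (Gen.a 0) ∧
      ∀ k : Fin 3, k ≠ 0 → τ.1 (of (Gen.a k)) = of (Gen.a k) ∧
        τ.1 (of (Gen.b k)) = of (Gen.b k)) ∧
    ∀ ψ : Subgroup.centralizer ({τ} : Set (StF 3 0)) →* Multiplicative ℤ,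
      ψ ⟨τ, Subgroup.mem_centralizer_singleton_iff.2 rfl⟩ = 1 := by
  refine ⟨tA0, ⟨?_, ?_, ?_⟩, ?_⟩
  · show FreeGroup.lift tA0f (of (Gen.a 0)) = of (Gen.a 0)
    decide
  · show FreeGroup.lift tA0f (of (Gen.b 0)) = of (Gen.b 0) * of (Gen.a 0)
    decide
  · intro k hk
    show FreeGroup.lift tA0f (of (Gen.a k)) = of (Gen.a k) ∧
      FreeGroup.lift tA0f (of (Gen.b k)) = of (Gen.b k)
    revert k hk
    decide
  · intro ψ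
    have mem : ∀ t : StF 3 0, tA0 * t = t * tA0 →
        t ∈ Subgroup.centralizer ({tA0} : Set (StF 3 0)) := by
      intro t ht
      rw [Subgroup.mem_centralizer_singleton_iff]
      exact ht.symm
    let A0 : Subgroup.centralizer ({tA0} : Set (StF 3 0)) := ⟨tA0, mem _ rfl⟩
    let A1 : Subgroup.centralizer ({tA0} : Set (StF 3 0)) := ⟨tA1, mem _ com_tA1⟩
    let A2 : Subgroup.centralizer ({tA0} : Set (StF 3 0)) := ⟨tA2, mem _ com_tA2⟩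
    let B1 : Subgroup.centralizer ({tA0} : Set (StF 3 0)) := ⟨tB1, mem _ com_tB1⟩
    let B2 : Subgroup.centralizer ({tA0} : Set (StF 3 0)) := ⟨tB2, mem _ com_tB2⟩
    let C : Subgroup.centralizer ({tA0} : Set (StF 3 0)) := ⟨tC, mem _ com_tC⟩
    let E : Subgroup.centralizer ({tA0} : Set (StF 3 0)) := ⟨tE, mem _ com_tE⟩
    let Y : Subgroup.centralizer ({tA0} : Set (StF 3 0)) := ⟨tY, mem _ com_tY⟩
    let Z : Subgroup.centralizer ({tA0} : Set (StF 3 0)) := ⟨tZ, mem _ com_tZ⟩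
    have e1 : ψ B1 = ψ A1 := conj_of_braid ψ (Subtype.ext br_tB1_tA1)
    have e2 : ψ A1 = ψ C := conj_of_braid ψ (Subtype.ext br_tA1_tC)
    have e3 : ψ C = ψ A2 := conj_of_braid ψ (Subtype.ext br_tC_tA2)
    have e4 : ψ A2 = ψ B2 := conj_of_braid ψ (Subtype.ext br_tA2_tB2)
    have e5 : ψ E = ψ A1 := conj_of_braid ψ (Subtype.ext br_tE_tA1)
    have e6 : ψ Y = ψ A1 := conj_of_braid ψ (Subtype.ext br_tY_tA1)
    have e7 : ψ Z = ψ A2 := conj_of_braid ψ (Subtype.ext br_tZ_tA2)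
    have hl : A0 * B1 * B2 * E = C * Y * Z := Subtype.ext lant
    have hl2 : ψ A0 * ψ B1 * ψ B2 * ψ E = ψ C * ψ Y * ψ Z := by
      rw [← MonoidHom.map_mul, ← MonoidHom.map_mul, ← MonoidHom.map_mul, hl,
        MonoidHom.map_mul, MonoidHom.map_mul]
    rw [e1, ← e4, ← e3, ← e2, e5, e6, e7, ← e3, ← e2] at hl2
    rw [mul_assoc (ψ A0 * ψ A1), mul_assoc (ψ A0), ← mul_assoc (ψ A1)] at hl2
    exact mul_eq_right.mp hl2

end Pool.Agent.PWI
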