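import Pool.Agent.PWI.Ext
import Pool.Agent.PWI.Lan

/-!
# PWI module TW: the twist on the surface group and its centraliser

Proof. Let `E` be from `ext_exists 3 0` and `τ₀` from `lantern`; `τ := E τ₀`.  `E` maps the
centraliser of `τ₀` to the centraliser of `τ`; for `ψ : centralizer {τ} →* Multiplicative ℤ` apply
`lantern` to `ψ ∘ E` (restricted to the centralisers).  The values of `τ` on generators are
computed with `iota 3 0 (of (Gen.a k)) = sa k`; for `k ≥ 3` use `Fixes`.
-/

namespace Pool.Agent.PWI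

variable {g n : ℕ}

theorem twist_exists (hg : 3 ≤ g) : ∃ τ : PMod g n,
    (τ.1 (sa 0) = sa 0 ∧ τ.1 (sb 0) = sb 0 * sa 0 ∧ Fixes τ {0}) ∧
    ∀ ψ : Subgroup.centralizer ({τ} : Set (PMod g n)) →* Multiplicative ℤ,
      ψ ⟨τ, Subgroup.mem_centralizer_singleton_iff.2 rfl⟩ = 1 := by
  obtain ⟨E, hE1, hE2⟩ := ext_exists (g := g) (n := n) 3 0 (by omega)
  obtain ⟨τ, ⟨h1, h2, h3⟩, h4⟩ := lantern
  have ia : ∀ k : Fin 3, iota 3 0 (FreeGroup.of (Gen.a k)) = (sa (k : ℕ) : SG g n) := by
    intro k; simp [iota]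
  have ib : ∀ k : Fin 3, iota 3 0 (FreeGroup.of (Gen.b k)) = (sb (k : ℕ) : SG g n) := by
    intro k; simp [iota]
  refine ⟨E τ, ⟨?_, ?_, ?_, ?_⟩, ?_⟩
  · have := hE1 τ (FreeGroup.of (Gen.a 0))
    rw [h1, ia] at this
    exact this
  · have := hE1 τ (FreeGroup.of (Gen.b 0))
    rw [h2, map_mul, ia, ib] at this
    exact this
  · intro k hk
    by_cases hk3 : k < 3
    · have h5 := h3 ⟨k, hk3⟩ (by
        intro h
        apply hk
        have := congrArg Fin.val h
        simpa using this)
      have h6 := hE1 τ (FreeGroup.of (Gen.a ⟨k, hk3⟩))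
      have h7 := hE1 τ (FreeGroup.of (Gen.b ⟨k, hk3⟩))
      rw [h5.1, ia] at h6
      rw [h5.2, ib] at h7
      exact ⟨h6, h7⟩
    · exact (hE2 τ).1 k (by
        intro h
        apply hk3
        have := h.2
        omega)
  · exact (hE2 τ).2
  · intro ψ
    let c : Subgroup.centralizer ({τ} : Set (StF 3 0)) →*
        Subgroup.centralizer ({E τ} : Set (PMod g n)) :=
      (E.comp (Subgroup.subtype _)).codRestrict _ (by
        intro x
        rw [Subgroup.mem_centralizer_singleton_iff]
        have := Subgroup.mem_centralizer_singleton_iff.1 x.2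
        show E x * E τ = E τ * E x
        rw [← map_mul, ← map_mul, this])
    exact h4 (ψ.comp c)

end Pool.Agent.PWI
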