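import Pool.Agent.PWI.Tv
import Pool.Agent.PWI.Tw

/-!
# PWI module SV: homomorphisms to the integers kill powers of simple closed curves

Proof. Let `τ` be from `twist_exists`.  `τ (a_0) = a_0`, `τ (b_0) = b_0 a_0`.  In `PMod g n`:
`τ * push y * τ⁻¹ = push (τ y)`; hence with `y = b_0`:
`push (a_0) = push (b_0)⁻¹ * push (b_0 a_0) = push (b_0)⁻¹ * τ * push (b_0) * τ⁻¹`.
Let `x = T (a_0)`; then `push x = T * push (a_0) * T⁻¹ = σ₁ * σ₂⁻¹` with
`σ₁ = T * push (b_0)⁻¹ * τ * push (b_0) * T⁻¹`, `σ₂ = T * τ * T⁻¹`.  `push (a_0)` commutes with `τ`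
(`τ a_0 = a_0`), so `push x` commutes with `σ₂`, hence `σ₁ = push x * σ₂` commutes with `σ₂`, and
`push x ^ k = σ₁ ^ k * (σ₂ ^ k)⁻¹` for all `k`.
Both `σ₁, σ₂` are conjugates of `τ` in `PMod g n`, so they satisfy the centraliser hypothesis of
`tv` (conjugation `c` maps the centraliser of `τ` isomorphically to that of `c τ c⁻¹`).
Choose `k = m * N` with `N > 0` such that `σ₁ ^ N, σ₂ ^ N ∈ H` (e.g. `H.index.factorial`, or
`Subgroup.exists_pow_mem_of_index_ne_zero` twice and take the product).  Then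
`f (push x ^ m) ^ N = f (push x ^ k) = f (σ₁ ^ k) * f (σ₂ ^ k)⁻¹ = 1` by `tv`, and
`Multiplicative ℤ` is torsion free.
-/

namespace Pool.Agent.PWI

variable {g n : ℕ}

/-- The centraliser property is invariant under conjugation. -/
theorem cent_conj {G : Type*} [Group G] (τ c : G)
    (hτ : ∀ ψ : Subgroup.centralizer ({τ} : Set G) →* Multiplicative ℤ,
      ψ ⟨τ, Subgroup.mem_centralizer_singleton_iff.2 rfl⟩ = 1)
    (ψ : Subgroup.centralizer ({c * τ * c⁻¹} : Set G) →* Multiplicative ℤ) :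
    ψ ⟨c * τ * c⁻¹, Subgroup.mem_centralizer_singleton_iff.2 rfl⟩ = 1 := by
  let k : Subgroup.centralizer ({τ} : Set G) →*
      Subgroup.centralizer ({c * τ * c⁻¹} : Set G) :=
    ((MulAut.conj c).toMonoidHom.comp (Subgroup.subtype _)).codRestrict _ (by
      intro x
      rw [Subgroup.mem_centralizer_singleton_iff]
      have h := Subgroup.mem_centralizer_singleton_iff.1 x.2
      show (c * x * c⁻¹) * (c * τ * c⁻¹) = (c * τ * c⁻¹) * (c * x * c⁻¹)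
      have e1 : (c * (x : G) * c⁻¹) * (c * τ * c⁻¹) = c * ((x : G) * τ) * c⁻¹ := by group
      have e2 : (c * τ * c⁻¹) * (c * (x : G) * c⁻¹) = c * (τ * (x : G)) * c⁻¹ := by group
      rw [e1, e2, h])
  exact hτ (ψ.comp k)

theorem mul_push (T : PMod g n) (y : SG g n) : T * push y * T⁻¹ = push (T.1 y) := by
  apply Subtype.ext
  apply MulEquiv.ext
  intro x
  show T.1 (y * ((T.1)⁻¹ x) * y⁻¹) = T.1 y * x * (T.1 y)⁻¹
  simp

theorem torsion_free {x : Multiplicative ℤ} {N : ℕ} (hN : N ≠ 0) (h : x ^ N = 1) : x = 1 := by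
  have h5 : N • Multiplicative.toAdd x = 0 := by
    rw [← toAdd_pow, h]; rfl
  rcases smul_eq_zero.1 h5 with h | h
  · exact absurd h hN
  · exact Multiplicative.toAdd.injective h

theorem sv (hg : 3 ≤ g) (H : Subgroup (PMod g n)) [H.FiniteIndex]
    (f : H →* Multiplicative ℤ) (x : SG g n) (hx : IsS x) (m : ℕ) (h : push x ^ m ∈ H) :
    f ⟨push x ^ m, h⟩ = 1 := by
  obtain ⟨T, rfl⟩ := hx
  obtain ⟨τ, ⟨h1, h2, _⟩, hψ⟩ := twist_exists (n := n) hg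
  -- push a₀ in terms of conjugates of τ
  have ha : push (sa 0) = (push (sb 0))⁻¹ * τ * push (sb 0) * τ⁻¹ := by
    have e := mul_push τ (sb 0)
    rw [h2, map_mul] at e
    rw [mul_assoc ((push (sb 0))⁻¹), mul_assoc ((push (sb 0))⁻¹), e, ← mul_assoc,
      inv_mul_cancel, one_mul]
  have hcom : push (sa 0) * τ = τ * push (sa 0) := by
    have e := mul_push τ (sa 0)
    rw [h1] at e
    conv_lhs => rw [← e]
    group
  set c : PMod g n := T * (push (sb 0))⁻¹ with hc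
  set σ₁ : PMod g n := c * τ * c⁻¹ with hσ₁
  set σ₂ : PMod g n := T * τ * T⁻¹ with hσ₂
  have hx1 : push (T.1 (sa 0)) * σ₂ = σ₁ := by
    rw [← mul_push, hσ₁, hσ₂, hc, ha]
    group
  have hx2 : Commute (push (T.1 (sa 0))) σ₂ := by
    show push (T.1 (sa 0)) * σ₂ = σ₂ * push (T.1 (sa 0))
    rw [← mul_push, hσ₂]
    have e1 : T * push (sa 0) * T⁻¹ * (T * τ * T⁻¹) = T * (push (sa 0) * τ) * T⁻¹ := by group
    have e2 : T * τ * T⁻¹ * (T * push (sa 0) * T⁻¹) = T * (τ * push (sa 0)) * T⁻¹ := by group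
    rw [e1, e2, hcom]
  obtain ⟨N₁, hN₁, hN₁'⟩ : ∃ N, 0 < N ∧ σ₁ ^ N ∈ H := by
    obtain ⟨N, h1, h2, h3⟩ := Subgroup.exists_pow_mem_of_index_ne_zero
      (H := H) Subgroup.FiniteIndex.index_ne_zero σ₁
    exact ⟨N, h1, h3⟩
  obtain ⟨N₂, hN₂, hN₂'⟩ : ∃ N, 0 < N ∧ σ₂ ^ N ∈ H := by
    obtain ⟨N, h1, h2, h3⟩ := Subgroup.exists_pow_mem_of_index_ne_zero
      (H := H) Subgroup.FiniteIndex.index_ne_zero σ₂
    exact ⟨N, h1, h3⟩
  set N := N₁ * N₂ with hN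
  have hNpos : N ≠ 0 := by positivity
  have m1 : σ₁ ^ (m * N) ∈ H := by
    have : σ₁ ^ (m * N) = (σ₁ ^ N₁) ^ (N₂ * m) := by rw [← pow_mul]; congr 1; rw [hN]; ring
    rw [this]; exact H.pow_mem hN₁' _
  have m2 : σ₂ ^ (m * N) ∈ H := by
    have : σ₂ ^ (m * N) = (σ₂ ^ N₂) ^ (N₁ * m) := by rw [← pow_mul]; congr 1; rw [hN]; ring
    rw [this]; exact H.pow_mem hN₂' _
  have f1 : f ⟨σ₁ ^ (m * N), m1⟩ = 1 := tv H f σ₁ (cent_conj τ c hψ) _ m1
  have f2 : f ⟨σ₂ ^ (m * N), m2⟩ = 1 := tv H f σ₂ (cent_conj τ T hψ) _ m2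
  have e : (⟨push (T.1 (sa 0)) ^ m, h⟩ : H) ^ N * ⟨σ₂ ^ (m * N), m2⟩ = ⟨σ₁ ^ (m * N), m1⟩ := by
    apply Subtype.ext
    show (push (T.1 (sa 0)) ^ m) ^ N * σ₂ ^ (m * N) = σ₁ ^ (m * N)
    rw [← pow_mul, ← hx1, hx2.mul_pow]
  have e2 := congrArg f e
  rw [map_mul, map_pow, f1, f2, mul_one] at e2
  exact torsion_free hNpos e2

end Pool.Agent.PWI
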