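import Pool.Agent.PWI.ExtF

/-!
# PWI module PUNC: sliding the last handle around a puncture

Let `l = g - 1 ≥ 0` be the last handle, `j < n`, `w = z_0 ... z_(j-1)`, `z' = w z_j w⁻¹`,
`e = b_l⁻¹ z'`.  Automorphism: `a_l ↦ a_l e⁻¹`, `b_l ↦ e b_l e⁻¹`, `z_j ↦ w⁻¹ e w z_j w⁻¹ e⁻¹ w`,
all other generators fixed.

Proof. Work in the free group `FreeGroup (Gen g n)` with the corresponding words.  Let `τ` be the
endomorphism (`FreeGroup.lift`).  `τ w = w` (no letter `z_j` in `w`), `τ z' = e z' e⁻¹`,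
`τ b_l⁻¹ = e b_l⁻¹ e⁻¹`, so `τ e = e`.  The endomorphism `τ'` with `e` replaced by `e⁻¹` on the
outside (`a_l ↦ a_l e`, `b_l ↦ e⁻¹ b_l e`, `z_j ↦ w⁻¹ e⁻¹ w z_j w⁻¹ e w`) also fixes `e`, and the two
are inverse to each other.
The word: `rel = pre * (a_l b_l a_l⁻¹ b_l⁻¹) * w * z_j * post`, where `pre` is the product of the
commutators of the other handles, `post = z_(j+1) ... z_(n-1)`; and
`a_l b_l a_l⁻¹ b_l⁻¹ w z_j = a_l b_l a_l⁻¹ e w` is mapped to
`(a_l e⁻¹)(e b_l e⁻¹)(e a_l⁻¹) e w = a_l b_l a_l⁻¹ e w`.  So `τ rel = rel`; `desc_exists` gives an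
automorphism of `SG g n`; it is in `PMod` since `z_j` goes to the conjugate of `z_j` by
`w⁻¹ e w`.
-/

namespace Pool.Agent.PWI

variable {g n : ℕ}

namespace PuncX

/-- `z_k` in the free group. -/
def zF (g n k : ℕ) : FreeGroup (Gen g n) :=
  if h : k < n then FreeGroup.of (Gen.z ⟨k, h⟩) else 1

/-- `z_0 ... z_(j-1)`. -/
def wF (g n j : ℕ) : FreeGroup (Gen g n) := ((List.range j).map (zF g n)).prod

/-- The endomorphism with parameter `c`. -/
def tau (l : Fin g) (j : Fin n) (c : FreeGroup (Gen g n)) :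
    FreeGroup (Gen g n) →* FreeGroup (Gen g n) :=
  FreeGroup.lift fun y => match y with
    | Gen.a k => if k = l then FreeGroup.of (Gen.a k) * c⁻¹ else FreeGroup.of (Gen.a k)
    | Gen.b k => if k = l then c * FreeGroup.of (Gen.b k) * c⁻¹ else FreeGroup.of (Gen.b k)
    | Gen.z k => if k = j then (wF g n j)⁻¹ * c * wF g n j * FreeGroup.of (Gen.z k) *
        ((wF g n j)⁻¹ * c * wF g n j)⁻¹ else FreeGroup.of (Gen.z k)

variable (l : Fin g) (j : Fin n) (c : FreeGroup (Gen g n))

theorem tau_a : tau l j c (FreeGroup.of (Gen.a l)) = FreeGroup.of (Gen.a l) * c⁻¹ := by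
  simp [tau]

theorem tau_b : tau l j c (FreeGroup.of (Gen.b l)) = c * FreeGroup.of (Gen.b l) * c⁻¹ := by
  simp [tau]

theorem tau_z : tau l j c (FreeGroup.of (Gen.z j)) = (wF g n j)⁻¹ * c * wF g n j *
    FreeGroup.of (Gen.z j) * ((wF g n j)⁻¹ * c * wF g n j)⁻¹ := by
  simp [tau]

theorem tau_a' {k : Fin g} (hk : k ≠ l) :
    tau l j c (FreeGroup.of (Gen.a k)) = FreeGroup.of (Gen.a k) := by
  simp [tau, hk]

theorem tau_b' {k : Fin g} (hk : k ≠ l) :
    tau l j c (FreeGroup.of (Gen.b k)) = FreeGroup.of (Gen.b k) := by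
  simp [tau, hk]

theorem tau_z' {k : Fin n} (hk : k ≠ j) :
    tau l j c (FreeGroup.of (Gen.z k)) = FreeGroup.of (Gen.z k) := by
  simp [tau, hk]

theorem tau_zF {k : ℕ} (hk : k ≠ j) : tau l j c (zF g n k) = zF g n k := by
  by_cases h : k < n
  · simp only [zF, dif_pos h]
    apply tau_z'
    intro h2
    apply hk
    have := congrArg Fin.val h2
    exact this
  · simp only [zF, dif_neg h, map_one]

theorem tau_w : tau l j c (wF g n j) = wF g n j := by
  unfold wF
  rw [map_list_prod, List.map_map]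
  congr 1
  apply List.map_congr_left
  intro k hk
  have := List.mem_range.1 hk
  exact tau_zF l j c (by omega)

theorem tau_cm {k : ℕ} (hk : k ≠ l) : tau l j c (cmF g n k) = cmF g n k := by
  by_cases h : k < g
  · have hk2 : (⟨k, h⟩ : Fin g) ≠ l := fun h2 => hk (congrArg Fin.val h2)
    simp only [cmF, dif_pos h, map_mul, map_inv, tau_a' l j c hk2, tau_b' l j c hk2]
  · simp only [cmF, dif_neg h, map_one]

/-- The element `e = b_l⁻¹ (w z_j w⁻¹)`. -/
def eF : FreeGroup (Gen g n) :=
  (FreeGroup.of (Gen.b l))⁻¹ * (wF g n j * FreeGroup.of (Gen.z j) * (wF g n j)⁻¹)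

theorem tau_e : tau l j c (eF l j) = c * eF l j * c⁻¹ := by
  unfold eF
  simp only [map_mul, map_inv, tau_b, tau_z, tau_w]
  group

theorem tau_tau (hc : tau l j c c = c) (x : FreeGroup (Gen g n)) :
    tau l j c (tau l j c⁻¹ x) = x := by
  have hc' : tau l j c c⁻¹ = c⁻¹ := by rw [map_inv, hc]
  have : (tau l j c).comp (tau l j c⁻¹) = MonoidHom.id _ := by
    apply FreeGroup.ext_hom
    rintro (k | k | k)
    · by_cases hk : k = l
      · subst hk
        simp only [MonoidHom.comp_apply, tau_a, map_mul, map_inv, hc, MonoidHom.id_apply]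
        group
      · simp only [MonoidHom.comp_apply, tau_a' l j _ hk, MonoidHom.id_apply]
    · by_cases hk : k = l
      · subst hk
        simp only [MonoidHom.comp_apply, tau_b, map_mul, map_inv, hc, MonoidHom.id_apply]
        group
      · simp only [MonoidHom.comp_apply, tau_b' l j _ hk, MonoidHom.id_apply]
    · by_cases hk : k = j
      · subst hk
        simp only [MonoidHom.comp_apply, tau_z, map_mul, map_inv, hc, MonoidHom.id_apply, tau_w]
        group
      · simp only [MonoidHom.comp_apply, tau_z' l j _ hk, MonoidHom.id_apply]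
  exact DFunLike.congr_fun this x

theorem tau_rel (hl : (l : ℕ) + 1 = g) : tau l j (eF l j) (rel g n) = rel g n := by
  obtain ⟨r, hr⟩ : ∃ r, n = ((j : ℕ) + 1) + r := ⟨n - ((j : ℕ) + 1), by have := j.2; omega⟩
  have hz : (List.ofFn fun j : Fin n => FreeGroup.of (Gen.z j : Gen g n)).prod =
      wF g n j * FreeGroup.of (Gen.z j) *
        ((List.range r).map (fun k => zF g n ((j : ℕ) + 1 + k))).prod := by
    rw [map_range_eq n (zF g n) _ (fun i => by simp [zF, i.2])]
    conv_lhs => rw [show List.range n = List.range (((j : ℕ) + 1) + r) by rw [← hr]]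
    rw [List.range_add, List.range_succ]
    simp only [List.map_append, List.prod_append, List.map_map, List.map_cons, List.map_nil,
      List.prod_cons, List.prod_nil, mul_one]
    have : zF g n (j : ℕ) = FreeGroup.of (Gen.z j) := by simp [zF]
    rw [this]
    rfl
  have hh : ((List.range g).map (cmF g n)).prod = ((List.range l).map (cmF g n)).prod *
      cmF g n l := by
    conv_lhs => rw [show List.range g = List.range ((l : ℕ) + 1) by rw [hl]]
    rw [List.range_succ]
    simp
  have hcm : cmF g n (l : ℕ) = FreeGroup.of (Gen.a l) * FreeGroup.of (Gen.b l) *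
      (FreeGroup.of (Gen.a l))⁻¹ * (FreeGroup.of (Gen.b l))⁻¹ := by
    simp only [cmF, dif_pos l.2, Fin.eta]
  have hpre : tau l j (eF l j) ((List.range l).map (cmF g n)).prod =
      ((List.range l).map (cmF g n)).prod := by
    rw [map_list_prod, List.map_map]
    congr 1
    apply List.map_congr_left
    intro k hk
    have := List.mem_range.1 hk
    exact tau_cm l j _ (by omega)
  have hpost : tau l j (eF l j) ((List.range r).map (fun k => zF g n ((j : ℕ) + 1 + k))).prod =
      ((List.range r).map (fun k => zF g n ((j : ℕ) + 1 + k))).prod := by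
    rw [map_list_prod, List.map_map]
    congr 1
    apply List.map_congr_left
    intro k hk
    exact tau_zF l j _ (by omega)
  rw [rel_eq, hz, hh, hcm]
  simp only [map_mul, map_inv, hpre, hpost, tau_a, tau_b, tau_z, tau_w]
  set E := eF l j with hE
  have hE' : wF g n j * FreeGroup.of (Gen.z j) = FreeGroup.of (Gen.b l) * E * wF g n j := by
    rw [hE]; unfold eF; group
  set w := wF g n j
  set A := FreeGroup.of (Gen.a l : Gen g n)
  set B := FreeGroup.of (Gen.b l : Gen g n)
  set Z := FreeGroup.of (Gen.z j : Gen g n)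
  set P := ((List.range l).map (cmF g n)).prod
  set Q := ((List.range r).map (fun k => zF g n ((j : ℕ) + 1 + k))).prod
  have hZ : Z = w⁻¹ * (B * E * w) := by rw [← hE']; group
  rw [hZ]
  group

end PuncX

open PuncX

theorem exE (hg : 1 ≤ g) (j : ℕ) (hj : j < n) (w e : SG g n)
    (hw : w = ((List.range j).map (fun k => (sz k : SG g n))).prod)
    (he : e = (sb (g - 1))⁻¹ * (w * sz j * w⁻¹)) :
    ∃ T : PMod g n, T.1 (sa (g - 1)) = sa (g - 1) * e⁻¹ ∧
      T.1 (sb (g - 1)) = e * sb (g - 1) * e⁻¹ ∧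
      (∀ k, k ≠ g - 1 → T.1 (sa k) = sa k ∧ T.1 (sb k) = sb k) ∧
      (∀ k, k ≠ j → T.1 (sz k) = sz k) ∧
      T.1 (sz j) = w⁻¹ * e * w * sz j * (w⁻¹ * e * w)⁻¹ := by
  obtain ⟨D, hD⟩ := desc_exists g n
  let l : Fin g := ⟨g - 1, by omega⟩
  let J : Fin n := ⟨j, hj⟩
  have hee : tau l J (eF l J) (eF l J) = eF l J := by rw [tau_e]; group
  have hee' : tau l J (eF l J)⁻¹ (eF l J)⁻¹ = (eF l J)⁻¹ := by
    rw [map_inv, tau_e]; group
  let θ : StF g n := ⟨
    { toFun := tau l J (eF l J)
      invFun := tau l J (eF l J)⁻¹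
      left_inv := fun x => by
        have := tau_tau l J (eF l J)⁻¹ hee' x
        rwa [inv_inv] at this
      right_inv := fun x => tau_tau l J (eF l J) hee x
      map_mul' := (tau l J (eF l J)).map_mul }, tau_rel l J (by show g - 1 + 1 = g; omega)⟩
  have hθ : ∀ x, D θ (PresentedGroup.mk _ x) = PresentedGroup.mk _ (tau l J (eF l J) x) :=
    fun x => hD θ x
  have ea : (sa (g - 1) : SG g n) = PresentedGroup.mk _ (FreeGroup.of (Gen.a l)) := by
    simp only [sa, dif_pos (by omega : g - 1 < g)]; rfl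
  have eb : (sb (g - 1) : SG g n) = PresentedGroup.mk _ (FreeGroup.of (Gen.b l)) := by
    simp only [sb, dif_pos (by omega : g - 1 < g)]; rfl
  have ez : ∀ k, (sz k : SG g n) = PresentedGroup.mk _ (zF g n k) := by
    intro k
    by_cases hk : k < n
    · simp only [sz, zF, dif_pos hk]; rfl
    · simp only [sz, zF, dif_neg hk, map_one]
  have ezj : (sz j : SG g n) = PresentedGroup.mk _ (FreeGroup.of (Gen.z J)) := by
    rw [ez]; simp only [zF, dif_pos hj]; rfl
  have ew : w = PresentedGroup.mk _ (wF g n j) := by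
    rw [hw]; unfold wF
    rw [map_list_prod, List.map_map]
    congr 1
    apply List.map_congr_left
    intro k _
    exact ez k
  have ee : e = PresentedGroup.mk _ (eF l J) := by
    rw [he, ew, eb, ezj]; unfold eF
    simp only [map_mul, map_inv]; rfl
  have hzk : ∀ k, k ≠ j → D θ (sz k) = sz k := by
    intro k hk
    rw [ez, hθ, tau_zF l J _ hk]
  have hzj : D θ (sz j) = w⁻¹ * e * w * sz j * (w⁻¹ * e * w)⁻¹ := by
    rw [ezj, hθ, tau_z, ew, ee]
    simp only [map_mul, map_inv]; rfl
  refine ⟨⟨D θ, ?_⟩, ?_, ?_, ?_, ?_, ?_⟩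
  · intro k
    by_cases hk : k = j
    · subst hk
      rw [hzj, isConj_iff]
      exact ⟨_, rfl⟩
    · rw [hzk k hk]
  · show D θ (sa (g - 1)) = _
    rw [ea, hθ, tau_a, ee]
    simp only [map_mul, map_inv]
  · show D θ (sb (g - 1)) = _
    rw [eb, hθ, tau_b, ee]
    simp only [map_mul, map_inv]
  · intro k hk
    by_cases hkg : k < g
    · have e1 : (sa k : SG g n) = PresentedGroup.mk _ (FreeGroup.of (Gen.a ⟨k, hkg⟩)) := by
        simp only [sa, dif_pos hkg]; rfl
      have e2 : (sb k : SG g n) = PresentedGroup.mk _ (FreeGroup.of (Gen.b ⟨k, hkg⟩)) := by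
        simp only [sb, dif_pos hkg]; rfl
      have hk2 : (⟨k, hkg⟩ : Fin g) ≠ l := fun h2 => hk (congrArg Fin.val h2)
      show D θ (sa k) = _ ∧ D θ (sb k) = _
      rw [e1, e2, hθ, hθ, tau_a' l J _ hk2, tau_b' l J _ hk2]
      exact ⟨rfl, rfl⟩
    · have e1 : (sa k : SG g n) = 1 := by simp only [sa, dif_neg hkg]
      have e2 : (sb k : SG g n) = 1 := by simp only [sb, dif_neg hkg]
      show D θ (sa k) = _ ∧ D θ (sb k) = _
      rw [e1, e2, map_one]
      exact ⟨rfl, rfl⟩
  · exact hzk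
  · exact hzj

end Pool.Agent.PWI
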