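import Pool.Agent.PWI.Euc

/-!
# PWI module COST: a series of cyclic quotients costs one handle for each quotient

Proof. Let `T0` move the first `k + 2` handles into `B k`.
Claim: for `j ≤ k` there is `T : PMod g n` with `T a_i, T b_i ∈ B (k - j)` for all
`i < k + 2 - j`.  `j = 0`: `T = T0`.  Step `j → j + 1` (`j < k`): let `s = k - j - 1`,
`m = k + 2 - j`, so `T (Wd m) ≤ B (s + 1)`.  Let `Q = B (s+1) ⧸ (B s).subgroupOf (B (s+1))`, cyclic
(hence commutative: `IsCyclic.commGroup`), and `ψ x = [T x]` if `T x ∈ B (s + 1)`, `1` otherwise;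
`ψ` is multiplicative on `Wd m`.  `euc` gives `T'` preserving `Wd m` with
`ψ (T' a_i) = ψ (T' b_i) = 1` for `i + 1 < m`; `T' a_i ∈ Wd m`, so `T (T' a_i) ∈ B (s + 1)` and its
class is trivial: `T T' a_i ∈ B s`.  So `T T'` works for `j + 1`.
For `j = k`: `T a_i, T b_i ∈ B 0 = M` for `i < 2`.
-/

namespace Pool.Agent.PWI

variable {g n : ℕ}

private theorem cost_step (P N : Subgroup (SG g n)) (m : ℕ) (hm : m ≤ g) (T : PMod g n)
    (hno : (N.subgroupOf P).Normal)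
    (hcy : ∃ t ∈ P, ∀ x ∈ P, ∃ e : ℤ, x * (t ^ e)⁻¹ ∈ N)
    (hT : ∀ x ∈ Wd m, T.1 x ∈ P) :
    ∃ T' : PMod g n, ∀ i, i + 1 < m → T'.1 (sa i) ∈ N ∧ T'.1 (sb i) ∈ N := by
  classical
  have hcyc : IsCyclic (P ⧸ N.subgroupOf P) := by
    obtain ⟨t, ht, h⟩ := hcy
    refine ⟨⟨QuotientGroup.mk ⟨t, ht⟩, fun q => ?_⟩⟩
    obtain ⟨x, rfl⟩ := QuotientGroup.mk_surjective q
    obtain ⟨e, he⟩ := h x.1 x.2
    refine ⟨e, ?_⟩
    show (QuotientGroup.mk (⟨t, ht⟩ : P) : P ⧸ N.subgroupOf P) ^ e = QuotientGroup.mk x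
    rw [← QuotientGroup.mk_zpow, QuotientGroup.eq]
    have h1 : x * ((⟨t, ht⟩ : P) ^ e)⁻¹ ∈ N.subgroupOf P := by
      rw [Subgroup.mem_subgroupOf]
      exact he
    exact hno.mem_comm h1
  obtain ⟨ψ, hψd⟩ : ∃ ψ : SG g n → P ⧸ N.subgroupOf P, ∀ x, ψ x =
      if h : T.1 x ∈ P then QuotientGroup.mk ⟨T.1 x, h⟩ else 1 := ⟨_, fun _ => rfl⟩
  have hψ : ∀ x ∈ (Wd m : Subgroup (SG g n)), ∀ y ∈ (Wd m : Subgroup (SG g n)),
      ψ (x * y) = ψ x * ψ y := by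
    intro x hx y hy
    rw [hψd, hψd, hψd, dif_pos (hT x hx), dif_pos (hT y hy),
      dif_pos (hT _ ((Wd m).mul_mem hx hy)), ← QuotientGroup.mk_mul]
    congr 1
    exact Subtype.ext (map_mul T.1 x y)
  obtain ⟨T', hT1, hT2⟩ := @euc g n m hm (P ⧸ N.subgroupOf P) IsCyclic.commGroup hcyc ψ hψ
  have key : ∀ x ∈ (Wd m : Subgroup (SG g n)), ψ (T'.1 x) = 1 → T.1 (T'.1 x) ∈ N := by
    intro x hx h1
    rw [hψd, dif_pos (hT _ (hT1 x hx))] at h1
    have h2 := (QuotientGroup.eq_one_iff _).1 h1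
    rwa [Subgroup.mem_subgroupOf] at h2
  refine ⟨T * T', fun i hi => ⟨?_, ?_⟩⟩
  · exact key (sa i) (Subgroup.subset_closure ⟨i, by omega, Or.inl rfl⟩) (hT2 i hi).1
  · exact key (sb i) (Subgroup.subset_closure ⟨i, by omega, Or.inr rfl⟩) (hT2 i hi).2

theorem cost (M P : Subgroup (SG g n)) (B : ℕ → Subgroup (SG g n)) (k : ℕ) (hk : k + 2 ≤ g)
    (hB0 : B 0 = M) (hBk : B k = P)
    (hno : ∀ i < k, ((B i).subgroupOf (B (i + 1))).Normal)
    (hcy : ∀ i < k, ∃ t ∈ B (i + 1), ∀ x ∈ B (i + 1), ∃ e : ℤ, x * (t ^ e)⁻¹ ∈ B i)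
    (T0 : PMod g n) (hT0 : ∀ i < k + 2, T0.1 (sa i) ∈ P ∧ T0.1 (sb i) ∈ P) :
    ∃ T : PMod g n, T.1 (sa 0) ∈ M ∧ T.1 (sb 0) ∈ M ∧ T.1 (sa 1) ∈ M ∧ T.1 (sb 1) ∈ M := by
  have claim : ∀ j, j ≤ k → ∃ T : PMod g n, ∀ i, i < k + 2 - j →
      T.1 (sa i) ∈ B (k - j) ∧ T.1 (sb i) ∈ B (k - j) := by
    intro j
    induction j with
    | zero =>
      intro _
      refine ⟨T0, fun i hi => ?_⟩
      rw [Nat.sub_zero, hBk]
      exact hT0 i (by omega)
    | succ j ih =>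
      intro hj
      obtain ⟨T, hT⟩ := ih (by omega)
      obtain ⟨s, hs⟩ : ∃ s, s = k - (j + 1) := ⟨_, rfl⟩
      have hs1 : k - j = s + 1 := by omega
      rw [hs1] at hT
      rw [← hs]
      have hW : ∀ x ∈ (Wd (k + 2 - j) : Subgroup (SG g n)), T.1 x ∈ B (s + 1) := by
        intro x hx
        unfold Wd at hx
        induction hx using Subgroup.closure_induction with
        | mem x hx =>
          obtain ⟨i, hi, rfl | rfl⟩ := hx
          · exact (hT i hi).1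
          · exact (hT i hi).2
        | one =>
          rw [map_one]
          exact (B (s + 1)).one_mem
        | mul x y _ _ hx hy =>
          rw [map_mul]
          exact (B (s + 1)).mul_mem hx hy
        | inv x _ hx =>
          rw [map_inv]
          exact (B (s + 1)).inv_mem hx
      obtain ⟨T', hT'⟩ := cost_step (B (s + 1)) (B s) (k + 2 - j) (by omega) T
        (hno s (by omega)) (hcy s (by omega)) hW
      exact ⟨T', fun i hi => hT' i (by omega)⟩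
  obtain ⟨T, hT⟩ := claim k le_rfl
  rw [Nat.sub_self, hB0] at hT
  exact ⟨T, (hT 0 (by omega)).1, (hT 0 (by omega)).2, (hT 1 (by omega)).1, (hT 1 (by omega)).2⟩

end Pool.Agent.PWI
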