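import Pool.Agent.PWI.Auto
import Pool.Agent.PWI.Punc

/-!
# PWI module GEN: the subgroup outside handle 0 is generated by an orbit

Let `Y` be a subgroup of the surface group containing `a_1` and invariant under all mapping
classes `T` that fix `a_0, b_0` and preserve `Zc 0` (the subgroup generated by all other
generators).  Then `Zc 0 ≤ Y`.

Proof. Call such `T` admissible; `T` is admissible as soon as `T` fixes `a_0, b_0` and `T x ∈ Zc 0`,
`T⁻¹ x ∈ Zc 0` for each of the generators `x` of `Zc 0`.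
(1) `exB 1` is admissible: `a_1 b_1⁻¹ ∈ Y`, so `b_1 ∈ Y`.
(2) Induction on `i ≥ 1`, `i < g`: `a_i, b_i ∈ Y`.  For `i + 1 < g`, `exS i` is admissible
(`T a_(i+1) = a_i`, `T b_(i+1) = b_i`, `T a_i = d a_(i+1) d⁻¹`, ...; its inverse: `T⁻¹ a_i = a_(i+1)`,
`T⁻¹ b_i = b_(i+1)`, so `T⁻¹ d = d' := [a_(i+1), b_(i+1)]`, and `T⁻¹ a_(i+1) = d'⁻¹ a_i d'` from
`a_i = T⁻¹ (d a_(i+1) d⁻¹) = d' T⁻¹ (a_(i+1)) d'⁻¹`).  `T a_i = d a_(i+1) d⁻¹ ∈ Y` with
`d = [a_i, b_i] ∈ Y`, so `a_(i+1) ∈ Y`; the same for `b`.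
(3) `z_j ∈ Y` by strong induction on `j < n`: `T = exE j` (with `g - 1 ≥ 1`, so it fixes handle 0)
is admissible (`T⁻¹` sends `a_l ↦ a_l e`, `b_l ↦ e⁻¹ b_l e`, `z_j ↦ (w⁻¹ e⁻¹ w) z_j (w⁻¹ e w)`, because
`T e = e`: compute `T (b_l⁻¹ w z_j w⁻¹) = e b_l⁻¹ e⁻¹ · w (w⁻¹ e w z_j w⁻¹ e⁻¹ w) w⁻¹ = e · e · e⁻¹`,
where `T w = w`).  `T a_l = a_l e⁻¹ ∈ Y`, so `e = b_l⁻¹ w z_j w⁻¹ ∈ Y`, `w z_j w⁻¹ ∈ Y`, and `w ∈ Y` by
induction; so `z_j ∈ Y`.  For `j ≥ n`, `sz j = 1`; for `k ≥ g`, `sa k = sb k = 1`.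
-/

namespace Pool.Agent.PWI

variable {g n : ℕ}

theorem sa_mem_Zc {k i : ℕ} (h : k ≠ i) : (sa k : SG g n) ∈ Zc i :=
  Subgroup.subset_closure (Or.inl ⟨k, h, Or.inl rfl⟩)

theorem sb_mem_Zc {k i : ℕ} (h : k ≠ i) : (sb k : SG g n) ∈ Zc i :=
  Subgroup.subset_closure (Or.inl ⟨k, h, Or.inr rfl⟩)

theorem sz_mem_Zc (j i : ℕ) : (sz j : SG g n) ∈ Zc i :=
  Subgroup.subset_closure (Or.inr ⟨j, rfl⟩)

theorem Zc_le_comap {i : ℕ} {T : PMod g n}
    (h : ∀ k, k ≠ i → T.1 (sa k) ∈ Zc i ∧ T.1 (sb k) ∈ Zc i) (hz : ∀ j, T.1 (sz j) ∈ Zc i) :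
    ∀ x ∈ (Zc i : Subgroup (SG g n)), T.1 x ∈ Zc i := by
  intro x hx
  induction hx using Subgroup.closure_induction with
  | mem x hx =>
    rcases hx with ⟨k, hk, rfl | rfl⟩ | ⟨j, rfl⟩
    · exact (h k hk).1
    · exact (h k hk).2
    · exact hz j
  | one => rw [map_one]; exact Subgroup.one_mem _
  | mul x y _ _ hx hy => rw [map_mul]; exact Subgroup.mul_mem _ hx hy
  | inv x _ hx => rw [map_inv]; exact Subgroup.inv_mem _ hx

theorem adm {i : ℕ} {T : PMod g n}
    (h : ∀ k, k ≠ i → T.1 (sa k) ∈ Zc i ∧ T.1 (sb k) ∈ Zc i) (hz : ∀ j, T.1 (sz j) ∈ Zc i)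
    (h' : ∀ k, k ≠ i → (T⁻¹).1 (sa k) ∈ Zc i ∧ (T⁻¹).1 (sb k) ∈ Zc i)
    (hz' : ∀ j, (T⁻¹).1 (sz j) ∈ Zc i) :
    ∀ x, x ∈ (Zc i : Subgroup (SG g n)) ↔ T.1 x ∈ Zc i := by
  intro x
  constructor
  · exact Zc_le_comap h hz x
  · intro hx
    have := Zc_le_comap h' hz' _ hx
    have e : (T⁻¹).1 (T.1 x) = x := act_inv_eq rfl
    rwa [e] at this

theorem inv_apply_eq {T : PMod g n} {x y : SG g n} (h : T.1 x = y) : (T⁻¹).1 y = x :=
  act_inv_eq h

theorem genZ (hg : 2 ≤ g) (Y : Subgroup (SG g n)) (h1 : sa 1 ∈ Y)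
    (hinv : ∀ T : PMod g n, T.1 (sa 0) = sa 0 → T.1 (sb 0) = sb 0 →
      (∀ x, x ∈ Zc 0 ↔ T.1 x ∈ Zc 0) → ∀ x ∈ Y, T.1 x ∈ Y) :
    Zc 0 ≤ Y := by
  -- step 1
  have hb1 : sb 1 ∈ Y := by
    obtain ⟨T, hT1, hT2, hT3⟩ := exB (g := g) (n := n) 1
    have n01 : (0 : ℕ) ∉ ({1} : Set ℕ) := by simp
    have hTi := hT3.inv
    have hT1' : (T⁻¹).1 (sa 1) = sa 1 * sb 1 := inv_apply_eq (by
      rw [map_mul, hT1, hT2]; group)
    have hT2' : (T⁻¹).1 (sb 1) = sb 1 := inv_apply_eq hT2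
    have := hinv T (hT3.1 0 n01).1 (hT3.1 0 n01).2 (adm ?_ ?_ ?_ ?_) _ h1
    · rw [hT1] at this
      have h2 := Y.mul_mem (Y.inv_mem this) h1
      have e : (sa 1 * (sb 1)⁻¹)⁻¹ * sa 1 = (sb 1 : SG g n) := by group
      rwa [e] at h2
    · intro k hk
      by_cases hk1 : k = 1
      · subst hk1
        rw [hT1, hT2]
        exact ⟨Subgroup.mul_mem _ (sa_mem_Zc (by omega))
          (Subgroup.inv_mem _ (sb_mem_Zc (by omega))), sb_mem_Zc (by omega)⟩
      · have := hT3.1 k (by simp [hk1])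
        rw [this.1, this.2]
        exact ⟨sa_mem_Zc hk, sb_mem_Zc hk⟩
    · intro j
      rw [hT3.2]; exact sz_mem_Zc _ _
    · intro k hk
      by_cases hk1 : k = 1
      · subst hk1
        rw [hT1', hT2']
        exact ⟨Subgroup.mul_mem _ (sa_mem_Zc (by omega)) (sb_mem_Zc (by omega)),
          sb_mem_Zc (by omega)⟩
      · have := hTi.1 k (by simp [hk1])
        rw [this.1, this.2]
        exact ⟨sa_mem_Zc hk, sb_mem_Zc hk⟩
    · intro j
      rw [hTi.2]; exact sz_mem_Zc _ _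
  -- step 2
  have hab : ∀ i, 1 ≤ i → i < g → sa i ∈ Y ∧ sb i ∈ Y := by
    intro i hi
    induction i, hi using Nat.le_induction with
    | base => intro _; exact ⟨h1, hb1⟩
    | succ i hi ih =>
      intro hig
      obtain ⟨ha, hb⟩ := ih (by omega)
      obtain ⟨T, hT1, hT2, hT3, hT4, hT5⟩ := exS (g := g) (n := n) i (by omega) _ rfl
      set d : SG g n := sa i * sb i * (sa i)⁻¹ * (sb i)⁻¹ with hd
      have hdY : d ∈ Y := Y.mul_mem (Y.mul_mem (Y.mul_mem ha hb) (Y.inv_mem ha)) (Y.inv_mem hb)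
      have n0 : (0 : ℕ) ∉ ({i, i + 1} : Set ℕ) := by
        simp only [Set.mem_insert_iff, Set.mem_singleton_iff]; omega
      have hTi := hT5.inv
      set d' : SG g n := sa (i + 1) * sb (i + 1) * (sa (i + 1))⁻¹ * (sb (i + 1))⁻¹ with hd'
      have hTd' : T.1 d' = d := by
        rw [hd', hd]; simp only [map_mul, map_inv, hT3, hT4]
      have i1 : (T⁻¹).1 (sa i) = sa (i + 1) := inv_apply_eq hT3
      have i2 : (T⁻¹).1 (sb i) = sb (i + 1) := inv_apply_eq hT4
      have i3 : (T⁻¹).1 (sa (i + 1)) = d'⁻¹ * sa i * d' := inv_apply_eq (by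
        simp only [map_mul, map_inv, hTd', hT1]; group)
      have i4 : (T⁻¹).1 (sb (i + 1)) = d'⁻¹ * sb i * d' := inv_apply_eq (by
        simp only [map_mul, map_inv, hTd', hT2]; group)
      have zi : (sa i : SG g n) ∈ Zc 0 := sa_mem_Zc (by omega)
      have zbi : (sb i : SG g n) ∈ Zc 0 := sb_mem_Zc (by omega)
      have zi1 : (sa (i + 1) : SG g n) ∈ Zc 0 := sa_mem_Zc (by omega)
      have zbi1 : (sb (i + 1) : SG g n) ∈ Zc 0 := sb_mem_Zc (by omega)
      have zd : d ∈ Zc 0 := Subgroup.mul_mem _ (Subgroup.mul_mem _ (Subgroup.mul_mem _ zi zbi)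
        (Subgroup.inv_mem _ zi)) (Subgroup.inv_mem _ zbi)
      have zd' : d' ∈ Zc 0 := Subgroup.mul_mem _ (Subgroup.mul_mem _ (Subgroup.mul_mem _ zi1 zbi1)
        (Subgroup.inv_mem _ zi1)) (Subgroup.inv_mem _ zbi1)
      have hadm : ∀ x, x ∈ (Zc 0 : Subgroup (SG g n)) ↔ T.1 x ∈ Zc 0 := by
        apply adm
        · intro k hk
          by_cases hk1 : k = i
          · subst hk1
            rw [hT1, hT2]
            exact ⟨Subgroup.mul_mem _ (Subgroup.mul_mem _ zd zi1) (Subgroup.inv_mem _ zd),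
              Subgroup.mul_mem _ (Subgroup.mul_mem _ zd zbi1) (Subgroup.inv_mem _ zd)⟩
          · by_cases hk2 : k = i + 1
            · subst hk2
              rw [hT3, hT4]
              exact ⟨zi, zbi⟩
            · have := hT5.1 k (by
                simp only [Set.mem_insert_iff, Set.mem_singleton_iff]; omega)
              rw [this.1, this.2]
              exact ⟨sa_mem_Zc hk, sb_mem_Zc hk⟩
        · intro j; rw [hT5.2]; exact sz_mem_Zc _ _
        · intro k hk
          by_cases hk1 : k = i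
          · subst hk1
            rw [i1, i2]
            exact ⟨zi1, zbi1⟩
          · by_cases hk2 : k = i + 1
            · subst hk2
              rw [i3, i4]
              exact ⟨Subgroup.mul_mem _ (Subgroup.mul_mem _ (Subgroup.inv_mem _ zd') zi) zd',
                Subgroup.mul_mem _ (Subgroup.mul_mem _ (Subgroup.inv_mem _ zd') zbi) zd'⟩
            · have := hTi.1 k (by
                simp only [Set.mem_insert_iff, Set.mem_singleton_iff]; omega)
              rw [this.1, this.2]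
              exact ⟨sa_mem_Zc hk, sb_mem_Zc hk⟩
        · intro j; rw [hTi.2]; exact sz_mem_Zc _ _
      have k1 := hinv T (hT5.1 0 n0).1 (hT5.1 0 n0).2 hadm _ ha
      have k2 := hinv T (hT5.1 0 n0).1 (hT5.1 0 n0).2 hadm _ hb
      rw [hT1] at k1
      rw [hT2] at k2
      have e1 : d⁻¹ * (d * sa (i + 1) * d⁻¹) * d = sa (i + 1) := by group
      have e2 : d⁻¹ * (d * sb (i + 1) * d⁻¹) * d = sb (i + 1) := by group
      refine ⟨?_, ?_⟩
      · rw [← e1]; exact Y.mul_mem (Y.mul_mem (Y.inv_mem hdY) k1) hdY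
      · rw [← e2]; exact Y.mul_mem (Y.mul_mem (Y.inv_mem hdY) k2) hdY
  -- step 3
  have hz : ∀ j, j < n → sz j ∈ Y := by
    intro j
    induction j using Nat.strong_induction_on with
    | _ j ih =>
      intro hj
      obtain ⟨T, hT1, hT2, hT3, hT4, hT5⟩ := exE (g := g) (n := n) (by omega) j hj _ _ rfl rfl
      set w : SG g n := ((List.range j).map (fun k => (sz k : SG g n))).prod with hw
      set e : SG g n := (sb (g - 1))⁻¹ * (w * sz j * w⁻¹) with he
      have hwY : w ∈ Y := by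
        rw [hw]
        apply Subgroup.list_prod_mem
        intro x hx
        rw [List.mem_map] at hx
        obtain ⟨k, hk, rfl⟩ := hx
        have := List.mem_range.1 hk
        exact ih k this (by omega)
      have hwZ : w ∈ (Zc 0 : Subgroup (SG g n)) := by
        rw [hw]
        apply Subgroup.list_prod_mem
        intro x hx
        rw [List.mem_map] at hx
        obtain ⟨k, hk, rfl⟩ := hx
        exact sz_mem_Zc _ _
      have hTw : T.1 w = w := by
        rw [hw, map_list_prod, List.map_map]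
        congr 1
        apply List.map_congr_left
        intro k hk
        have := List.mem_range.1 hk
        exact hT4 k (by omega)
      have hTe : T.1 e = e := by
        rw [he]
        simp only [map_mul, map_inv, hTw, hT2, hT5]
        rw [he]; group
      have la : (sa (g - 1) : SG g n) ∈ Zc 0 := sa_mem_Zc (by omega)
      have lb : (sb (g - 1) : SG g n) ∈ Zc 0 := sb_mem_Zc (by omega)
      have lz : (sz j : SG g n) ∈ Zc 0 := sz_mem_Zc _ _
      have le : e ∈ (Zc 0 : Subgroup (SG g n)) :=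
        Subgroup.mul_mem _ (Subgroup.inv_mem _ lb)
          (Subgroup.mul_mem _ (Subgroup.mul_mem _ hwZ lz) (Subgroup.inv_mem _ hwZ))
      have i1 : (T⁻¹).1 (sa (g - 1)) = sa (g - 1) * e := inv_apply_eq (by
        rw [map_mul, hT1, hTe]; group)
      have i2 : (T⁻¹).1 (sb (g - 1)) = e⁻¹ * sb (g - 1) * e := inv_apply_eq (by
        simp only [map_mul, map_inv, hT2, hTe]; group)
      have i3 : (T⁻¹).1 (sz j) = (w⁻¹ * e * w)⁻¹ * sz j * (w⁻¹ * e * w) := inv_apply_eq (by
        simp only [map_mul, map_inv, hT5, hTe, hTw]; group)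
      have lc : w⁻¹ * e * w ∈ (Zc 0 : Subgroup (SG g n)) :=
        Subgroup.mul_mem _ (Subgroup.mul_mem _ (Subgroup.inv_mem _ hwZ) le) hwZ
      have hadm : ∀ x, x ∈ (Zc 0 : Subgroup (SG g n)) ↔ T.1 x ∈ Zc 0 := by
        apply adm
        · intro k hk
          by_cases hk1 : k = g - 1
          · subst hk1
            rw [hT1, hT2]
            exact ⟨Subgroup.mul_mem _ la (Subgroup.inv_mem _ le),
              Subgroup.mul_mem _ (Subgroup.mul_mem _ le lb) (Subgroup.inv_mem _ le)⟩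
          · rw [(hT3 k hk1).1, (hT3 k hk1).2]
            exact ⟨sa_mem_Zc hk, sb_mem_Zc hk⟩
        · intro k
          by_cases hk : k = j
          · subst hk
            rw [hT5]
            exact Subgroup.mul_mem _ (Subgroup.mul_mem _ lc lz) (Subgroup.inv_mem _ lc)
          · rw [hT4 k hk]; exact sz_mem_Zc _ _
        · intro k hk
          by_cases hk1 : k = g - 1
          · subst hk1
            rw [i1, i2]
            exact ⟨Subgroup.mul_mem _ la le,
              Subgroup.mul_mem _ (Subgroup.mul_mem _ (Subgroup.inv_mem _ le) lb) le⟩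
          · rw [inv_apply_eq (hT3 k hk1).1, inv_apply_eq (hT3 k hk1).2]
            exact ⟨sa_mem_Zc hk, sb_mem_Zc hk⟩
        · intro k
          by_cases hk : k = j
          · subst hk
            rw [i3]
            exact Subgroup.mul_mem _ (Subgroup.mul_mem _ (Subgroup.inv_mem _ lc) lz) lc
          · rw [inv_apply_eq (hT4 k hk)]; exact sz_mem_Zc _ _
      have hl := hab (g - 1) (by omega) (by omega)
      have k1 := hinv T (hT3 0 (by omega)).1 (hT3 0 (by omega)).2 hadm _ hl.1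
      rw [hT1] at k1
      have heY : e ∈ Y := by
        have e1 : (sa (g - 1) * e⁻¹)⁻¹ * sa (g - 1) = e := by group
        rw [← e1]; exact Y.mul_mem (Y.inv_mem k1) hl.1
      have e2 : w⁻¹ * (sb (g - 1) * e) * w = sz j := by rw [he]; group
      rw [← e2]
      exact Y.mul_mem (Y.mul_mem (Y.inv_mem hwY) (Y.mul_mem hl.2 heY)) hwY
  -- conclusion
  rw [Zc, Subgroup.closure_le]
  rintro x (⟨k, hk, hx⟩ | ⟨j, rfl⟩)
  · by_cases hkg : k < g
    · have := hab k (by omega) hkg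
      rcases hx with rfl | rfl
      · exact this.1
      · exact this.2
    · rcases hx with rfl | rfl
      · rw [sa_big (by omega)]; exact Y.one_mem
      · rw [sb_big (by omega)]; exact Y.one_mem
  · by_cases hj : j < n
    · exact hz j hj
    · show sz j ∈ Y
      rw [sz_big (by omega)]; exact Y.one_mem

end Pool.Agent.PWI
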