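import Pool.Agent.PWI.LemL
import Pool.Agent.PWI.GenZ

/-!
# PWI module CASE2: a nontrivial value common to both handles

`M` normal, containing handles 0 and 1, `ζ ≠ 1` a value of `χ` on `Hd 0` and on `Hd 1`.  Then `u`
is principal.

Proof. By `hand_principal` for handle 1 and `CH.sub` we may assume `u = 0` on `Hd 1` (replace `u` by
`u - (χ - 1) v`; the conclusion for the new `u` gives it for the old one).
`lemL` gives: `u = 0` on `Hd 0` and on `M ∩ Zc 0`.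
Swap of the handles: `S` from `exS 0` (`S a_0 = d a_1 d⁻¹`, `S b_0 = d b_1 d⁻¹`, `S a_1 = a_0`,
`S b_1 = b_0`, others fixed, `d = [a_0, b_0] ∈ M`).  Apply `lemL` to `M' = M.comap S`,
`χ' = χ ∘ S`, `u' = u ∘ S` (`CH.comap`): `M'` is normal, contains the four generators;
`χ' (Hd 1) = χ (Hd 0) ∋ ζ`; `χ' (Hd 0) = χ (d (Hd 1) d⁻¹) = χ (Hd 1) ∋ ζ` (`CH.chi_conj`);
`u' = 0` on `Hd 1` because `u = 0` on `Hd 0`.  Conclusion: `u' = 0` on `M' ∩ Zc 0`, i.e. `u x = 0` for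
`x ∈ M` with `S⁻¹ x ∈ Zc 0`.  For `x ∈ Zc 1`: `S⁻¹ x ∈ Zc 0`, since `S⁻¹ a_0 = a_1`, `S⁻¹ b_0 = b_1`,
`S⁻¹` fixes `a_k, b_k (k ≥ 2)`, `z_j`.  So `u = 0` on `M ∩ Zc 1`.
Let `L` be the closure of `(M ∩ Zc 0) ∪ (M ∩ Zc 1)`; `u = 0` on `L` (`CH.closure_le`, `v = 0`).
`Zd ≤ Zc 0, Zc 1`, and `Zd` normalises `L` (`M` normal).  `L` contains `a_1, b_1 ∈ M ∩ Zc 0` and
`a_0, b_0 ∈ M ∩ Zc 1`.  So every element of the group is `l z`, `l ∈ L`, `z ∈ Zd` (closure
induction over `closure_gens`).  For `x ∈ M`: `z = l⁻¹ x ∈ M ∩ Zd ≤ L`, so `x ∈ L` and `u x = 0`.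
-/

namespace Pool.Agent.PWI

variable {g n : ℕ}

theorem case2_zd_le (i : ℕ) (hi : i < 2) : (Zd : Subgroup (SG g n)) ≤ Zc i := by
  refine Subgroup.closure_mono ?_
  rintro x (⟨k, hk, hx⟩ | hx)
  · exact Or.inl ⟨k, by omega, hx⟩
  · exact Or.inr hx

/-- `u` vanishes on `M ∩ Zc 1`, by symmetry of the handles. -/
theorem case2_zc1 (hg : 2 ≤ g) (M : Subgroup (SG g n)) [hM : M.Normal] (ha0 : sa 0 ∈ M)
    (hb0 : sb 0 ∈ M) (ha1 : sa 1 ∈ M) (hb1 : sb 1 ∈ M) (χ u : SG g n → ℂ) (h : CH M χ u)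
    (ζ : ℂ) (hζ : ζ ≠ 1) (h0 : ∃ y ∈ Hd 0, χ y = ζ) (h1 : ∃ y ∈ Hd 1, χ y = ζ)
    (hu : ∀ x ∈ Hd 0, u x = 0) : ∀ x ∈ M, x ∈ Zc 1 → u x = 0 := by
  obtain ⟨S, s1, s2, s3, s4, s5⟩ := exS (g := g) (n := n) 0 (by omega) _ rfl
  rw [zero_add] at s1 s2 s3 s4 s5
  set d : SG g n := sa 0 * sb 0 * (sa 0)⁻¹ * (sb 0)⁻¹ with hd
  have hdM : d ∈ M := M.mul_mem (M.mul_mem (M.mul_mem ha0 hb0) (M.inv_mem ha0)) (M.inv_mem hb0)
  have hH1 : (Hd 1 : Subgroup (SG g n)) ≤ M := lemL_hd_le ha1 hb1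
  have hN : (M.comap (S.1 : SG g n →* SG g n)).Normal := inferInstance
  have a0 : (sa 0 : SG g n) ∈ M.comap (S.1 : SG g n →* SG g n) := by
    show S.1 (sa 0) ∈ M
    rw [s1]
    exact hM.conj_mem _ ha1 d
  have b0 : (sb 0 : SG g n) ∈ M.comap (S.1 : SG g n →* SG g n) := by
    show S.1 (sb 0) ∈ M
    rw [s2]
    exact hM.conj_mem _ hb1 d
  have a1 : (sa 1 : SG g n) ∈ M.comap (S.1 : SG g n →* SG g n) := by
    show S.1 (sa 1) ∈ M
    rw [s3]
    exact ha0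
  have b1 : (sb 1 : SG g n) ∈ M.comap (S.1 : SG g n →* SG g n) := by
    show S.1 (sb 1) ∈ M
    rw [s4]
    exact hb0
  -- handle 0 is the image of handle 1
  have hm1 : ∀ x ∈ (Hd 0 : Subgroup (SG g n)), ∃ y ∈ (Hd 1 : Subgroup (SG g n)), S.1 y = x := by
    intro x hx
    induction hx using Subgroup.closure_induction with
    | mem x hx =>
      rcases hx with rfl | rfl
      · exact ⟨sa 1, hand_sa_mem_hd 1, s3⟩
      · exact ⟨sb 1, hand_sb_mem_hd 1, s4⟩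
    | one => exact ⟨1, Subgroup.one_mem _, map_one _⟩
    | mul x y _ _ hx hy =>
      obtain ⟨x', hx', rfl⟩ := hx
      obtain ⟨y', hy', rfl⟩ := hy
      exact ⟨x' * y', Subgroup.mul_mem _ hx' hy', map_mul _ _ _⟩
    | inv x _ hx =>
      obtain ⟨x', hx', rfl⟩ := hx
      exact ⟨x'⁻¹, Subgroup.inv_mem _ hx', map_inv _ _⟩
  -- the conjugate of handle 1 by `d` is the image of handle 0
  have hm0 : ∀ x ∈ (Hd 1 : Subgroup (SG g n)), ∃ y ∈ (Hd 0 : Subgroup (SG g n)),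
      S.1 y = d * x * d⁻¹ := by
    intro x hx
    induction hx using Subgroup.closure_induction with
    | mem x hx =>
      rcases hx with rfl | rfl
      · exact ⟨sa 0, hand_sa_mem_hd 0, s1⟩
      · exact ⟨sb 0, hand_sb_mem_hd 0, s2⟩
    | one => exact ⟨1, Subgroup.one_mem _, by rw [map_one]; group⟩
    | mul x y _ _ hx hy =>
      obtain ⟨x', hx', hx2⟩ := hx
      obtain ⟨y', hy', hy2⟩ := hy
      refine ⟨x' * y', Subgroup.mul_mem _ hx' hy', ?_⟩
      rw [map_mul, hx2, hy2]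
      group
    | inv x _ hx =>
      obtain ⟨x', hx', hx2⟩ := hx
      refine ⟨x'⁻¹, Subgroup.inv_mem _ hx', ?_⟩
      rw [map_inv, hx2]
      group
  -- `Zc 1` is contained in the image of `Zc 0`
  have hmZ : ∀ x ∈ (Zc 1 : Subgroup (SG g n)), ∃ y ∈ (Zc 0 : Subgroup (SG g n)), S.1 y = x := by
    intro x hx
    induction hx using Subgroup.closure_induction with
    | mem x hx =>
      rcases hx with ⟨k, hk, hx⟩ | ⟨j, rfl⟩
      · by_cases hk0 : k = 0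
        · subst hk0
          rcases hx with rfl | rfl
          · exact ⟨sa 1, sa_mem_Zc one_ne_zero, s3⟩
          · exact ⟨sb 1, sb_mem_Zc one_ne_zero, s4⟩
        · have hf := s5.1 k (by
            simp only [Set.mem_insert_iff, Set.mem_singleton_iff]
            omega)
          rcases hx with rfl | rfl
          · exact ⟨sa k, sa_mem_Zc hk0, hf.1⟩
          · exact ⟨sb k, sb_mem_Zc hk0, hf.2⟩
      · exact ⟨sz j, sz_mem_Zc j 0, s5.2 j⟩
    | one => exact ⟨1, Subgroup.one_mem _, map_one _⟩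
    | mul x y _ _ hx hy =>
      obtain ⟨x', hx', rfl⟩ := hx
      obtain ⟨y', hy', rfl⟩ := hy
      exact ⟨x' * y', Subgroup.mul_mem _ hx' hy', map_mul _ _ _⟩
    | inv x _ hx =>
      obtain ⟨x', hx', rfl⟩ := hx
      exact ⟨x'⁻¹, Subgroup.inv_mem _ hx', map_inv _ _⟩
  -- the image of handle 1 is in handle 0
  have hm2 : ∀ x ∈ (Hd 1 : Subgroup (SG g n)), S.1 x ∈ (Hd 0 : Subgroup (SG g n)) := by
    intro x hx
    induction hx using Subgroup.closure_induction with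
    | mem x hx =>
      rcases hx with rfl | rfl
      · rw [s3]
        exact hand_sa_mem_hd 0
      · rw [s4]
        exact hand_sb_mem_hd 0
    | one => rw [map_one]; exact Subgroup.one_mem _
    | mul x y _ _ hx hy => rw [map_mul]; exact Subgroup.mul_mem _ hx hy
    | inv x _ hx => rw [map_inv]; exact Subgroup.inv_mem _ hx
  obtain ⟨y0, hy0, hy0'⟩ := h0
  obtain ⟨y1, hy1, hy1'⟩ := h1
  obtain ⟨x1, hx1, hx1'⟩ := hm1 y0 hy0
  obtain ⟨x0, hx0, hx0'⟩ := hm0 y1 hy1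
  have key := lemL hg (M.comap (S.1 : SG g n →* SG g n)) a0 b0 a1 b1 _ _ (h.comap S) ζ hζ
    ⟨x0, hx0, by
      show χ (S.1 x0) = ζ
      rw [hx0', h.chi_conj hdM (hH1 hy1), hy1']⟩
    ⟨x1, hx1, by
      show χ (S.1 x1) = ζ
      rw [hx1', hy0']⟩
    (fun x hx => hu _ (hm2 x hx))
  intro x hxM hxZ
  obtain ⟨y, hy, rfl⟩ := hmZ x hxZ
  exact key.2 y hxM hy

/-- If `u` vanishes on handle 1, then it vanishes. -/
theorem case2_zero (hg : 2 ≤ g) (M : Subgroup (SG g n)) [hM : M.Normal] (ha0 : sa 0 ∈ M)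
    (hb0 : sb 0 ∈ M) (ha1 : sa 1 ∈ M) (hb1 : sb 1 ∈ M) (χ u : SG g n → ℂ) (h : CH M χ u)
    (ζ : ℂ) (hζ : ζ ≠ 1) (h0 : ∃ y ∈ Hd 0, χ y = ζ) (h1 : ∃ y ∈ Hd 1, χ y = ζ)
    (hu : ∀ x ∈ Hd 1, u x = 0) : ∀ x ∈ M, u x = 0 := by
  obtain ⟨k0, kZ0⟩ := lemL hg M ha0 hb0 ha1 hb1 χ u h ζ hζ h0 h1 hu
  have kZ1 := case2_zc1 hg M ha0 hb0 ha1 hb1 χ u h ζ hζ h0 h1 k0
  set s : Set (SG g n) := {x | x ∈ M ∧ (x ∈ Zc 0 ∨ x ∈ Zc 1)} with hs
  have hL : ∀ x ∈ Subgroup.closure s, x ∈ M ∧ u x = 0 := by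
    intro x hx
    have h2 := h.closure_le 0 (s := s) (fun y hy => ⟨hy.1, by
      rw [mul_zero]
      rcases hy.2 with h3 | h3
      · exact kZ0 y hy.1 h3
      · exact kZ1 y hy.1 h3⟩) x hx
    exact ⟨h2.1, by rw [h2.2, mul_zero]⟩
  have hconj : ∀ z ∈ (Zd : Subgroup (SG g n)), ∀ l ∈ Subgroup.closure s,
      z * l * z⁻¹ ∈ Subgroup.closure s := by
    intro z hz l hl
    induction hl using Subgroup.closure_induction with
    | mem x hx =>
      refine Subgroup.subset_closure ⟨hM.conj_mem _ hx.1 z, ?_⟩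
      rcases hx.2 with h3 | h3
      · have hz0 := case2_zd_le 0 (by omega) hz
        exact Or.inl ((Zc 0).mul_mem ((Zc 0).mul_mem hz0 h3) ((Zc 0).inv_mem hz0))
      · have hz1 := case2_zd_le 1 (by omega) hz
        exact Or.inr ((Zc 1).mul_mem ((Zc 1).mul_mem hz1 h3) ((Zc 1).inv_mem hz1))
    | one =>
      have e : z * 1 * z⁻¹ = 1 := by group
      rw [e]
      exact Subgroup.one_mem _
    | mul x y _ _ hx hy =>
      have e : z * (x * y) * z⁻¹ = (z * x * z⁻¹) * (z * y * z⁻¹) := by group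
      rw [e]
      exact Subgroup.mul_mem _ hx hy
    | inv x _ hx =>
      have e : z * x⁻¹ * z⁻¹ = (z * x * z⁻¹)⁻¹ := by group
      rw [e]
      exact Subgroup.inv_mem _ hx
  have hall : ∀ x : SG g n, ∃ l ∈ Subgroup.closure s, ∃ z ∈ (Zd : Subgroup (SG g n)),
      x = l * z := by
    intro x
    have hx : x ∈ (Subgroup.closure ({x | ∃ k, x = sa k ∨ x = sb k} ∪ Set.range sz) :
        Subgroup (SG g n)) := by
      rw [closure_gens]
      exact Subgroup.mem_top x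
    induction hx using Subgroup.closure_induction with
    | mem x hx =>
      rcases hx with ⟨k, hx⟩ | hx
      · by_cases hk0 : k = 0
        · subst hk0
          refine ⟨x, Subgroup.subset_closure ⟨?_, Or.inr ?_⟩, 1, Subgroup.one_mem _,
            (mul_one x).symm⟩
          · rcases hx with rfl | rfl
            · exact ha0
            · exact hb0
          · rcases hx with rfl | rfl
            · exact sa_mem_Zc zero_ne_one
            · exact sb_mem_Zc zero_ne_one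
        · by_cases hk1 : k = 1
          · subst hk1
            refine ⟨x, Subgroup.subset_closure ⟨?_, Or.inl ?_⟩, 1, Subgroup.one_mem _,
              (mul_one x).symm⟩
            · rcases hx with rfl | rfl
              · exact ha1
              · exact hb1
            · rcases hx with rfl | rfl
              · exact sa_mem_Zc one_ne_zero
              · exact sb_mem_Zc one_ne_zero
          · exact ⟨1, Subgroup.one_mem _, x, Subgroup.subset_closure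
              (Or.inl ⟨k, by omega, hx⟩), (one_mul x).symm⟩
      · exact ⟨1, Subgroup.one_mem _, x, Subgroup.subset_closure (Or.inr hx), (one_mul x).symm⟩
    | one => exact ⟨1, Subgroup.one_mem _, 1, Subgroup.one_mem _, (one_mul 1).symm⟩
    | mul x y _ _ hx hy =>
      obtain ⟨l, hl, z, hz, rfl⟩ := hx
      obtain ⟨l', hl', z', hz', rfl⟩ := hy
      refine ⟨l * (z * l' * z⁻¹), Subgroup.mul_mem _ hl (hconj z hz l' hl'), z * z',
        Subgroup.mul_mem _ hz hz', ?_⟩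
      group
    | inv x _ hx =>
      obtain ⟨l, hl, z, hz, rfl⟩ := hx
      refine ⟨z⁻¹ * l⁻¹ * z⁻¹⁻¹, hconj z⁻¹ (Subgroup.inv_mem _ hz) l⁻¹ (Subgroup.inv_mem _ hl),
        z⁻¹, Subgroup.inv_mem _ hz, ?_⟩
      group
  intro x hx
  obtain ⟨l, hl, z, hz, rfl⟩ := hall x
  obtain ⟨l1, l2⟩ := hL l hl
  have hzM : z ∈ M := (M.mul_mem_cancel_left l1).1 hx
  rw [h.cro l l1 z hzM, l2, kZ0 z hzM (case2_zd_le 0 (by omega) hz), mul_zero, add_zero]

theorem case2 (hg : 2 ≤ g) (M : Subgroup (SG g n)) [M.Normal] (ha0 : sa 0 ∈ M) (hb0 : sb 0 ∈ M)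
    (ha1 : sa 1 ∈ M) (hb1 : sb 1 ∈ M) (χ u : SG g n → ℂ) (h : CH M χ u) (ζ : ℂ) (hζ : ζ ≠ 1)
    (h0 : ∃ y ∈ Hd 0, χ y = ζ) (h1 : ∃ y ∈ Hd 1, χ y = ζ) : Pr M χ u := by
  obtain ⟨v, hv⟩ := hand_principal hg 1 (Or.inr rfl) M ha1 hb1 χ u h
  refine ⟨v, fun x hx => ?_⟩
  have key := case2_zero hg M ha0 hb0 ha1 hb1 χ _ (h.sub v) ζ hζ h0 h1
    (fun y hy => by
      show u y - (χ y - 1) * v = 0
      rw [hv y hy, sub_self]) x hx
  exact sub_eq_zero.1 key

end Pool.Agent.PWI
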