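import Pool.Agent.PWI.Case1
import Pool.Agent.PWI.Case2

/-!
# PWI module THMC: crossed homomorphisms killing simple closed curves are principal

Proof. If `χ (z a_0 z⁻¹) = χ (z b_0 z⁻¹) = 1` for all `z`, this is `case1`.  Otherwise fix `z` with
one of them `≠ 1`.  Replace `(χ, u)` by `(χ^z, u^z)` (`CH.conj`): if
`u (z x z⁻¹) = (χ (z x z⁻¹) - 1) v` for all `x ∈ M` then `u x = (χ x - 1) v` for all `x ∈ M`.  So we may
assume `χ a_0 ≠ 1` or `χ b_0 ≠ 1`.
If `χ b_0 = 1` replace `(M, χ, u)` by its pullback under `A` from `exA 0` (`CH.comap`;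
`M.comap A` is normal and contains the four generators): `χ (A b_0) = χ (b_0 a_0) = χ a_0 ≠ 1`.
(Principality pulls back and pushes forward: `Pr (M.comap T) (χ ∘ T) (u ∘ T) → Pr M χ u` because
`T` is bijective.)  So we may assume `t := χ b_0 ≠ 1`.
By `hand_value` (handle 1, `y = 1`) there is `T₁` supported on handle 1 with `χ (T₁ b_1) = 1`; let
`s = χ (T₁ a_1)`; `χ (Hd 1)` is the set of powers of `s` (`Hd 1 = closure {T₁ a_1, T₁ b_1}`); let
`q > 0` be the order of `s` (finite by `tor`), so `x ^ q = 1` for all values `x` of `χ` on `Hd 1`.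
If `t ^ q = 1`, then `t` is a power of `s` (`IsPrimitiveRoot.eq_pow_of_pow_eq_one` for the
primitive root `s` of order `q`), so `t` is a value on both handles: `case2` with `ζ = t`.
If `t ^ q ≠ 1`: pull back by `C` from `exC 0`; the new character `χ' = χ ∘ C` has
`χ' b_0 = χ (c b_0 c⁻¹) = t`, and `χ' a_1 = χ (c a_1) = t⁻¹ χ(b_1) χ(a_1)` (`c = b_0⁻¹ a_1 b_1 a_1⁻¹`),
whose `q`-th power is `t ^ (-q) ≠ 1`, and it is a value on handle 1; also `t ^ (-q) = χ' (b_0 ^ (-q))`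
is a value on handle 0.  `case2` with `ζ = t ^ (-q)` applied to the pullback.
(`C` maps the four generators into `M`, so `M.comap C` contains them.)
-/

namespace Pool.Agent.PWI

variable {g n : ℕ}

private theorem thmC_pow {M : Subgroup (SG g n)} {χ u : SG g n → ℂ} (h : CH M χ u)
    {x : SG g n} (hx : x ∈ M) (k : ℕ) : χ (x ^ k) = χ x ^ k := by
  induction k with
  | zero => rw [pow_zero, pow_zero, h.one]
  | succ k ih => rw [pow_succ, pow_succ, h.mul _ (M.pow_mem hx k) _ hx, ih]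

private theorem thmC_back {M : Subgroup (SG g n)} {χ u : SG g n → ℂ} (T : PMod g n)
    (h : Pr (M.comap (T.1 : SG g n →* SG g n)) (fun x => χ (T.1 x)) (fun x => u (T.1 x))) :
    Pr M χ u := by
  obtain ⟨v, hv⟩ := h
  refine ⟨v, fun x hx => ?_⟩
  obtain ⟨y, rfl⟩ := T.1.surjective x
  exact hv y hx

private theorem thmC_sa_mem (i : ℕ) : (sa i : SG g n) ∈ (Hd i : Subgroup (SG g n)) :=
  Subgroup.subset_closure (Or.inl rfl)

private theorem thmC_sb_mem (i : ℕ) : (sb i : SG g n) ∈ (Hd i : Subgroup (SG g n)) :=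
  Subgroup.subset_closure (Or.inr rfl)

private theorem thmC_core (hg : 2 ≤ g) (M : Subgroup (SG g n)) [M.Normal] (ha0 : sa 0 ∈ M)
    (hb0 : sb 0 ∈ M) (ha1 : sa 1 ∈ M) (hb1 : sb 1 ∈ M) (χ u : SG g n → ℂ) (h : CH M χ u)
    (ht : χ (sb 0) ≠ 1) : Pr M χ u := by
  have hHd : (Hd 1 : Subgroup (SG g n)) ≤ M := by
    unfold Hd
    rw [Subgroup.closure_le]
    rintro x (rfl | rfl)
    · exact ha1
    · exact hb1
  obtain ⟨T, hT, hTb⟩ := hand_value hg 1 (Or.inr rfl) M ha1 hb1 χ u h 1 (Subgroup.one_mem _)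
  rw [h.one] at hTb
  obtain ⟨s, hs⟩ : ∃ s : ℂ, s = χ (T.1 (sa 1)) := ⟨_, rfl⟩
  have hTa : T.1 (sa 1) ∈ (Hd 1 : Subgroup (SG g n)) := (hT.2 _).1 (thmC_sa_mem 1)
  have hTM : ∀ x ∈ (Hd 1 : Subgroup (SG g n)), T.1 x ∈ M := fun x hx => hHd ((hT.2 x).1 hx)
  -- the order of `s`
  obtain ⟨N, hN0, hN⟩ := h.tor
  have hsN : s ^ N = 1 := by
    rw [hs]
    exact hN _ (hHd hTa)
  have hfin : IsOfFinOrder s := isOfFinOrder_iff_pow_eq_one.2 ⟨N, hN0, hsN⟩
  obtain ⟨q, hq⟩ : ∃ q : ℕ, q = orderOf s := ⟨_, rfl⟩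
  have hq0 : 0 < q := by
    rw [hq]
    exact hfin.orderOf_pos
  have hsq : s ^ q = 1 := by
    rw [hq]
    exact pow_orderOf_eq_one s
  -- values on the handle
  have hval : ∀ x ∈ (Hd 1 : Subgroup (SG g n)), χ (T.1 x) ^ q = 1 := by
    intro x hx
    have hx' : x ∈ Subgroup.closure {(sa 1 : SG g n), sb 1} := hx
    clear hx
    induction hx' using Subgroup.closure_induction with
    | mem x hx =>
      rcases hx with rfl | rfl
      · rw [← hs]
        exact hsq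
      · rw [hTb, one_pow]
    | one =>
      rw [map_one, h.one, one_pow]
    | mul x y hx hy ihx ihy =>
      rw [map_mul, h.mul _ (hTM x hx) _ (hTM y hy), mul_pow, ihx, ihy, one_mul]
    | inv x hx ihx =>
      rw [map_inv, h.inv (hTM x hx), inv_pow, ihx, inv_one]
  have hval' : ∀ y ∈ (Hd 1 : Subgroup (SG g n)), χ y ^ q = 1 := by
    intro y hy
    obtain ⟨x, rfl⟩ := T.1.surjective y
    exact hval x ((hT.2 x).2 hy)
  by_cases htq : χ (sb 0) ^ q = 1
  · -- `t` is a value on both handles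
    have hprim : IsPrimitiveRoot s q := by
      rw [hq]
      exact IsPrimitiveRoot.orderOf s
    have : NeZero q := ⟨hq0.ne'⟩
    obtain ⟨k, -, hk⟩ := hprim.eq_pow_of_pow_eq_one htq
    refine case2 hg M ha0 hb0 ha1 hb1 χ u h (χ (sb 0)) ht ⟨_, thmC_sb_mem 0, rfl⟩
      ⟨T.1 (sa 1) ^ k, Subgroup.pow_mem _ hTa k, ?_⟩
    rw [thmC_pow h (hHd hTa), ← hs, hk]
  · -- pull back by `C`
    obtain ⟨c, hc⟩ : ∃ c : SG g n, c = (sb 0)⁻¹ * sa (0 + 1) * sb (0 + 1) * (sa (0 + 1))⁻¹ :=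
      ⟨_, rfl⟩
    obtain ⟨C, hC1, hC2, hC3, hC4, -⟩ := exC 0 (by omega) c hc
    rw [zero_add] at hC3 hC4
    rw [zero_add] at hc
    have hcM : c ∈ M := by
      rw [hc]
      exact M.mul_mem (M.mul_mem (M.mul_mem (M.inv_mem hb0) ha1) hb1) (M.inv_mem ha1)
    have h' := h.comap C
    have ha0' : (sa 0 : SG g n) ∈ M.comap (C.1 : SG g n →* SG g n) := by
      change C.1 (sa 0) ∈ M
      rw [hC1]
      exact M.mul_mem ha0 (M.inv_mem hcM)
    have hb0' : (sb 0 : SG g n) ∈ M.comap (C.1 : SG g n →* SG g n) := by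
      change C.1 (sb 0) ∈ M
      rw [hC2]
      exact M.mul_mem (M.mul_mem hcM hb0) (M.inv_mem hcM)
    have ha1' : (sa 1 : SG g n) ∈ M.comap (C.1 : SG g n →* SG g n) := by
      change C.1 (sa 1) ∈ M
      rw [hC3]
      exact M.mul_mem hcM ha1
    have hb1' : (sb 1 : SG g n) ∈ M.comap (C.1 : SG g n →* SG g n) := by
      change C.1 (sb 1) ∈ M
      rw [hC4]
      exact hb1
    have v0 : χ (C.1 (sb 0)) = χ (sb 0) := by
      rw [hC2]
      exact h.chi_conj hcM hb0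
    have v1 : χ (C.1 (sa 1)) ^ q = (χ (sb 0) ^ q)⁻¹ := by
      have e1 : c * sa 1 = (sb 0)⁻¹ * (sa 1 * sb 1) := by
        rw [hc]
        group
      rw [hC3, e1, h.mul _ (M.inv_mem hb0) _ (M.mul_mem ha1 hb1), h.mul _ ha1 _ hb1, h.inv hb0,
        mul_pow, mul_pow, hval' _ (thmC_sa_mem 1), hval' _ (thmC_sb_mem 1), inv_pow, mul_one,
        mul_one]
    refine thmC_back C ?_
    refine case2 hg (M.comap (C.1 : SG g n →* SG g n)) ha0' hb0' ha1' hb1' _ _ h'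
      ((χ (sb 0) ^ q)⁻¹) ?_ ⟨((sb 0) ^ q)⁻¹, ?_, ?_⟩ ⟨(sa 1) ^ q, ?_, ?_⟩
    · intro h1
      rw [inv_eq_one] at h1
      exact htq h1
    · exact Subgroup.inv_mem _ (Subgroup.pow_mem _ (thmC_sb_mem 0) q)
    · have e1 := h'.inv (Subgroup.pow_mem _ hb0' q)
      have e2 := thmC_pow h' hb0' q
      rw [e1, e2]
      simp only [v0]
    · exact Subgroup.pow_mem _ (thmC_sa_mem 1) q
    · have e2 := thmC_pow h' ha1' q
      rw [e2]
      exact v1

private theorem thmC_core2 (hg : 2 ≤ g) (M : Subgroup (SG g n)) [M.Normal] (ha0 : sa 0 ∈ M)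
    (hb0 : sb 0 ∈ M) (ha1 : sa 1 ∈ M) (hb1 : sb 1 ∈ M) (χ u : SG g n → ℂ) (h : CH M χ u)
    (ht : ¬ (χ (sa 0) = 1 ∧ χ (sb 0) = 1)) : Pr M χ u := by
  by_cases hb : χ (sb 0) = 1
  · have ha : χ (sa 0) ≠ 1 := fun ha => ht ⟨ha, hb⟩
    obtain ⟨A, hA1, hA2, hA3⟩ := exA (g := g) (n := n) 0
    have hA4 := hA3.1 1 (by simp)
    refine thmC_back A ?_
    refine thmC_core hg (M.comap (A.1 : SG g n →* SG g n)) ?_ ?_ ?_ ?_ _ _ (h.comap A) ?_
    · change A.1 (sa 0) ∈ M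
      rw [hA1]
      exact ha0
    · change A.1 (sb 0) ∈ M
      rw [hA2]
      exact M.mul_mem hb0 ha0
    · change A.1 (sa 1) ∈ M
      rw [hA4.1]
      exact ha1
    · change A.1 (sb 1) ∈ M
      rw [hA4.2]
      exact hb1
    · rw [hA2, h.mul _ hb0 _ ha0, hb, one_mul]
      exact ha
  · exact thmC_core hg M ha0 hb0 ha1 hb1 χ u h hb

theorem thmC (hg : 2 ≤ g) (M : Subgroup (SG g n)) [M.Normal] (ha0 : sa 0 ∈ M) (hb0 : sb 0 ∈ M)
    (ha1 : sa 1 ∈ M) (hb1 : sb 1 ∈ M) (χ u : SG g n → ℂ) (h : CH M χ u) : Pr M χ u := by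
  by_cases hall : ∀ z, χ (z * sa 0 * z⁻¹) = 1 ∧ χ (z * sb 0 * z⁻¹) = 1
  · exact case1 hg M ha0 hb0 χ u h hall
  · push Not at hall
    obtain ⟨z, hz⟩ := hall
    obtain ⟨v, hv⟩ := thmC_core2 hg M ha0 hb0 ha1 hb1 _ _ (h.conj z) (by
      rintro ⟨h1, h2⟩
      exact hz h1 h2)
    refine ⟨v, fun x hx => ?_⟩
    have h1 : z⁻¹ * x * z ∈ M := by
      have := Subgroup.Normal.conj_mem (H := M) inferInstance x hx z⁻¹
      rwa [inv_inv] at this
    have h2 := hv _ h1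
    have e : z * (z⁻¹ * x * z) * z⁻¹ = x := by group
    simp only [e] at h2
    exact h2

end Pool.Agent.PWI
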