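import Pool.Agent.PWI.Four
import Pool.Agent.PWI.Cost
import Pool.Agent.PWI.ThmC
import Pool.Agent.PWI.Sv

/-!
# PWI: assembly
-/

namespace Pool.Agent.PWI

variable {g n : ℕ}

theorem pow_eq_one_int {x : Multiplicative ℤ} {N : ℕ} (hN : N ≠ 0) (h : x ^ N = 1) : x = 1 := by
  have h2 : Multiplicative.toAdd (x ^ N) = 0 := by rw [h]; rfl
  rw [toAdd_pow] at h2
  have h3 : (N : ℤ) * Multiplicative.toAdd x = 0 := by simpa [nsmul_eq_mul] using h2
  have h4 : Multiplicative.toAdd x = 0 := by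
    rcases mul_eq_zero.1 h3 with h | h
    · exact absurd (by exact_mod_cast h) hN
    · exact h
  exact Multiplicative.toAdd.injective h4

/-- The value of `f` on a push, as a complex number. -/
noncomputable def val (H : Subgroup (PMod g n)) (f : H →* Multiplicative ℤ) (x : SG g n) : ℂ := by
  classical
  exact if h : push x ∈ H then ((Multiplicative.toAdd (f ⟨push x, h⟩) : ℤ) : ℂ) else 0

theorem val_eq (H : Subgroup (PMod g n)) (f : H →* Multiplicative ℤ) (x : SG g n)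
    (h : push x ∈ H) : val H f x = ((Multiplicative.toAdd (f ⟨push x, h⟩) : ℤ) : ℂ) := by
  simp only [val, dif_pos h]

theorem final_aux (hg : 3 ≤ g) (H : Subgroup (PMod g n)) [H.FiniteIndex]
    (f : H →* Multiplicative ℤ) (M : Subgroup (SG g n)) [hMn : M.Normal] (T : PMod g n)
    (ha0 : T.1 (sa 0) ∈ M) (hb0 : T.1 (sb 0) ∈ M) (ha1 : T.1 (sa 1) ∈ M) (hb1 : T.1 (sb 1) ∈ M)
    (hH : ∀ x ∈ M, ∀ y ∈ M, push (x * y * x⁻¹ * y⁻¹) ∈ H) (x : SG g n) (hxM : x ∈ M)
    (hx : push x ∈ H) : f ⟨push x, hx⟩ = 1 := by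
  classical
  let t : SG g n →* SG g n := (T.1 : SG g n →* SG g n)
  let M' : Subgroup (SG g n) := M.comap t
  have hM'n : M'.Normal := hMn.comap t
  let K' : Subgroup (SG g n) := M' ⊓ H.comap (push.comp t)
  have hK'M' : K' ≤ M' := inf_le_left
  have hmem : ∀ y, y ∈ K' ↔ y ∈ M' ∧ push (T.1 y) ∈ H := fun y => Iff.rfl
  have key : ∀ y ∈ K', val H f (T.1 y) = 0 := by
    refine four M' K' hK'M' ?_ ?_ (fun y => val H f (T.1 y)) ?_ {y | IsS y} ?_ ?_ ?_
    · intro y hy z hz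
      refine ⟨M'.mul_mem (M'.mul_mem (M'.mul_mem hy hz) (M'.inv_mem hy)) (M'.inv_mem hz), ?_⟩
      show push (T.1 (y * z * y⁻¹ * z⁻¹)) ∈ H
      have : T.1 (y * z * y⁻¹ * z⁻¹) = T.1 y * T.1 z * (T.1 y)⁻¹ * (T.1 z)⁻¹ := by simp
      rw [this]
      exact hH _ hy _ hz
    · have h1 : (H.comap (push.comp t)).FiniteIndex :=
        ⟨by rw [Subgroup.index_comap]; exact Subgroup.FiniteIndex.index_ne_zero⟩
      have h2 : K'.subgroupOf M' = (H.comap (push.comp t)).subgroupOf M' := by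
        ext ⟨y, hy⟩
        simp only [Subgroup.mem_subgroupOf]
        exact ⟨fun h => h.2, fun h => ⟨hy, h⟩⟩
      rw [h2]
      infer_instance
    · intro y hy z hz
      have hyz : push (T.1 (y * z)) ∈ H := ((hmem _).1 (K'.mul_mem hy hz)).2
      have hy2 : push (T.1 y) ∈ H := ((hmem _).1 hy).2
      have hz2 : push (T.1 z) ∈ H := ((hmem _).1 hz).2
      show val H f (T.1 (y * z)) = val H f (T.1 y) + val H f (T.1 z)
      rw [val_eq H f _ hyz, val_eq H f _ hy2, val_eq H f _ hz2]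
      have : (⟨push (T.1 (y * z)), hyz⟩ : H) = ⟨push (T.1 y), hy2⟩ * ⟨push (T.1 z), hz2⟩ := by
        apply Subtype.ext
        show push (T.1 (y * z)) = push (T.1 y) * push (T.1 z)
        rw [map_mul T.1, map_mul push]
      rw [this, map_mul, toAdd_mul]
      push_cast
      ring
    · intro y hy z _
      exact IsS.conj hy z
    · intro y hy m hm hym
      show val H f (T.1 (y ^ m)) = 0
      have hym2 : push (T.1 (y ^ m)) ∈ H := ((hmem _).1 hym).2
      have h1 : push (T.1 y) ^ m ∈ H := by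
        have e : push (T.1 (y ^ m)) = push (T.1 y) ^ m := by rw [map_pow T.1, map_pow push]
        rw [← e]; exact hym2
      have h2 := sv hg H f (T.1 y) (IsS.act hy T) m h1
      rw [val_eq H f _ hym2]
      have e : (⟨push (T.1 (y ^ m)), hym2⟩ : H) = ⟨push (T.1 y) ^ m, h1⟩ := by
        apply Subtype.ext
        show push (T.1 (y ^ m)) = push (T.1 y) ^ m
        rw [map_pow T.1, map_pow push]
      rw [e, h2]
      simp
    · intro χ u h1 h2 h3 h4 h5 h6 y hy
      have hCH : CH M' χ u := ⟨h1, h2, h3, h4, h5⟩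
      obtain ⟨v, hv⟩ := thmC (by omega) M' ha0 hb0 ha1 hb1 χ u hCH
      rw [hv y (hK'M' hy), h6 y hy]
      ring
  have hy : (T⁻¹).1 x ∈ K' := by
    have e : T.1 ((T⁻¹).1 x) = x := by
      show T.1 ((T.1)⁻¹ x) = x
      simp
    rw [hmem]
    refine ⟨?_, ?_⟩
    · show T.1 ((T⁻¹).1 x) ∈ M
      rw [e]; exact hxM
    · rw [e]; exact hx
  have h := key _ hy
  have e : T.1 ((T⁻¹).1 x) = x := by
    show T.1 ((T.1)⁻¹ x) = x
    simp
  rw [e, val_eq H f x hx] at h
  have h3 : Multiplicative.toAdd (f ⟨push x, hx⟩) = 0 := by exact_mod_cast h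
  exact Multiplicative.toAdd.injective h3

/-- `M` is joined to `P` by a series of length `k` with cyclic quotients. -/
def CyclicSeries {G : Type*} [Group G] (M P : Subgroup G) (k : ℕ) : Prop :=
  ∃ B : ℕ → Subgroup G, B 0 = M ∧ B k = P ∧ ∀ i < k, B i ≤ B (i + 1) ∧
    ((B i).subgroupOf (B (i + 1))).Normal ∧
    ∃ t ∈ B (i + 1), ∀ x ∈ B (i + 1), ∃ e : ℤ, x * (t ^ e)⁻¹ ∈ B i

/-- Some mapping class moves the first `m` handles into `P`. -/
def ContainsHandles (P : Subgroup (SG g n)) (m : ℕ) : Prop :=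
  ∃ T : PMod g n, ∀ i < m, T.1 (sa i) ∈ P ∧ T.1 (sb i) ∈ P

theorem final (g n : ℕ) (hg : 3 ≤ g) (H : Subgroup (PMod g n)) [H.FiniteIndex]
    (M P : Subgroup (SG g n)) [M.Normal] [M.FiniteIndex] (k : ℕ) (hk : k + 2 ≤ g)
    (hP : ContainsHandles P (k + 2)) (hM : CyclicSeries M P k)
    (hH : ∀ x ∈ M, ∀ y ∈ M, push (x * y * x⁻¹ * y⁻¹) ∈ H)
    (f : H →* Multiplicative ℤ) (x : SG g n) (hx : push x ∈ H) : f ⟨push x, hx⟩ = 1 := by
  obtain ⟨B, h0, hk2, hs⟩ := hM
  obtain ⟨T0, hT0⟩ := hP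
  obtain ⟨T, ha0, hb0, ha1, hb1⟩ := cost M P B k hk h0 hk2
    (fun i hi => (hs i hi).2.1) (fun i hi => (hs i hi).2.2) T0 hT0
  have hN : M.index ≠ 0 := Subgroup.FiniteIndex.index_ne_zero
  have hxM : x ^ M.index ∈ M := Subgroup.pow_index_mem M x
  have hxH : push (x ^ M.index) ∈ H := by
    rw [map_pow]; exact H.pow_mem hx _
  have h := final_aux hg H f M T ha0 hb0 ha1 hb1 hH (x ^ M.index) hxM hxH
  have e : (⟨push (x ^ M.index), hxH⟩ : H) = ⟨push x, hx⟩ ^ M.index := by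
    apply Subtype.ext
    show push (x ^ M.index) = push x ^ M.index
    rw [map_pow]
  rw [e, map_pow] at h
  exact pow_eq_one_int hN h

end Pool.Agent.PWI
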