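import Pool.Agent.PWI.Desc

/-!
# PWI module LOC: explicit automorphisms of one or two handles

Pure computation in `FreeGroup (Gen 1 0)` and `FreeGroup (Gen 2 0)`.  Write `a, b, a', b'` for
`of (Gen.a 0)`, `of (Gen.b 0)`, `of (Gen.a 1)`, `of (Gen.b 1)`.

Every automorphism below has the form: an element `c` of the free group, and each generator `x`
goes to `c^l x c^r`; the endomorphism fixes `c`, and so does the one with `(-l, -r)`; hence they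
are inverse to each other (`τ (c^(-l) x c^(-r)) = c^(-l) c^l x c^r c^(-r) = x`).

* `locA`: `c = a`: `a ↦ a`, `b ↦ b c`.  Inverse `b ↦ b a⁻¹`.
* `locB`: `c = b`: `a ↦ a c⁻¹`, `b ↦ b`.  Inverse `a ↦ a b`.
* `locC`: `c = b⁻¹ a' b' a'⁻¹`: `a ↦ a c⁻¹`, `b ↦ c b c⁻¹`, `a' ↦ c a'`, `b' ↦ b'`.
  (`c ↦ (c b⁻¹ c⁻¹)(c a') b' (a'⁻¹ c⁻¹) = c (b⁻¹ a' b' a'⁻¹) c⁻¹ = c`.)
  Word: `a b a⁻¹ b⁻¹ a' b' a'⁻¹ b'⁻¹ = (a b a⁻¹) c b'⁻¹ ↦ (a c⁻¹)(c b c⁻¹)(c a⁻¹) c b'⁻¹`, the same.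
* `locS` (swap of two handles): with `d = a b a⁻¹ b⁻¹`: `a ↦ d a' d⁻¹`, `b ↦ d b' d⁻¹`,
  `a' ↦ a`, `b' ↦ b`.  Inverse: with `d' = a' b' a'⁻¹ b'⁻¹`: `a ↦ a'`, `b ↦ b'`,
  `a' ↦ d'⁻¹ a d'`, `b' ↦ d'⁻¹ b d'`.  Word: `d [a',b'] d⁻¹ d = d [a',b']`.
* `locP` (push of the first handle around `a'`): with `d = a b a⁻¹ b⁻¹`, `c = d a'`:
  `a ↦ c a c⁻¹`, `b ↦ c b c⁻¹`, `a' ↦ d a' d⁻¹`, `b' ↦ b' d⁻¹`.
  It is `T ∘ A'`, where `A' : b' ↦ b' a'` (others fixed) and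
  `T : a ↦ c a c⁻¹, b ↦ c b c⁻¹, a' ↦ c a' c⁻¹, b' ↦ b' c⁻¹` (`T c = c`):
  `T (A' b') = T (b' a') = b' c⁻¹ c a' c⁻¹ = b' a' c⁻¹ = b' d⁻¹` and
  `c a' c⁻¹ = d a' a' a'⁻¹ d⁻¹ = d a' d⁻¹`.
  Inverse: `a ↦ c⁻¹ a c`, `b ↦ c⁻¹ b c`, `a' ↦ c⁻¹ d⁻¹ c c`, `b' ↦ b' c⁻¹ d c`
  (with `c = d a'`).
  Word: `d [a',b'] ↦ (c d c⁻¹)(d a' d⁻¹)(b' d⁻¹)(d a'⁻¹ d⁻¹)(d b'⁻¹) = d a' b' a'⁻¹ b'⁻¹`.

Proof in Lean: `mkSt` below, then `fin_cases`/`cases` on the generators, `simp`, and `group`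
(or `decide` on the free group).
-/

namespace Pool.Agent.PWI

open FreeGroup

/-- Build an element of `St m` from two inverse endomorphisms. -/
def mkSt (m : ℕ) (f f' : Gen m 0 → FreeGroup (Gen m 0))
    (h1 : ∀ x, FreeGroup.lift f (f' x) = of x) (h2 : ∀ x, FreeGroup.lift f' (f x) = of x)
    (hr : FreeGroup.lift f (rel m 0) = rel m 0) : StF m 0 :=
  ⟨MonoidHom.toMulEquiv (FreeGroup.lift f) (FreeGroup.lift f')
    (by ext x; simp [h2]) (by ext x; simp [h1]), by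
      show (FreeGroup.lift f) (rel m 0) = rel m 0
      exact hr⟩

theorem mkSt_apply (m : ℕ) (f f' : Gen m 0 → FreeGroup (Gen m 0)) (h1 h2 hr)
    (x : FreeGroup (Gen m 0)) : (mkSt m f f' h1 h2 hr).1 x = FreeGroup.lift f x := rfl

/-- An assignment on the generators of one handle. -/
def mk2 (x y : FreeGroup (Gen 1 0)) : Gen 1 0 → FreeGroup (Gen 1 0)
  | Gen.a _ => x
  | Gen.b _ => y
  | Gen.z k => k.elim0

theorem forallGen1 {p : Gen 1 0 → Prop} (h : p (Gen.a 0) ∧ p (Gen.b 0)) : ∀ x, p x := by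
  obtain ⟨h0, h1⟩ := h
  rintro (i | i | k)
  · fin_cases i; exact h0
  · fin_cases i; exact h1
  · exact k.elim0

/-- An assignment on the generators of two handles. -/
def mk4 (x0 y0 x1 y1 : FreeGroup (Gen 2 0)) : Gen 2 0 → FreeGroup (Gen 2 0)
  | Gen.a i => ![x0, x1] i
  | Gen.b i => ![y0, y1] i
  | Gen.z k => k.elim0

theorem forallGen2 {p : Gen 2 0 → Prop}
    (h : p (Gen.a 0) ∧ p (Gen.b 0) ∧ p (Gen.a 1) ∧ p (Gen.b 1)) : ∀ x, p x := by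
  obtain ⟨h0, h1, h2, h3⟩ := h
  rintro (i | i | k)
  · fin_cases i
    · exact h0
    · exact h2
  · fin_cases i
    · exact h1
    · exact h3
  · exact k.elim0

namespace LocX

def a : FreeGroup (Gen 2 0) := of (Gen.a 0)
def b : FreeGroup (Gen 2 0) := of (Gen.b 0)
def a' : FreeGroup (Gen 2 0) := of (Gen.a 1)
def b' : FreeGroup (Gen 2 0) := of (Gen.b 1)
def c : FreeGroup (Gen 2 0) := b⁻¹ * a' * b' * a'⁻¹
def d : FreeGroup (Gen 2 0) := a * b * a⁻¹ * b⁻¹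
def d' : FreeGroup (Gen 2 0) := a' * b' * a'⁻¹ * b'⁻¹
def c' : FreeGroup (Gen 2 0) := d * a'
def Cf := mk4 (a * c⁻¹) (c * b * c⁻¹) (c * a') b'
def Cg := mk4 (a * c) (c⁻¹ * b * c) (c⁻¹ * a') b'
def Sf := mk4 (d * a' * d⁻¹) (d * b' * d⁻¹) a b
def Sg := mk4 a' b' (d'⁻¹ * a * d') (d'⁻¹ * b * d')
def Pf := mk4 (c' * a * c'⁻¹) (c' * b * c'⁻¹) (d * a' * d⁻¹) (b' * d⁻¹)
def Pg := mk4 (c'⁻¹ * a * c') (c'⁻¹ * b * c') (c'⁻¹ * d⁻¹ * c' * c') (b' * c'⁻¹ * d * c')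

end LocX

theorem locA : ∃ θ : StF 1 0,
    θ.1 (of (Gen.a 0)) = of (Gen.a 0) ∧ θ.1 (of (Gen.b 0)) = of (Gen.b 0) * of (Gen.a 0) := by
  refine ⟨mkSt 1 (mk2 (of (Gen.a 0)) (of (Gen.b 0) * of (Gen.a 0)))
    (mk2 (of (Gen.a 0)) (of (Gen.b 0) * (of (Gen.a 0))⁻¹))
    (forallGen1 (p := fun x => FreeGroup.lift _ _ = of x) (by decide))
    (forallGen1 (p := fun x => FreeGroup.lift _ _ = of x) (by decide)) (by decide), ?_, ?_⟩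
  · rw [mkSt_apply]; decide
  · rw [mkSt_apply]; decide

theorem locB : ∃ θ : StF 1 0,
    θ.1 (of (Gen.a 0)) = of (Gen.a 0) * (of (Gen.b 0))⁻¹ ∧ θ.1 (of (Gen.b 0)) = of (Gen.b 0) := by
  refine ⟨mkSt 1 (mk2 (of (Gen.a 0) * (of (Gen.b 0))⁻¹) (of (Gen.b 0)))
    (mk2 (of (Gen.a 0) * (of (Gen.b 0))) (of (Gen.b 0)))
    (forallGen1 (p := fun x => FreeGroup.lift _ _ = of x) (by decide))
    (forallGen1 (p := fun x => FreeGroup.lift _ _ = of x) (by decide)) (by decide), ?_, ?_⟩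
  · rw [mkSt_apply]; decide
  · rw [mkSt_apply]; decide

theorem locC (a b a' b' c : FreeGroup (Gen 2 0)) (ha : a = of (Gen.a 0)) (hb : b = of (Gen.b 0))
    (ha' : a' = of (Gen.a 1)) (hb' : b' = of (Gen.b 1)) (hc : c = b⁻¹ * a' * b' * a'⁻¹) :
    ∃ θ : StF 2 0, θ.1 a = a * c⁻¹ ∧ θ.1 b = c * b * c⁻¹ ∧ θ.1 a' = c * a' ∧ θ.1 b' = b' := by
  subst hc
  subst ha hb ha' hb'
  refine ⟨mkSt 2 LocX.Cf LocX.Cg
    (forallGen2 (p := fun x => FreeGroup.lift LocX.Cf (LocX.Cg x) = of x) (by decide))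
    (forallGen2 (p := fun x => FreeGroup.lift LocX.Cg (LocX.Cf x) = of x) (by decide))
    (by decide), ?_, ?_, ?_, ?_⟩
  all_goals rw [mkSt_apply]; decide

theorem locS (a b a' b' d : FreeGroup (Gen 2 0)) (ha : a = of (Gen.a 0)) (hb : b = of (Gen.b 0))
    (ha' : a' = of (Gen.a 1)) (hb' : b' = of (Gen.b 1)) (hd : d = a * b * a⁻¹ * b⁻¹) :
    ∃ θ : StF 2 0, θ.1 a = d * a' * d⁻¹ ∧ θ.1 b = d * b' * d⁻¹ ∧ θ.1 a' = a ∧ θ.1 b' = b := by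
  subst hd
  subst ha hb ha' hb'
  refine ⟨mkSt 2 LocX.Sf LocX.Sg
    (forallGen2 (p := fun x => FreeGroup.lift LocX.Sf (LocX.Sg x) = of x) (by decide))
    (forallGen2 (p := fun x => FreeGroup.lift LocX.Sg (LocX.Sf x) = of x) (by decide))
    (by decide), ?_, ?_, ?_, ?_⟩
  all_goals rw [mkSt_apply]; decide

theorem locP (a b a' b' d c : FreeGroup (Gen 2 0)) (ha : a = of (Gen.a 0))
    (hb : b = of (Gen.b 0)) (ha' : a' = of (Gen.a 1)) (hb' : b' = of (Gen.b 1))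
    (hd : d = a * b * a⁻¹ * b⁻¹) (hc : c = d * a') :
    ∃ θ : StF 2 0, θ.1 a = c * a * c⁻¹ ∧ θ.1 b = c * b * c⁻¹ ∧ θ.1 a' = d * a' * d⁻¹ ∧
      θ.1 b' = b' * d⁻¹ := by
  subst hc
  subst hd
  subst ha hb ha' hb'
  refine ⟨mkSt 2 LocX.Pf LocX.Pg
    (forallGen2 (p := fun x => FreeGroup.lift LocX.Pf (LocX.Pg x) = of x) (by decide))
    (forallGen2 (p := fun x => FreeGroup.lift LocX.Pg (LocX.Pf x) = of x) (by decide))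
    (by decide), ?_, ?_, ?_, ?_⟩
  all_goals rw [mkSt_apply]; decide

end Pool.Agent.PWI
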