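import Pool.Agent.PWI.Ext
import Pool.Agent.PWI.Loc

/-!
# PWI module AUTO: the mapping classes used in the proof

Proof. For `exA`, `exB` use `ext_exists` with `m = 1` and `locA`, `locB`; for `exC`, `exS` use
`m = 2` and `locC`, `locS`; for `exP` use `m = 2`, `i = 0` and `locP`.  Evaluate
`iota m i (of (Gen.a k)) = sa (i + k)` etc.  For `exA`, `exB` with `i ≥ g` take `T = 1`.
-/

namespace Pool.Agent.PWI

variable {g n : ℕ}

theorem iota_a (m i : ℕ) (k : Fin m) :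
    (iota m i (FreeGroup.of (Gen.a k)) : SG g n) = sa (i + k) := by
  simp [iota]

theorem iota_b (m i : ℕ) (k : Fin m) :
    (iota m i (FreeGroup.of (Gen.b k)) : SG g n) = sb (i + k) := by
  simp [iota]

theorem sa_big {i : ℕ} (h : g ≤ i) : (sa i : SG g n) = 1 := by
  simp only [sa, dif_neg (by omega : ¬ i < g)]

theorem sb_big {i : ℕ} (h : g ≤ i) : (sb i : SG g n) = 1 := by
  simp only [sb, dif_neg (by omega : ¬ i < g)]

theorem sz_big {j : ℕ} (h : n ≤ j) : (sz j : SG g n) = 1 := by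
  simp only [sz, dif_neg (by omega : ¬ j < n)]

theorem Fixes.mono {T : PMod g n} {s t : Set ℕ} (h : Fixes T s) (hst : s ⊆ t) : Fixes T t :=
  ⟨fun k hk => h.1 k (fun hs => hk (hst hs)), h.2⟩

theorem fixes_one (s : Set ℕ) : Fixes (1 : PMod g n) s := ⟨fun _ _ => ⟨rfl, rfl⟩, fun _ => rfl⟩

theorem exA (i : ℕ) : ∃ T : PMod g n, T.1 (sa i) = sa i ∧ T.1 (sb i) = sb i * sa i ∧
    Fixes T {i} := by
  by_cases hi : i < g
  · obtain ⟨E, hE1, hE2⟩ := ext_exists (g := g) (n := n) 1 i (by omega)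
    obtain ⟨θ, h1, h2⟩ := locA
    refine ⟨E θ, ?_, ?_, (hE2 θ).mono (fun k hk => by
      have := hk.1; have := hk.2
      simp only [Set.mem_singleton_iff]; omega)⟩
    · have := hE1 θ (FreeGroup.of (Gen.a 0))
      rw [h1, iota_a] at this
      exact this
    · have := hE1 θ (FreeGroup.of (Gen.b 0))
      rw [h2, map_mul, iota_a, iota_b] at this
      exact this
  · refine ⟨1, rfl, ?_, fixes_one _⟩
    rw [sa_big (by omega), sb_big (by omega)]
    simp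

theorem exB (i : ℕ) : ∃ T : PMod g n, T.1 (sa i) = sa i * (sb i)⁻¹ ∧ T.1 (sb i) = sb i ∧
    Fixes T {i} := by
  by_cases hi : i < g
  · obtain ⟨E, hE1, hE2⟩ := ext_exists (g := g) (n := n) 1 i (by omega)
    obtain ⟨θ, h1, h2⟩ := locB
    refine ⟨E θ, ?_, ?_, (hE2 θ).mono (fun k hk => by
      have := hk.1; have := hk.2
      simp only [Set.mem_singleton_iff]; omega)⟩
    · have := hE1 θ (FreeGroup.of (Gen.a 0))
      rw [h1, map_mul, map_inv, iota_a, iota_b] at this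
      exact this
    · have := hE1 θ (FreeGroup.of (Gen.b 0))
      rw [h2, iota_b] at this
      exact this
  · refine ⟨1, ?_, rfl, fixes_one _⟩
    rw [sa_big (by omega), sb_big (by omega)]
    simp

theorem exC (i : ℕ) (h : i + 2 ≤ g) (c : SG g n)
    (hc : c = (sb i)⁻¹ * sa (i + 1) * sb (i + 1) * (sa (i + 1))⁻¹) :
    ∃ T : PMod g n, T.1 (sa i) = sa i * c⁻¹ ∧ T.1 (sb i) = c * sb i * c⁻¹ ∧
      T.1 (sa (i + 1)) = c * sa (i + 1) ∧ T.1 (sb (i + 1)) = sb (i + 1) ∧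
      Fixes T {i, i + 1} := by
  obtain ⟨E, hE1, hE2⟩ := ext_exists (g := g) (n := n) 2 i (by omega)
  obtain ⟨θ, h1, h2, h3, h4⟩ := locC _ _ _ _ _ rfl rfl rfl rfl rfl
  have e1 := hE1 θ (FreeGroup.of (Gen.a 0))
  have e2 := hE1 θ (FreeGroup.of (Gen.b 0))
  have e3 := hE1 θ (FreeGroup.of (Gen.a 1))
  have e4 := hE1 θ (FreeGroup.of (Gen.b 1))
  rw [h1] at e1
  rw [h2] at e2
  rw [h3] at e3
  rw [h4] at e4
  simp only [map_mul, map_inv, iota_a, iota_b] at e1 e2 e3 e4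
  subst hc
  refine ⟨E θ, e1, e2, e3, e4, (hE2 θ).mono (fun k hk => by
      have := hk.1; have := hk.2
      simp only [Set.mem_insert_iff, Set.mem_singleton_iff]; omega)⟩

theorem exS (i : ℕ) (h : i + 2 ≤ g) (d : SG g n)
    (hd : d = sa i * sb i * (sa i)⁻¹ * (sb i)⁻¹) :
    ∃ T : PMod g n, T.1 (sa i) = d * sa (i + 1) * d⁻¹ ∧ T.1 (sb i) = d * sb (i + 1) * d⁻¹ ∧
      T.1 (sa (i + 1)) = sa i ∧ T.1 (sb (i + 1)) = sb i ∧ Fixes T {i, i + 1} := by
  obtain ⟨E, hE1, hE2⟩ := ext_exists (g := g) (n := n) 2 i (by omega)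
  obtain ⟨θ, h1, h2, h3, h4⟩ := locS _ _ _ _ _ rfl rfl rfl rfl rfl
  have e1 := hE1 θ (FreeGroup.of (Gen.a 0))
  have e2 := hE1 θ (FreeGroup.of (Gen.b 0))
  have e3 := hE1 θ (FreeGroup.of (Gen.a 1))
  have e4 := hE1 θ (FreeGroup.of (Gen.b 1))
  rw [h1] at e1
  rw [h2] at e2
  rw [h3] at e3
  rw [h4] at e4
  simp only [map_mul, map_inv, iota_a, iota_b] at e1 e2 e3 e4
  subst hd
  refine ⟨E θ, e1, e2, e3, e4, (hE2 θ).mono (fun k hk => by
      have := hk.1; have := hk.2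
      simp only [Set.mem_insert_iff, Set.mem_singleton_iff]; omega)⟩

theorem exP (h : 2 ≤ g) (d c : SG g n) (hd : d = sa 0 * sb 0 * (sa 0)⁻¹ * (sb 0)⁻¹)
    (hc : c = d * sa 1) :
    ∃ T : PMod g n, T.1 (sa 0) = c * sa 0 * c⁻¹ ∧ T.1 (sb 0) = c * sb 0 * c⁻¹ ∧
      T.1 (sa 1) = d * sa 1 * d⁻¹ ∧ T.1 (sb 1) = sb 1 * d⁻¹ ∧ Fixes T {0, 1} := by
  obtain ⟨E, hE1, hE2⟩ := ext_exists (g := g) (n := n) 2 0 (by omega)
  obtain ⟨θ, h1, h2, h3, h4⟩ := locP _ _ _ _ _ _ rfl rfl rfl rfl rfl rfl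
  have e1 := hE1 θ (FreeGroup.of (Gen.a 0))
  have e2 := hE1 θ (FreeGroup.of (Gen.b 0))
  have e3 := hE1 θ (FreeGroup.of (Gen.a 1))
  have e4 := hE1 θ (FreeGroup.of (Gen.b 1))
  rw [h1] at e1
  rw [h2] at e2
  rw [h3] at e3
  rw [h4] at e4
  simp only [map_mul, map_inv, iota_a, iota_b] at e1 e2 e3 e4
  subst hc
  subst hd
  refine ⟨E θ, e1, e2, e3, e4, (hE2 θ).mono (fun k hk => by
      have := hk.1; have := hk.2
      simp only [Set.mem_insert_iff, Set.mem_singleton_iff]; omega)⟩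

end Pool.Agent.PWI
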