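import Mathlib

/-!
# PWI (MP_41330a_gt, Ivanov): surface groups, pure mapping class groups, point pushing

`SG g n` is the fundamental group of the closed oriented surface of genus `g` with `n` points
removed, in its standard presentation with generators `a_i, b_i (i < g)`, `z_j (j < n)` and the
single relation `[a_0, b_0] ... [a_(g-1), b_(g-1)] z_0 ... z_(n-1) = 1`.

`PMod g n` is the group of automorphisms of `SG g n` preserving the conjugacy class of every
`z_j`.  By Dehn, Nielsen, Baer it is the pure mapping class group of the surface with one
more puncture (the base point); for `n = 0` it also contains the orientation reversing classes.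

`push` is point pushing: `x` goes to conjugation by `x`.
-/

namespace Pool.Agent.PWI

/-- Generators of the surface group. -/
inductive Gen (g n : ℕ) : Type
  | a : Fin g → Gen g n
  | b : Fin g → Gen g n
  | z : Fin n → Gen g n
  deriving DecidableEq

/-- The surface relation `[a_0, b_0] ... [a_(g-1), b_(g-1)] z_0 ... z_(n-1)`. -/
def rel (g n : ℕ) : FreeGroup (Gen g n) :=
  (List.ofFn fun i : Fin g =>
      FreeGroup.of (Gen.a i : Gen g n) * FreeGroup.of (Gen.b i) *
        (FreeGroup.of (Gen.a i))⁻¹ * (FreeGroup.of (Gen.b i))⁻¹).prod *
    (List.ofFn fun j : Fin n => FreeGroup.of (Gen.z j : Gen g n)).prod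

/-- The fundamental group of the surface of genus `g` with `n` punctures. -/
abbrev SG (g n : ℕ) : Type := PresentedGroup ({rel g n} : Set (FreeGroup (Gen g n)))

variable {g n : ℕ}

/-- The generator `a_i` (trivial for `i ≥ g`). -/
def sa (i : ℕ) : SG g n := if h : i < g then PresentedGroup.of (Gen.a ⟨i, h⟩) else 1

/-- The generator `b_i` (trivial for `i ≥ g`). -/
def sb (i : ℕ) : SG g n := if h : i < g then PresentedGroup.of (Gen.b ⟨i, h⟩) else 1

/-- The generator `z_j` (trivial for `j ≥ n`). -/
def sz (j : ℕ) : SG g n := if h : j < n then PresentedGroup.of (Gen.z ⟨j, h⟩) else 1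

/-- Pure mapping classes fixing the base point: automorphisms of the surface group preserving
the conjugacy class of each puncture loop. -/
def PMod (g n : ℕ) : Subgroup (MulAut (SG g n)) where
  carrier := {T | ∀ j : ℕ, IsConj (sz j : SG g n) (T (sz j))}
  one_mem' := fun j => IsConj.refl _
  mul_mem' := by
    intro S T hS hT j
    exact (hS j).trans (MonoidHom.map_isConj (S : SG g n →* SG g n) (hT j))
  inv_mem' := by
    intro T hT j
    have h := MonoidHom.map_isConj ((T⁻¹ : MulAut (SG g n)) : SG g n →* SG g n) (hT j)
    have h2 : ((T⁻¹ : MulAut (SG g n)) : SG g n →* SG g n) (T (sz j)) = sz j := by simp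
    rw [h2] at h
    exact h.symm

/-- Point pushing: the inner automorphisms. -/
def push : SG g n →* PMod g n where
  toFun x := ⟨MulAut.conj x, fun j => by
    rw [isConj_iff]
    exact ⟨x, by simp [MulAut.conj_apply]⟩⟩
  map_one' := by ext; simp
  map_mul' x y := by ext; simp

end Pool.Agent.PWI
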