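import Pool.Agent.PWI.Scc

/-!
# PWI module HAND: a character and its crossed homomorphism on one handle

`i = 0` or `i = 1`, `a_i, b_i ∈ M`.  Note `Hd i ≤ M`, `IsS (a_i)`, `IsS (b_i)`, and `IsS (T x)` for
`x` simple.

Step 1. `exA`, `exB` give `A, B` supported on handle `i` (`Supp`): they map `Hd i` onto itself,
because `A a = a, A b = b a, A⁻¹ b = b a⁻¹`, etc.  `Supp` is closed under products and inverses.

Step 2 (Euclid). There is `T` with `Supp T i` and `χ (T b_i) = 1`.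
`χ` restricted to `Hd i` is a homomorphism to the `N`-th roots of unity (`tor`), so there is a
primitive `N`-th root `ρ` and `χ a_i = ρ ^ x`, `χ b_i = ρ ^ y` with integers `x, y`
(e.g. `ρ = exp (2 π i / N)`, `IsPrimitiveRoot.eq_pow_of_pow_eq_one`).
Claim: for all integers `x, y` and every `S` with `Supp S i`, `χ (S a_i) = ρ ^ x`,
`χ (S b_i) = ρ ^ y` there is `T` with `Supp T i`, `χ (T b_i) = 1`.  Strong induction on `|y|`, say.
For `S A^k`: `(x, y + k x)`; for `S B^k`: `(x - k y, y)`.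
If `y = 0` take `T = S`.  If `y ≠ 0`: replace `x` by `x mod y`, so `0 ≤ x < |y|`.  If `x = 0` use
`S B⁻¹ A⁻¹`: `(0, y) → (y, y) → (y, 0)`.  If `x > 0` replace `y` by `y mod x < |y|`; induction.
(Alternatively: choose `k` with `χ b (χ a)^k` a generator of the cyclic group `χ (Hd i)`.)

Step 3. `hand_principal`: with `T` from Step 2, `Hd i = closure {T a_i, T b_i}` (image of
`closure {a_i, b_i}` under `T`).  `T b_i` is simple with `χ = 1`, so `u (T b_i) = 0` by `van`.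
If `χ (T a_i) = 1` then `u (T a_i) = 0` too and `v = 0` works; otherwise
`v = u (T a_i) / (χ (T a_i) - 1)`.  Use `CH.closure_le`.

Step 4. `hand_value`: `χ (Hd i)` consists of the powers of `s = χ (T a_i)` since `χ (T b_i) = 1`
(closure induction).  If `χ y = s ^ k` (`k : ℤ`), then `T * A ^ k` has
`(T A^k) b_i = T (b_i a_i^k)`, with value `s ^ k`.
-/

namespace Pool.Agent.PWI

variable {g n : ℕ}

theorem Supp.hand_mul {S T : PMod g n} {i : ℕ} (hS : Supp S i) (hT : Supp T i) : Supp (S * T) i :=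
  ⟨hS.1.mul hT.1, fun x => (hT.2 x).trans (hS.2 _)⟩

theorem Supp.hand_inv {T : PMod g n} {i : ℕ} (hT : Supp T i) : Supp T⁻¹ i :=
  ⟨hT.1.inv, fun x => by
    have h := hT.2 ((T⁻¹).1 x)
    have e : T.1 ((T⁻¹).1 x) = x := by
      show T.1 ((T.1)⁻¹ x) = x
      simp
    rw [e] at h
    exact h.symm⟩

theorem hand_mapsTo {T : PMod g n} {i : ℕ} (ha : T.1 (sa i) ∈ Hd i) (hb : T.1 (sb i) ∈ Hd i)
    (x : SG g n) (hx : x ∈ Hd i) : T.1 x ∈ Hd i := by
  induction hx using Subgroup.closure_induction with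
  | mem x hx =>
    rcases hx with rfl | rfl
    · exact ha
    · exact hb
  | one => rw [map_one]; exact Subgroup.one_mem _
  | mul x y _ _ hx hy => rw [map_mul]; exact Subgroup.mul_mem _ hx hy
  | inv x _ hx => rw [map_inv]; exact Subgroup.inv_mem _ hx

theorem hand_sa_mem_hd (i : ℕ) : (sa i : SG g n) ∈ Hd i := Subgroup.subset_closure (by simp)

theorem hand_sb_mem_hd (i : ℕ) : (sb i : SG g n) ∈ Hd i := Subgroup.subset_closure (by simp)

theorem hand_supp_of {T : PMod g n} {i : ℕ} (hf : Fixes T {i}) (ha : T.1 (sa i) ∈ Hd i)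
    (hb : T.1 (sb i) ∈ Hd i) (ha' : (T⁻¹).1 (sa i) ∈ Hd i) (hb' : (T⁻¹).1 (sb i) ∈ Hd i) :
    Supp T i := by
  refine ⟨hf, fun x => ⟨fun hx => hand_mapsTo ha hb x hx, fun hx => ?_⟩⟩
  have h := hand_mapsTo ha' hb' _ hx
  rwa [act_inv_eq (T := T) (x := x) rfl] at h

/-- The twist `A` with its inverse. -/
theorem hand_exA (i : ℕ) : ∃ T : PMod g n, Supp T i ∧ T.1 (sa i) = sa i ∧
    T.1 (sb i) = sb i * sa i ∧ (T⁻¹).1 (sa i) = sa i ∧ (T⁻¹).1 (sb i) = sb i * (sa i)⁻¹ := by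
  obtain ⟨T, h1, h2, h3⟩ := exA (g := g) (n := n) i
  have h4 : (T⁻¹).1 (sa i) = sa i := act_inv_eq h1
  have h5 : (T⁻¹).1 (sb i) = sb i * (sa i)⁻¹ := act_inv_eq (by
    rw [map_mul, map_inv, h1, h2]; group)
  refine ⟨T, hand_supp_of h3 ?_ ?_ ?_ ?_, h1, h2, h4, h5⟩
  · rw [h1]; exact hand_sa_mem_hd i
  · rw [h2]; exact Subgroup.mul_mem _ (hand_sb_mem_hd i) (hand_sa_mem_hd i)
  · rw [h4]; exact hand_sa_mem_hd i
  · rw [h5]; exact Subgroup.mul_mem _ (hand_sb_mem_hd i) (Subgroup.inv_mem _ (hand_sa_mem_hd i))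

/-- The twist `B` with its inverse. -/
theorem hand_exB (i : ℕ) : ∃ T : PMod g n, Supp T i ∧ T.1 (sa i) = sa i * (sb i)⁻¹ ∧
    T.1 (sb i) = sb i ∧ (T⁻¹).1 (sa i) = sa i * sb i ∧ (T⁻¹).1 (sb i) = sb i := by
  obtain ⟨T, h1, h2, h3⟩ := exB (g := g) (n := n) i
  have h4 : (T⁻¹).1 (sa i) = sa i * sb i := act_inv_eq (by
    rw [map_mul, h1, h2]; group)
  have h5 : (T⁻¹).1 (sb i) = sb i := act_inv_eq h2
  refine ⟨T, hand_supp_of h3 ?_ ?_ ?_ ?_, h1, h2, h4, h5⟩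
  · rw [h1]; exact Subgroup.mul_mem _ (hand_sa_mem_hd i) (Subgroup.inv_mem _ (hand_sb_mem_hd i))
  · rw [h2]; exact hand_sb_mem_hd i
  · rw [h4]; exact Subgroup.mul_mem _ (hand_sa_mem_hd i) (hand_sb_mem_hd i)
  · rw [h5]; exact hand_sb_mem_hd i

theorem hand_supp_one (i : ℕ) : Supp (1 : PMod g n) i := ⟨fixes_one _, fun _ => Iff.rfl⟩

/-- The subtractive Euclidean algorithm. -/
theorem hand_euclid (P : ℤ → ℤ → Prop) (hA : ∀ x y, P x (y + x) → P x y)
    (hA' : ∀ x y, P x (y - x) → P x y) (hB : ∀ x y, P (x + y) y → P x y)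
    (hB' : ∀ x y, P (x - y) y → P x y) (h0 : ∀ x, P x 0) : ∀ x y, P x y := by
  have key : ∀ m : ℕ, ∀ x y : ℤ, x.natAbs + y.natAbs = m → P x y := by
    intro m
    induction m using Nat.strong_induction_on with
    | _ m ih =>
      intro x y hm
      by_cases hy : y = 0
      · rw [hy]; exact h0 x
      by_cases hx : x = 0
      · apply hB
        rw [hx, zero_add]
        apply hA'
        rw [sub_self]
        exact h0 y
      by_cases hxy : x.natAbs ≤ y.natAbs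
      · by_cases hs : (y + x).natAbs < y.natAbs
        · exact hA _ _ (ih _ (by omega) _ _ rfl)
        · exact hA' _ _ (ih (x.natAbs + (y - x).natAbs) (by omega) _ _ rfl)
      · by_cases hs : (x + y).natAbs < x.natAbs
        · exact hB _ _ (ih _ (by omega) _ _ rfl)
        · exact hB' _ _ (ih ((x - y).natAbs + y.natAbs) (by omega) _ _ rfl)
  exact fun x y => key _ x y rfl

theorem hand_hd_le {i : ℕ} {M : Subgroup (SG g n)} (ha : sa i ∈ M) (hb : sb i ∈ M) : Hd i ≤ M := by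
  unfold Hd
  rw [Subgroup.closure_le]
  rintro x (rfl | rfl)
  · exact ha
  · exact hb

/-- There is a basis of the handle with `χ (T b) = 1`. -/
theorem hand_T (i : ℕ) (M : Subgroup (SG g n))
    (ha : sa i ∈ M) (hb : sb i ∈ M) (χ u : SG g n → ℂ) (h : CH M χ u) :
    ∃ T : PMod g n, Supp T i ∧ χ (T.1 (sb i)) = 1 := by
  have hM := hand_hd_le ha hb
  obtain ⟨N, hN, hN'⟩ := h.tor
  have hρ : IsPrimitiveRoot (Complex.exp (2 * Real.pi * Complex.I / N)) N :=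
    Complex.isPrimitiveRoot_exp N hN.ne'
  generalize Complex.exp (2 * Real.pi * Complex.I / N) = ρ at hρ
  have hρ0 : ρ ≠ 0 := hρ.ne_zero hN.ne'
  have hN0 : NeZero N := ⟨hN.ne'⟩
  have mem1 : ∀ {S : PMod g n}, Supp S i → S.1 (sa i) ∈ M := fun hS =>
    hM ((hS.2 _).1 (hand_sa_mem_hd i))
  have mem2 : ∀ {S : PMod g n}, Supp S i → S.1 (sb i) ∈ M := fun hS =>
    hM ((hS.2 _).1 (hand_sb_mem_hd i))
  obtain ⟨A, hA, hA1, hA2, hA3, hA4⟩ := hand_exA (g := g) (n := n) i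
  obtain ⟨B, hB, hB1, hB2, hB3, hB4⟩ := hand_exB (g := g) (n := n) i
  have key := hand_euclid (fun x y => ∀ S : PMod g n, Supp S i → χ (S.1 (sa i)) = ρ ^ x →
    χ (S.1 (sb i)) = ρ ^ y → ∃ T : PMod g n, Supp T i ∧ χ (T.1 (sb i)) = 1)
    (fun x y hP S hS h1 h2 => hP (S * A) (hS.hand_mul hA) (by rw [act_mul, hA1, h1]) (by
      rw [act_mul, hA2, map_mul, h.mul _ (mem2 hS) _ (mem1 hS), h1, h2, zpow_add₀ hρ0]))
    (fun x y hP S hS h1 h2 => hP (S * A⁻¹) (hS.hand_mul hA.hand_inv) (by rw [act_mul, hA3, h1]) (by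
      rw [act_mul, hA4, map_mul, map_inv, h.mul _ (mem2 hS) _ (M.inv_mem (mem1 hS)),
        h.inv (mem1 hS), h1, h2, zpow_sub₀ hρ0, div_eq_mul_inv]))
    (fun x y hP S hS h1 h2 => hP (S * B⁻¹) (hS.hand_mul hB.hand_inv) (by
      rw [act_mul, hB3, map_mul, h.mul _ (mem1 hS) _ (mem2 hS), h1, h2, zpow_add₀ hρ0])
      (by rw [act_mul, hB4, h2]))
    (fun x y hP S hS h1 h2 => hP (S * B) (hS.hand_mul hB) (by
      rw [act_mul, hB1, map_mul, map_inv, h.mul _ (mem1 hS) _ (M.inv_mem (mem2 hS)),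
        h.inv (mem2 hS), h1, h2, zpow_sub₀ hρ0, div_eq_mul_inv])
      (by rw [act_mul, hB2, h2]))
    (fun x S hS _ h2 => ⟨S, hS, by rw [h2, zpow_zero]⟩)
  obtain ⟨x, -, hx⟩ := hρ.eq_pow_of_pow_eq_one (hN' _ ha)
  obtain ⟨y, -, hy⟩ := hρ.eq_pow_of_pow_eq_one (hN' _ hb)
  exact key x y 1 (hand_supp_one i) (by rw [zpow_natCast, hx]; rfl) (by rw [zpow_natCast, hy]; rfl)

theorem hand_hd_eq {i : ℕ} {T : PMod g n} (hT : Supp T i) (x : SG g n) (hx : x ∈ Hd i) :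
    x ∈ Subgroup.closure ({T.1 (sa i), T.1 (sb i)} : Set (SG g n)) := by
  have h1 : (T⁻¹).1 x ∈ Hd i := (hT.hand_inv.2 x).1 hx
  have h2 : ∀ z : SG g n, z ∈ Hd i →
      T.1 z ∈ Subgroup.closure ({T.1 (sa i), T.1 (sb i)} : Set (SG g n)) := by
    intro z hz
    induction hz using Subgroup.closure_induction with
    | mem x hx =>
      rcases hx with rfl | rfl
      · exact Subgroup.subset_closure (by simp)
      · exact Subgroup.subset_closure (by simp)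
    | one => rw [map_one]; exact Subgroup.one_mem _
    | mul x y _ _ hx hy => rw [map_mul]; exact Subgroup.mul_mem _ hx hy
    | inv x _ hx => rw [map_inv]; exact Subgroup.inv_mem _ hx
  have h3 := h2 _ h1
  have e : T.1 ((T⁻¹).1 x) = x := by
    show T.1 ((T.1)⁻¹ x) = x
    simp
  rwa [e] at h3

theorem hand_value (hg : 2 ≤ g) (i : ℕ) (hi : i = 0 ∨ i = 1) (M : Subgroup (SG g n))
    (ha : sa i ∈ M) (hb : sb i ∈ M) (χ u : SG g n → ℂ) (h : CH M χ u) (y : SG g n)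
    (hy : y ∈ Hd i) : ∃ T : PMod g n, Supp T i ∧ χ (T.1 (sb i)) = χ y := by
  have hM := hand_hd_le ha hb
  obtain ⟨T, hT, hT1⟩ := hand_T i M ha hb χ u h
  have mem1 : ∀ {S : PMod g n}, Supp S i → S.1 (sa i) ∈ M := fun hS =>
    hM ((hS.2 _).1 (hand_sa_mem_hd i))
  have mem2 : ∀ {S : PMod g n}, Supp S i → S.1 (sb i) ∈ M := fun hS =>
    hM ((hS.2 _).1 (hand_sb_mem_hd i))
  obtain ⟨A, hA, hA1, hA2, hA3, hA4⟩ := hand_exA (g := g) (n := n) i
  have hs0 : χ (T.1 (sa i)) ≠ 0 := h.ne_zero (mem1 hT)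
  have hk : ∀ k : ℤ, ∃ S : PMod g n, Supp S i ∧ χ (S.1 (sa i)) = χ (T.1 (sa i)) ∧
      χ (S.1 (sb i)) = χ (T.1 (sa i)) ^ k := by
    intro k
    induction k using Int.induction_on with
    | zero => exact ⟨T, hT, rfl, by rw [hT1, zpow_zero]⟩
    | succ k ih =>
      obtain ⟨S, hS, h1, h2⟩ := ih
      refine ⟨S * A, hS.hand_mul hA, by rw [act_mul, hA1, h1], ?_⟩
      rw [act_mul, hA2, map_mul, h.mul _ (mem2 hS) _ (mem1 hS), h1, h2, zpow_add_one₀ hs0]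
    | pred k ih =>
      obtain ⟨S, hS, h1, h2⟩ := ih
      refine ⟨S * A⁻¹, hS.hand_mul hA.hand_inv, by rw [act_mul, hA3, h1], ?_⟩
      rw [act_mul, hA4, map_mul, map_inv, h.mul _ (mem2 hS) _ (M.inv_mem (mem1 hS)),
        h.inv (mem1 hS), h1, h2, zpow_sub_one₀ hs0]
  have hval : y ∈ M ∧ ∃ k : ℤ, χ y = χ (T.1 (sa i)) ^ k := by
    have h1 := hand_hd_eq hT y hy
    clear hy
    induction h1 using Subgroup.closure_induction with
    | mem x hx =>
      rcases hx with rfl | rfl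
      · exact ⟨mem1 hT, 1, by rw [zpow_one]⟩
      · exact ⟨mem2 hT, 0, by rw [hT1, zpow_zero]⟩
    | one => exact ⟨M.one_mem, 0, by rw [h.one, zpow_zero]⟩
    | mul x y _ _ hx hy =>
      obtain ⟨hx1, k, hx2⟩ := hx
      obtain ⟨hy1, l, hy2⟩ := hy
      exact ⟨M.mul_mem hx1 hy1, k + l, by rw [h.mul _ hx1 _ hy1, hx2, hy2, zpow_add₀ hs0]⟩
    | inv x _ hx =>
      obtain ⟨hx1, k, hx2⟩ := hx
      exact ⟨M.inv_mem hx1, -k, by rw [h.inv hx1, hx2, zpow_neg]⟩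
  obtain ⟨-, k, hk2⟩ := hval
  obtain ⟨S, hS, -, h2⟩ := hk k
  exact ⟨S, hS, by rw [h2, hk2]⟩

theorem hand_principal (hg : 2 ≤ g) (i : ℕ) (hi : i = 0 ∨ i = 1) (M : Subgroup (SG g n))
    (ha : sa i ∈ M) (hb : sb i ∈ M) (χ u : SG g n → ℂ) (h : CH M χ u) :
    ∃ v : ℂ, ∀ x ∈ Hd i, u x = (χ x - 1) * v := by
  have hM := hand_hd_le ha hb
  obtain ⟨T, hT, hT1⟩ := hand_T i M ha hb χ u h
  have hsa : IsS (sa i : SG g n) := by
    rcases hi with rfl | rfl
    · exact isS_a0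
    · exact isS_a1 hg
  have hsb : IsS (sb i : SG g n) := by
    rcases hi with rfl | rfl
    · exact isS_b0
    · exact isS_b1 hg
  have m1 : T.1 (sa i) ∈ M := hM ((hT.2 _).1 (hand_sa_mem_hd i))
  have m2 : T.1 (sb i) ∈ M := hM ((hT.2 _).1 (hand_sb_mem_hd i))
  have hu2 : u (T.1 (sb i)) = 0 := h.van _ m2 (hsb.act T) hT1
  have hex : ∃ v : ℂ, u (T.1 (sa i)) = (χ (T.1 (sa i)) - 1) * v := by
    by_cases hc : χ (T.1 (sa i)) = 1
    · exact ⟨0, by rw [h.van _ m1 (hsa.act T) hc, mul_zero]⟩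
    · refine ⟨u (T.1 (sa i)) / (χ (T.1 (sa i)) - 1), ?_⟩
      rw [mul_div_cancel₀]
      exact sub_ne_zero.2 hc
  obtain ⟨v, hv⟩ := hex
  refine ⟨v, fun x hx => ?_⟩
  refine (h.closure_le v (s := {T.1 (sa i), T.1 (sb i)}) ?_ x (hand_hd_eq hT x hx)).2
  rintro z (rfl | rfl)
  · exact ⟨m1, hv⟩
  · exact ⟨m2, by rw [hu2, hT1, sub_self, zero_mul]⟩

end Pool.Agent.PWI
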