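import Pool.Agent.PWI.Foot
import Pool.Agent.PWI.Hand

/-!
# PWI module CASE1: all conjugates of handle 0 have trivial character

`M` normal, `a_0, b_0 ∈ M`, `χ (z a_0 z⁻¹) = χ (z b_0 z⁻¹) = 1` for all `z`.  Then `u` is principal.

Proof. (1) `z a_0 z⁻¹`, `z b_0 z⁻¹` are simple (`isS_a0`, `isS_b0`, `IsS.conj`) with `χ = 1`, so
`u = 0` on them (`van`).  Hence on `R1` (closure of the conjugates of `b_0`) `χ = 1`, `u = 0`, and
`u (x r) = u x`, `χ (x r) = χ x` for `x ∈ M`, `r ∈ R1`.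
(2) Let `x ∈ M ∩ Zc 0` with `χ x = 1`.  With `T` from `foot`: `T a_0 = a_0 x r`, `r ∈ R1`;
`T a_0` is simple, in `M`, `χ = 1`; so `0 = u (T a_0) = u (a_0 x) = u a_0 + u x = u x`.
(3) `u` is principal on `N := M ∩ Zc 0`: if `χ = 1` on `N`, `v = 0` works.  Otherwise pick `y ∈ N`
with `χ y ≠ 1`, `v := u y / (χ y - 1)`.  For `x ∈ N`, the commutator `x y x⁻¹ y⁻¹ ∈ N` has `χ = 1`, so
`u (x y) = u (y x)` (`u (x y) = u ([x,y] y x) = u [x,y] + u (y x)`), i.e.
`u x + χ x u y = u y + χ y u x`, i.e. `(χ y - 1) u x = (χ x - 1) u y`.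
(4) Let `L` be the set of `x ∈ M` with `u x = (χ x - 1) v`; a subgroup (`CH.closure_le`).  It
contains `N` and all `y w y⁻¹`, `y ∈ Zc 0`, `w ∈ {a_0, b_0}` (`u = 0`, `χ = 1`).
`L₀ :=` closure of `N` and these elements; it is normalised by `Zc 0`.  The set `L₀ * Zc 0` is a
subgroup containing all generators (`closure_gens`), so it is everything
(`Subgroup.mul_mem_sup`, `Subgroup.sup_eq_closure`, or show by closure induction that every
element of the group is `l * z` with `l ∈ L₀`, `z ∈ Zc 0`).  For `x ∈ M`, `x = l z`,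
`z = l⁻¹ x ∈ M ∩ Zc 0 = N ≤ L₀`, so `x ∈ L₀ ≤ L`.
-/

namespace Pool.Agent.PWI

variable {g n : ℕ}

theorem case1 (hg : 2 ≤ g) (M : Subgroup (SG g n)) [M.Normal] (ha0 : sa 0 ∈ M) (hb0 : sb 0 ∈ M)
    (χ u : SG g n → ℂ) (h : CH M χ u)
    (ht : ∀ z, χ (z * sa 0 * z⁻¹) = 1 ∧ χ (z * sb 0 * z⁻¹) = 1) : Pr M χ u := by
  have hM : M.Normal := inferInstance
  -- the normal closure of `b_0`
  have hR : ∀ r ∈ (R1 : Subgroup (SG g n)), r ∈ M ∧ χ r = 1 ∧ u r = 0 := by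
    intro r hr
    unfold R1 Subgroup.normalClosure at hr
    induction hr using Subgroup.closure_induction with
    | mem x hx =>
      obtain ⟨y, hy, hyx⟩ := Group.mem_conjugatesOfSet_iff.1 hx
      rw [Set.mem_singleton_iff] at hy
      subst hy
      obtain ⟨z, rfl⟩ := isConj_iff.1 hyx
      exact ⟨hM.conj_mem _ hb0 z, (ht z).2,
        h.van _ (hM.conj_mem _ hb0 z) (isS_b0.conj z) (ht z).2⟩
    | one => exact ⟨M.one_mem, h.one, h.u_one⟩
    | mul x y _ _ hx hy =>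
      refine ⟨M.mul_mem hx.1 hy.1, ?_, ?_⟩
      · rw [h.mul _ hx.1 _ hy.1, hx.2.1, hy.2.1, one_mul]
      · rw [h.cro _ hx.1 _ hy.1, hx.2.2, hy.2.2, mul_zero, add_zero]
    | inv x _ hx =>
      refine ⟨M.inv_mem hx.1, ?_, ?_⟩
      · rw [h.inv hx.1, hx.2.1, inv_one]
      · rw [h.u_inv hx.1, hx.2.2, mul_zero, neg_zero]
  have hχa : χ (sa 0) = 1 := by
    have := (ht 1).1
    rwa [one_mul, inv_one, mul_one] at this
  have hχb : χ (sb 0) = 1 := by
    have := (ht 1).2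
    rwa [one_mul, inv_one, mul_one] at this
  have hua : u (sa 0) = 0 := h.van _ ha0 isS_a0 hχa
  -- step 2
  have h2 : ∀ x ∈ M, x ∈ Zc 0 → χ x = 1 → u x = 0 := by
    intro x hx hxZ hx1
    obtain ⟨T, hT, -⟩ := foot hg x hxZ
    obtain ⟨r1, r2, r3⟩ := hR _ hT
    have e : T.1 (sa 0) = sa 0 * x * ((sa 0 * x)⁻¹ * T.1 (sa 0)) := by group
    have m1 : sa 0 * x ∈ M := M.mul_mem ha0 hx
    have m2 : T.1 (sa 0) ∈ M := by rw [e]; exact M.mul_mem m1 r1
    have c1 : χ (sa 0 * x) = 1 := by rw [h.mul _ ha0 _ hx, hχa, hx1, one_mul]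
    have c2 : χ (T.1 (sa 0)) = 1 := by rw [e, h.mul _ m1 _ r1, c1, r2, one_mul]
    have c3 := h.van _ m2 (isS_a0.act T) c2
    rw [e, h.cro _ m1 _ r1, r3, mul_zero, add_zero, h.cro _ ha0 _ hx, hua, hχa, zero_add,
      one_mul] at c3
    exact c3
  -- step 3
  have h3 : ∃ v : ℂ, ∀ x ∈ M, x ∈ Zc 0 → u x = (χ x - 1) * v := by
    by_cases hall : ∀ x ∈ M, x ∈ Zc 0 → χ x = 1
    · exact ⟨0, fun x hx hxZ => by rw [h2 x hx hxZ (hall x hx hxZ), mul_zero]⟩
    · push Not at hall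
      obtain ⟨y, hy, hyZ, hy1⟩ := hall
      have hne : χ y - 1 ≠ 0 := sub_ne_zero.2 hy1
      refine ⟨u y / (χ y - 1), fun x hx hxZ => ?_⟩
      have hc := h2 (x * y * x⁻¹ * y⁻¹)
        (M.mul_mem (M.mul_mem (M.mul_mem hx hy) (M.inv_mem hx)) (M.inv_mem hy))
        (Subgroup.mul_mem _ (Subgroup.mul_mem _ (Subgroup.mul_mem _ hxZ hyZ)
          (Subgroup.inv_mem _ hxZ)) (Subgroup.inv_mem _ hyZ))
        (by
          rw [h.mul _ (M.mul_mem (M.mul_mem hx hy) (M.inv_mem hx)) _ (M.inv_mem hy),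
            h.chi_conj hx hy, h.inv hy]
          exact mul_inv_cancel₀ (h.ne_zero hy))
      rw [h.cro _ (M.mul_mem (M.mul_mem hx hy) (M.inv_mem hx)) _ (M.inv_mem hy),
        h.chi_conj hx hy, h.u_conj hx hy, h.u_inv hy] at hc
      have hy0 := h.ne_zero hy
      rw [eq_comm, mul_div_assoc', div_eq_iff hne]
      have e : χ y * -((χ y)⁻¹ * u y) = - u y := by field_simp
      rw [e] at hc
      linear_combination hc
  obtain ⟨v, hv⟩ := h3
  -- step 4
  let G0 : Set (SG g n) := {x | x ∈ M ∧ x ∈ Zc 0} ∪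
    {x | ∃ y ∈ (Zc 0 : Subgroup (SG g n)), x = y * sa 0 * y⁻¹ ∨ x = y * sb 0 * y⁻¹}
  have hG0 : ∀ x ∈ G0, x ∈ M ∧ u x = (χ x - 1) * v := by
    rintro x (⟨hx, hxZ⟩ | ⟨y, hy, rfl | rfl⟩)
    · exact ⟨hx, hv x hx hxZ⟩
    · refine ⟨hM.conj_mem _ ha0 y, ?_⟩
      rw [(ht y).1, h.van _ (hM.conj_mem _ ha0 y) (isS_a0.conj y) (ht y).1, sub_self, zero_mul]
    · refine ⟨hM.conj_mem _ hb0 y, ?_⟩
      rw [(ht y).2, h.van _ (hM.conj_mem _ hb0 y) (isS_b0.conj y) (ht y).2, sub_self, zero_mul]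
  have hL := h.closure_le v hG0
  have hnorm : ∀ z ∈ (Zc 0 : Subgroup (SG g n)), ∀ l ∈ Subgroup.closure G0,
      z * l * z⁻¹ ∈ Subgroup.closure G0 := by
    intro z hz l hl
    induction hl using Subgroup.closure_induction with
    | mem x hx =>
      apply Subgroup.subset_closure
      rcases hx with ⟨hx, hxZ⟩ | ⟨y, hy, rfl | rfl⟩
      · exact Or.inl ⟨hM.conj_mem _ hx z, Subgroup.mul_mem _ (Subgroup.mul_mem _ hz hxZ)
          (Subgroup.inv_mem _ hz)⟩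
      · exact Or.inr ⟨z * y, Subgroup.mul_mem _ hz hy, Or.inl (by group)⟩
      · exact Or.inr ⟨z * y, Subgroup.mul_mem _ hz hy, Or.inr (by group)⟩
    | one => rw [mul_one, mul_inv_cancel]; exact Subgroup.one_mem _
    | mul x y _ _ hx hy =>
      have e : z * (x * y) * z⁻¹ = (z * x * z⁻¹) * (z * y * z⁻¹) := by group
      rw [e]
      exact Subgroup.mul_mem _ hx hy
    | inv x _ hx =>
      have e : z * x⁻¹ * z⁻¹ = (z * x * z⁻¹)⁻¹ := by group
      rw [e]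
      exact Subgroup.inv_mem _ hx
  have hall : ∀ x : SG g n, ∃ l ∈ Subgroup.closure G0, ∃ z ∈ (Zc 0 : Subgroup (SG g n)),
      x = l * z := by
    intro x
    have hx : x ∈ Subgroup.closure ({x : SG g n | ∃ k, x = sa k ∨ x = sb k} ∪ Set.range sz) := by
      rw [closure_gens]
      exact Subgroup.mem_top x
    induction hx using Subgroup.closure_induction with
    | mem x hx =>
      rcases hx with ⟨k, hk⟩ | ⟨j, rfl⟩
      · by_cases hk0 : k = 0
        · subst hk0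
          refine ⟨x, Subgroup.subset_closure (Or.inr ⟨1, Subgroup.one_mem _, ?_⟩), 1,
            Subgroup.one_mem _, by rw [mul_one]⟩
          rcases hk with rfl | rfl
          · left; group
          · right; group
        · refine ⟨1, Subgroup.one_mem _, x, Subgroup.subset_closure (Or.inl ⟨k, hk0, hk⟩),
            by rw [one_mul]⟩
      · exact ⟨1, Subgroup.one_mem _, sz j, Subgroup.subset_closure (Or.inr ⟨j, rfl⟩),
          by rw [one_mul]⟩
    | one => exact ⟨1, Subgroup.one_mem _, 1, Subgroup.one_mem _, by rw [one_mul]⟩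
    | mul x y _ _ hx hy =>
      obtain ⟨l, hl, z, hz, rfl⟩ := hx
      obtain ⟨l', hl', z', hz', rfl⟩ := hy
      refine ⟨l * (z * l' * z⁻¹), Subgroup.mul_mem _ hl (hnorm z hz l' hl'), z * z',
        Subgroup.mul_mem _ hz hz', by group⟩
    | inv x _ hx =>
      obtain ⟨l, hl, z, hz, rfl⟩ := hx
      refine ⟨z⁻¹ * l⁻¹ * z⁻¹⁻¹, hnorm _ (Subgroup.inv_mem _ hz) _ (Subgroup.inv_mem _ hl), z⁻¹,
        Subgroup.inv_mem _ hz, by group⟩
  refine ⟨v, fun x hx => ?_⟩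
  obtain ⟨l, hl, z, hz, rfl⟩ := hall x
  have hz' : z ∈ M := by
    have := M.mul_mem (M.inv_mem (hL l hl).1) hx
    rwa [inv_mul_cancel_left] at this
  exact (hL _ (Subgroup.mul_mem _ hl (Subgroup.subset_closure (Or.inl ⟨hz', hz⟩)))).2

end Pool.Agent.PWI
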