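import Pool.Agent.PWI.Base

/-!
# PWI: internal definitions and easy facts
-/

namespace Pool.Agent.PWI

variable {g n : ℕ}

/-- `T` fixes all `z_j` and all `a_k, b_k` with `k` outside `s`. -/
def Fixes (T : PMod g n) (s : Set ℕ) : Prop :=
  (∀ k, k ∉ s → T.1 (sa k) = sa k ∧ T.1 (sb k) = sb k) ∧ ∀ j, T.1 (sz j) = sz j

/-- Nonseparating simple closed curves: the orbit of `a_0`. -/
def IsS (x : SG g n) : Prop := ∃ T : PMod g n, x = T.1 (sa 0)

/-- The subgroup generated by handle `i`. -/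
def Hd (i : ℕ) : Subgroup (SG g n) := Subgroup.closure {sa i, sb i}

/-- The subgroup generated by all generators outside handle `i`. -/
def Zc (i : ℕ) : Subgroup (SG g n) :=
  Subgroup.closure ({x | ∃ k, k ≠ i ∧ (x = sa k ∨ x = sb k)} ∪ Set.range sz)

/-- The subgroup generated by all generators outside handles `0` and `1`. -/
def Zd : Subgroup (SG g n) :=
  Subgroup.closure ({x | ∃ k, 2 ≤ k ∧ (x = sa k ∨ x = sb k)} ∪ Set.range sz)

/-- The subgroup generated by the first `m` handles. -/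
def Wd (m : ℕ) : Subgroup (SG g n) :=
  Subgroup.closure {x | ∃ k, k < m ∧ (x = sa k ∨ x = sb k)}

/-- `T` is supported on handle `i`. -/
def Supp (T : PMod g n) (i : ℕ) : Prop :=
  Fixes T {i} ∧ ∀ x, x ∈ Hd i ↔ T.1 x ∈ Hd i

/-- A character `χ` of finite order on `M` together with a crossed homomorphism `u` for it,
vanishing on nonseparating simple closed curves in the kernel of `χ`. -/
structure CH (M : Subgroup (SG g n)) (χ u : SG g n → ℂ) : Prop where
  one : χ 1 = 1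
  mul : ∀ x ∈ M, ∀ y ∈ M, χ (x * y) = χ x * χ y
  tor : ∃ N : ℕ, 0 < N ∧ ∀ x ∈ M, χ x ^ N = 1
  cro : ∀ x ∈ M, ∀ y ∈ M, u (x * y) = u x + χ x * u y
  van : ∀ x ∈ M, IsS x → χ x = 1 → u x = 0

/-- `u` is principal on `M`. -/
def Pr (M : Subgroup (SG g n)) (χ u : SG g n → ℂ) : Prop :=
  ∃ v : ℂ, ∀ x ∈ M, u x = (χ x - 1) * v

theorem push_apply (x y : SG g n) : (push x).1 y = x * y * x⁻¹ := rfl

theorem IsS.act {x : SG g n} (h : IsS x) (T : PMod g n) : IsS (T.1 x) := by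
  obtain ⟨S, rfl⟩ := h
  exact ⟨T * S, rfl⟩

theorem IsS.conj {x : SG g n} (h : IsS x) (y : SG g n) : IsS (y * x * y⁻¹) := by
  have := h.act (push y)
  rwa [push_apply] at this

theorem isS_a0 : IsS (sa 0 : SG g n) := ⟨1, rfl⟩

theorem Fixes.mul {S T : PMod g n} {s : Set ℕ} (hS : Fixes S s) (hT : Fixes T s) :
    Fixes (S * T) s := by
  refine ⟨fun k hk => ⟨?_, ?_⟩, fun j => ?_⟩
  · show S.1 (T.1 (sa k)) = sa k
    rw [(hT.1 k hk).1, (hS.1 k hk).1]
  · show S.1 (T.1 (sb k)) = sb k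
    rw [(hT.1 k hk).2, (hS.1 k hk).2]
  · show S.1 (T.1 (sz j)) = sz j
    rw [hT.2, hS.2]

theorem act_inv_eq {T : PMod g n} {x y : SG g n} (h : T.1 x = y) : (T⁻¹).1 y = x := by
  rw [← h]
  show (T.1)⁻¹ (T.1 x) = x
  simp

theorem Fixes.inv {T : PMod g n} {s : Set ℕ} (hT : Fixes T s) : Fixes T⁻¹ s :=
  ⟨fun k hk => ⟨act_inv_eq (hT.1 k hk).1, act_inv_eq (hT.1 k hk).2⟩,
    fun j => act_inv_eq (hT.2 j)⟩

/-- Change of coordinates by a mapping class. -/
theorem CH.comap {M : Subgroup (SG g n)} {χ u : SG g n → ℂ} (h : CH M χ u) (T : PMod g n) :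
    CH (M.comap (T.1 : SG g n →* SG g n)) (fun x => χ (T.1 x)) (fun x => u (T.1 x)) where
  one := by simp [h.one]
  mul := by
    intro x hx y hy
    simp only [map_mul]
    exact h.mul _ hx _ hy
  tor := by
    obtain ⟨N, hN, hN'⟩ := h.tor
    exact ⟨N, hN, fun x hx => hN' _ hx⟩
  cro := by
    intro x hx y hy
    simp only [map_mul]
    exact h.cro _ hx _ hy
  van := fun x hx hs h1 => h.van _ hx (hs.act T) h1

/-- Conjugation of a crossed homomorphism by an element of the surface group. -/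
theorem CH.conj {M : Subgroup (SG g n)} [hM : M.Normal] {χ u : SG g n → ℂ} (h : CH M χ u)
    (z : SG g n) : CH M (fun x => χ (z * x * z⁻¹)) (fun x => u (z * x * z⁻¹)) where
  one := by simp [h.one]
  mul := by
    intro x hx y hy
    have e : z * (x * y) * z⁻¹ = (z * x * z⁻¹) * (z * y * z⁻¹) := by group
    simp only [e]
    exact h.mul _ (hM.conj_mem _ hx z) _ (hM.conj_mem _ hy z)
  tor := by
    obtain ⟨N, hN, hN'⟩ := h.tor
    exact ⟨N, hN, fun x hx => hN' _ (hM.conj_mem _ hx z)⟩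
  cro := by
    intro x hx y hy
    have e : z * (x * y) * z⁻¹ = (z * x * z⁻¹) * (z * y * z⁻¹) := by group
    simp only [e]
    exact h.cro _ (hM.conj_mem _ hx z) _ (hM.conj_mem _ hy z)
  van := fun x hx hs h1 => h.van _ (hM.conj_mem _ hx z) (hs.conj z) h1

/-- Subtracting a principal crossed homomorphism. -/
theorem CH.sub {M : Subgroup (SG g n)} {χ u : SG g n → ℂ} (h : CH M χ u) (v : ℂ) :
    CH M χ (fun x => u x - (χ x - 1) * v) where
  one := h.one
  mul := h.mul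
  tor := h.tor
  cro := by
    intro x hx y hy
    simp only [h.cro x hx y hy, h.mul x hx y hy]
    ring
  van := by
    intro x hx hs h1
    simp [h.van x hx hs h1, h1]

theorem CH.ne_zero {M : Subgroup (SG g n)} {χ u : SG g n → ℂ} (h : CH M χ u) {x : SG g n}
    (hx : x ∈ M) : χ x ≠ 0 := by
  obtain ⟨N, hN, hN'⟩ := h.tor
  intro h0
  have := hN' x hx
  rw [h0, zero_pow hN.ne'] at this
  exact zero_ne_one this

theorem CH.u_one {M : Subgroup (SG g n)} {χ u : SG g n → ℂ} (h : CH M χ u) : u 1 = 0 := by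
  have := h.cro 1 M.one_mem 1 M.one_mem
  rw [h.one] at this
  simpa using this

theorem CH.inv {M : Subgroup (SG g n)} {χ u : SG g n → ℂ} (h : CH M χ u) {x : SG g n}
    (hx : x ∈ M) : χ x⁻¹ = (χ x)⁻¹ := by
  have := h.mul x⁻¹ (M.inv_mem hx) x hx
  rw [inv_mul_cancel, h.one] at this
  exact eq_inv_of_mul_eq_one_left this.symm

theorem CH.u_inv {M : Subgroup (SG g n)} {χ u : SG g n → ℂ} (h : CH M χ u) {x : SG g n}
    (hx : x ∈ M) : u x⁻¹ = -((χ x)⁻¹ * u x) := by
  have := h.cro x⁻¹ (M.inv_mem hx) x hx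
  rw [inv_mul_cancel, h.u_one, h.inv hx] at this
  linear_combination -this

/-- `u (x y x⁻¹) = (1 - χ y) u x + χ x u y`. -/
theorem CH.u_conj {M : Subgroup (SG g n)} {χ u : SG g n → ℂ} (h : CH M χ u) {x y : SG g n}
    (hx : x ∈ M) (hy : y ∈ M) : u (x * y * x⁻¹) = (1 - χ y) * u x + χ x * u y := by
  rw [h.cro _ (M.mul_mem hx hy) _ (M.inv_mem hx), h.cro _ hx _ hy, h.mul _ hx _ hy, h.u_inv hx]
  have := h.ne_zero hx
  field_simp
  ring

theorem CH.chi_conj {M : Subgroup (SG g n)} {χ u : SG g n → ℂ} (h : CH M χ u) {x y : SG g n}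
    (hx : x ∈ M) (hy : y ∈ M) : χ (x * y * x⁻¹) = χ y := by
  rw [h.mul _ (M.mul_mem hx hy) _ (M.inv_mem hx), h.mul _ hx _ hy, h.inv hx]
  have := h.ne_zero hx
  field_simp

/-- The set of elements of `M` on which `u` is `(χ - 1) v` is a subgroup. -/
theorem CH.closure_le {M : Subgroup (SG g n)} {χ u : SG g n → ℂ} (h : CH M χ u) (v : ℂ)
    {s : Set (SG g n)} (hs : ∀ x ∈ s, x ∈ M ∧ u x = (χ x - 1) * v) :
    ∀ x ∈ Subgroup.closure s, x ∈ M ∧ u x = (χ x - 1) * v := by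
  intro x hx
  induction hx using Subgroup.closure_induction with
  | mem x hx => exact hs x hx
  | one => exact ⟨M.one_mem, by simp [h.u_one, h.one]⟩
  | mul x y _ _ hx hy =>
    refine ⟨M.mul_mem hx.1 hy.1, ?_⟩
    rw [h.cro _ hx.1 _ hy.1, h.mul _ hx.1 _ hy.1, hx.2, hy.2]
    ring
  | inv x _ hx =>
    refine ⟨M.inv_mem hx.1, ?_⟩
    rw [h.u_inv hx.1, h.inv hx.1, hx.2]
    have := h.ne_zero hx.1
    field_simp
    ring

theorem closure_gens : (Subgroup.closure ({x | ∃ k, x = sa k ∨ x = sb k} ∪ Set.range sz) :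
    Subgroup (SG g n)) = ⊤ := by
  rw [eq_top_iff, ← PresentedGroup.closure_range_of ({rel g n} : Set (FreeGroup (Gen g n)))]
  apply Subgroup.closure_mono
  rintro x ⟨y, rfl⟩
  cases y with
  | a i => exact Or.inl ⟨i, Or.inl (by simp [sa])⟩
  | b i => exact Or.inl ⟨i, Or.inr (by simp [sb])⟩
  | z j => exact Or.inr ⟨j, by simp [sz]⟩

end Pool.Agent.PWI
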