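import Pool.Agent.PWI.Defs

/-!
# PWI module DESC: from automorphisms of the free group fixing the surface word to PMod

Let `FG = FreeGroup (Gen g n)`.  An automorphism `θ` of `FG` with `θ rel = rel` maps the normal
closure of `rel` onto itself, so it descends to an automorphism of `SG g n`.

Proof. The normal closure `N` of `{rel}` satisfies `N.map θ = N`: `Subgroup.map_normalClosure`
(θ surjective) gives `N.map θ = normalClosure (θ '' {rel}) = N`.  Use
`QuotientGroup.congr N N θ h : FG ⧸ N ≃* FG ⧸ N` (SG g n is by definition this quotient,
`PresentedGroup rels = FreeGroup α ⧸ Subgroup.normalClosure rels`), or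
`PresentedGroup.toGroup` twice.  Multiplicativity in `θ` is checked on `PresentedGroup.mk`.
-/

namespace Pool.Agent.PWI

variable {g n : ℕ}

/-- Automorphisms of the free group fixing the surface word. -/
def StF (g n : ℕ) : Subgroup (MulAut (FreeGroup (Gen g n))) where
  carrier := {θ | θ (rel g n) = rel g n}
  one_mem' := rfl
  mul_mem' := by
    intro S T hS hT
    show S (T (rel g n)) = rel g n
    rw [show T (rel g n) = rel g n from hT]; exact hS
  inv_mem' := by
    intro T hT
    show T⁻¹ (rel g n) = rel g n
    conv_lhs => rw [← show T (rel g n) = rel g n from hT]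
    simp

theorem desc_exists (g n : ℕ) : ∃ D : StF g n →* MulAut (SG g n),
    ∀ (θ : StF g n) (x : FreeGroup (Gen g n)),
      D θ (PresentedGroup.mk _ x) = PresentedGroup.mk _ (θ.1 x) := by
  let N : Subgroup (FreeGroup (Gen g n)) := Subgroup.normalClosure {rel g n}
  have hN : ∀ θ : StF g n, N ≤ N.comap ((θ.1 : MulAut (FreeGroup (Gen g n))) :
      FreeGroup (Gen g n) →* FreeGroup (Gen g n)) := by
    intro θ
    apply Subgroup.normalClosure_le_normal
    intro x hx
    rw [Set.mem_singleton_iff] at hx
    subst hx
    show θ.1 (rel g n) ∈ N
    rw [show θ.1 (rel g n) = rel g n from θ.2]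
    exact Subgroup.subset_normalClosure rfl
  let m : StF g n → (SG g n →* SG g n) := fun θ =>
    QuotientGroup.map N N ((θ.1 : MulAut (FreeGroup (Gen g n))) :
      FreeGroup (Gen g n) →* FreeGroup (Gen g n)) (hN θ)
  have hm : ∀ θ x, m θ (PresentedGroup.mk _ x) = PresentedGroup.mk _ (θ.1 x) := fun θ x => rfl
  have hsurj : ∀ y : SG g n, ∃ x, PresentedGroup.mk _ x = y :=
    PresentedGroup.mk_surjective _
  have hcomp : ∀ (θ η : StF g n) (y : SG g n), m θ (m η y) = m (θ * η) y := by
    intro θ η y
    obtain ⟨x, rfl⟩ := hsurj y
    rw [hm, hm, hm]; rfl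
  have hone : ∀ y : SG g n, m 1 y = y := by
    intro y
    obtain ⟨x, rfl⟩ := hsurj y
    rw [hm]; rfl
  refine ⟨{ toFun := fun θ =>
              { toFun := m θ
                invFun := m θ⁻¹
                left_inv := fun y => by rw [hcomp, inv_mul_cancel, hone]
                right_inv := fun y => by rw [hcomp, mul_inv_cancel, hone]
                map_mul' := (m θ).map_mul }
            map_one' := by
              apply MulEquiv.ext
              intro y
              exact hone y
            map_mul' := by
              intro θ η
              apply MulEquiv.ext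
              intro y
              exact (hcomp θ η y).symm }, ?_⟩
  intro θ x
  exact hm θ x

end Pool.Agent.PWI
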