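import Mathlib

/-!
# PWI module EUCZ: Euclid for handles (integers only, Mathlib only)

States are functions `v : ℕ → ℤ × ℤ` (only the entries `i < m` matter).  Moves:
* `A i k`: `(x_i, y_i) → (x_i, y_i + k x_i)` for any integer `k`;
* `B i k`: `(x_i, y_i) → (x_i - k y_i, y_i)`;
* `C i` (`i + 1 < m`): `x_i → x_i - y_(i+1) + y_i`, `x_(i+1) → x_(i+1) + y_(i+1) - y_i`.
Claim: from every state one reaches a state with `(x_i, y_i) = (0, 0)` for all `i + 1 < m`.

Proof. Notation `(x, y), (x', y')` for the handles `i, i + 1`.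
(a) One handle: from `(x, y)` one reaches `(x', 0)` for some `x'` by `A i, B i` (Euclid, strong
induction on `|y|`: if `y ≠ 0` make `0 ≤ x < |y|` with `B`; if `x = 0`: `B` with `k = -1` gives
`(y, y)`, `A` with `k = -1` gives `(y, 0)`; if `x > 0` make `0 ≤ y < x` with `A`, smaller).
From `(x, 0)` one reaches `(0, x)` (`A 1`: `(x, x)`; `B 1`: `(0, x)`), from `(0, y)` one reaches
`(y, 0)` (`B (-1)`: `(y, y)`, `A (-1)`: `(y, 0)`), and from `(0, y)` one reaches `(0, -y)`:
`(0, y) → B (-1): (y, y) → A (-2): (y, -y) → B (-1): (0, -y)`.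
(b) Two handles `(x, 0), (0, y')`.  `C i` then `B (i+1) 1`:
`(x - y', 0), (y', y') → (x - y', 0), (0, y')`.  So `x → x - y'`.  With sign change of `y'` before
and after: `x → x + y'`.  Hence `x → x + k y'` for all integers `k`.
Rotating both: `(0, x), (y', 0)`.  `C i`: `(x, x), (y' - x, 0)`; `B i 1`: `(0, x), (y' - x, 0)`.
Rotating back: `y' → y' - x` (and with a sign change of `x`, `y' → y' + x`), so `y' → y' + k x`.
Euclid on `(x, y')` (induction on `|x|`): one reaches `x = 0`, i.e. `(0, 0), (0, y'')`.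
(c) Induction on `i = 0, 1, ..., m - 2`: kill handle `i` with the help of handle `i + 1`; the
killed handles `< i` are not touched by the moves `A, B` on `i, i + 1` and `C i`.
-/

namespace Pool.Agent.PWI

/-- States reachable by the moves `A, B, C` on the first `m` handles. -/
inductive Reach (m : ℕ) (v : ℕ → ℤ × ℤ) : (ℕ → ℤ × ℤ) → Prop
  | refl : Reach m v v
  | moveA (w : ℕ → ℤ × ℤ) (i : ℕ) (hi : i < m) (k : ℤ) : Reach m v w →
      Reach m v (Function.update w i ((w i).1, (w i).2 + k * (w i).1))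
  | moveB (w : ℕ → ℤ × ℤ) (i : ℕ) (hi : i < m) (k : ℤ) : Reach m v w →
      Reach m v (Function.update w i ((w i).1 - k * (w i).2, (w i).2))
  | moveC (w : ℕ → ℤ × ℤ) (i : ℕ) (hi : i + 1 < m) : Reach m v w →
      Reach m v (Function.update (Function.update w i
        ((w i).1 - (w (i + 1)).2 + (w i).2, (w i).2)) (i + 1)
        ((w (i + 1)).1 + (w (i + 1)).2 - (w i).2, (w (i + 1)).2))

/-- Predicates on one handle closed under the moves. -/
private structure Cl1 (P : ℤ → ℤ → Prop) : Prop where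
  a : ∀ x y k, P x y → P x (y + k * x)
  b : ∀ x y k, P x y → P (x - k * y) y

private theorem cl1_rot {P : ℤ → ℤ → Prop} (h : Cl1 P) {x : ℤ} (hx : P x 0) : P 0 x := by
  have h1 := h.a x 0 1 hx
  rw [one_mul, zero_add] at h1
  have h2 := h.b x x 1 h1
  rw [one_mul, sub_self] at h2
  exact h2

private theorem cl1_rot' {P : ℤ → ℤ → Prop} (h : Cl1 P) {y : ℤ} (hy : P 0 y) : P y 0 := by
  have h1 := h.b 0 y (-1) hy
  rw [show (0 : ℤ) - -1 * y = y by ring] at h1
  have h2 := h.a y y (-1) h1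
  rw [show y + -1 * y = 0 by ring] at h2
  exact h2

private theorem cl1_neg {P : ℤ → ℤ → Prop} (h : Cl1 P) {y : ℤ} (hy : P 0 y) : P 0 (-y) := by
  have h1 := h.b 0 y (-1) hy
  rw [show (0 : ℤ) - -1 * y = y by ring] at h1
  have h2 := h.a y y (-2) h1
  rw [show y + -2 * y = -y by ring] at h2
  have h3 := h.b y (-y) (-1) h2
  rw [show y - -1 * -y = 0 by ring] at h3
  exact h3

private theorem cl1_negx {P : ℤ → ℤ → Prop} (h : Cl1 P) {x : ℤ} (hx : P x 0) : P (-x) 0 :=
  cl1_rot' h (cl1_neg h (cl1_rot h hx))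

private theorem cl1_euc {P : ℤ → ℤ → Prop} (h : Cl1 P) (n : ℕ) :
    ∀ x y : ℤ, x.natAbs + y.natAbs ≤ n → P x y → ∃ g, P g 0 := by
  induction n with
  | zero =>
    intro x y hxy hP
    have hy : y = 0 := by omega
    rw [hy] at hP
    exact ⟨x, hP⟩
  | succ n ih =>
    intro x y hxy hP
    by_cases hy : y = 0
    · rw [hy] at hP
      exact ⟨x, hP⟩
    by_cases hx : x = 0
    · rw [hx] at hP
      exact ⟨y, cl1_rot' h hP⟩
    by_cases hs : (0 < x ∧ 0 < y) ∨ (x < 0 ∧ y < 0)
    · by_cases hle : y.natAbs ≤ x.natAbs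
      · refine ih _ _ ?_ (h.b x y 1 hP)
        rw [one_mul]
        omega
      · refine ih _ _ ?_ (h.a x y (-1) hP)
        rw [show y + -1 * x = y - x by ring]
        omega
    · by_cases hle : y.natAbs ≤ x.natAbs
      · refine ih _ _ ?_ (h.b x y (-1) hP)
        rw [show x - -1 * y = x + y by ring]
        omega
      · refine ih _ _ ?_ (h.a x y 1 hP)
        rw [one_mul]
        omega

/-- Predicates on two handles closed under the moves. -/
private structure Cl2 (Q : ℤ → ℤ → ℤ → ℤ → Prop) : Prop where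
  l : ∀ x' y', Cl1 fun x y => Q x y x' y'
  r : ∀ x y, Cl1 fun x' y' => Q x y x' y'
  c : ∀ x y x' y', Q x y x' y' → Q (x - y' + y) y (x' + y' - y) y'

private theorem cl2_sub {Q : ℤ → ℤ → ℤ → ℤ → Prop} (h : Cl2 Q) {x y : ℤ} (hQ : Q x 0 0 y) :
    Q (x - y) 0 0 y := by
  have h1 := h.c x 0 0 y hQ
  rw [add_zero, zero_add, sub_zero] at h1
  have h2 := (h.r (x - y) 0).b y y 1 h1
  rw [one_mul, sub_self] at h2
  exact h2

private theorem cl2_add {Q : ℤ → ℤ → ℤ → ℤ → Prop} (h : Cl2 Q) {x y : ℤ} (hQ : Q x 0 0 y) :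
    Q (x + y) 0 0 y := by
  have h1 : Q x 0 0 (-y) := cl1_neg (h.r x 0) hQ
  have h2 := cl2_sub h h1
  rw [sub_neg_eq_add] at h2
  have h3 : Q (x + y) 0 0 (- -y) := cl1_neg (h.r (x + y) 0) h2
  rw [neg_neg] at h3
  exact h3

private theorem cl2_sub' {Q : ℤ → ℤ → ℤ → ℤ → Prop} (h : Cl2 Q) {x y : ℤ} (hQ : Q x 0 0 y) :
    Q x 0 0 (y - x) := by
  have h1 : Q 0 x 0 y := cl1_rot (h.l 0 y) hQ
  have h2 : Q 0 x y 0 := cl1_rot' (h.r 0 x) h1
  have h3 := h.c 0 x y 0 h2
  rw [sub_zero, zero_add, add_zero] at h3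
  have h4 : Q (x - 1 * x) x (y - x) 0 := (h.l (y - x) 0).b x x 1 h3
  rw [one_mul, sub_self] at h4
  have h5 : Q x 0 (y - x) 0 := cl1_rot' (h.l (y - x) 0) h4
  exact cl1_rot (h.r x 0) h5

private theorem cl2_add' {Q : ℤ → ℤ → ℤ → ℤ → Prop} (h : Cl2 Q) {x y : ℤ} (hQ : Q x 0 0 y) :
    Q x 0 0 (y + x) := by
  have h1 : Q (-x) 0 0 y := cl1_negx (h.l 0 y) hQ
  have h2 := cl2_sub' h h1
  rw [sub_neg_eq_add] at h2
  have h3 : Q (- -x) 0 0 (y + x) := cl1_negx (h.l 0 (y + x)) h2
  rw [neg_neg] at h3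
  exact h3

private theorem cl2_euc {Q : ℤ → ℤ → ℤ → ℤ → Prop} (h : Cl2 Q) (n : ℕ) :
    ∀ x y : ℤ, x.natAbs + y.natAbs ≤ n → Q x 0 0 y → ∃ g, Q 0 0 0 g := by
  induction n with
  | zero =>
    intro x y hxy hP
    have hx : x = 0 := by omega
    rw [hx] at hP
    exact ⟨y, hP⟩
  | succ n ih =>
    intro x y hxy hP
    by_cases hx : x = 0
    · rw [hx] at hP
      exact ⟨y, hP⟩
    by_cases hy : y = 0
    · have h1 := cl2_add' h hP
      rw [hy, zero_add] at h1
      have h2 := cl2_sub h h1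
      rw [sub_self] at h2
      exact ⟨x, h2⟩
    by_cases hs : (0 < x ∧ 0 < y) ∨ (x < 0 ∧ y < 0)
    · by_cases hle : y.natAbs ≤ x.natAbs
      · exact ih _ _ (by omega) (cl2_sub h hP)
      · exact ih _ _ (by omega) (cl2_sub' h hP)
    · by_cases hle : y.natAbs ≤ x.natAbs
      · exact ih _ _ (by omega) (cl2_add h hP)
      · exact ih _ _ (by omega) (cl2_add' h hP)

private theorem cl2_all {Q : ℤ → ℤ → ℤ → ℤ → Prop} (h : Cl2 Q) {x y x' y' : ℤ}
    (hQ : Q x y x' y') : ∃ g, Q 0 0 0 g := by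
  obtain ⟨g, hg⟩ := cl1_euc (h.l x' y') _ x y le_rfl hQ
  obtain ⟨g', hg'⟩ := cl1_euc (h.r g 0) _ x' y' le_rfl hg
  exact cl2_euc h _ g g' le_rfl (cl1_rot (h.r g 0) hg')

private theorem eucZ_cl (m : ℕ) (v w : ℕ → ℤ × ℤ) (i : ℕ) (hi : i + 1 < m) :
    Cl2 fun x y x' y' =>
      Reach m v (Function.update (Function.update w i (x, y)) (i + 1) (x', y')) := by
  have hne : i ≠ i + 1 := by omega
  refine ⟨fun x' y' => ⟨?_, ?_⟩, fun x y => ⟨?_, ?_⟩, ?_⟩
  · intro x y k h
    have h1 := Reach.moveA _ i (by omega) k h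
    rw [Function.update_of_ne hne, Function.update_self,
      Function.update_comm hne.symm, Function.update_idem] at h1
    exact h1
  · intro x y k h
    have h1 := Reach.moveB _ i (by omega) k h
    rw [Function.update_of_ne hne, Function.update_self,
      Function.update_comm hne.symm, Function.update_idem] at h1
    exact h1
  · intro x' y' k h
    have h1 := Reach.moveA _ (i + 1) hi k h
    rw [Function.update_self, Function.update_idem] at h1
    exact h1
  · intro x' y' k h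
    have h1 := Reach.moveB _ (i + 1) hi k h
    rw [Function.update_self, Function.update_idem] at h1
    exact h1
  · intro x y x' y' h
    have h1 := Reach.moveC _ i hi h
    rw [Function.update_of_ne hne, Function.update_self, Function.update_self,
      Function.update_comm hne.symm, Function.update_idem, Function.update_idem] at h1
    exact h1

private theorem eucZ_step (m : ℕ) (v : ℕ → ℤ × ℤ) (j : ℕ) (hj : j < m) :
    ∃ w, Reach m v w ∧ ∀ i, i < j → w i = (0, 0) := by
  induction j with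
  | zero => exact ⟨v, Reach.refl, fun i hi => absurd hi (Nat.not_lt_zero i)⟩
  | succ j ih =>
    obtain ⟨w, hw, hw0⟩ := ih (by omega)
    have h1 : Reach m v (Function.update (Function.update w j ((w j).1, (w j).2)) (j + 1)
        ((w (j + 1)).1, (w (j + 1)).2)) := by
      have h2 : Function.update (Function.update w j ((w j).1, (w j).2)) (j + 1)
          ((w (j + 1)).1, (w (j + 1)).2) = w := by
        rw [Prod.mk.eta, Prod.mk.eta, Function.update_eq_self, Function.update_eq_self]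
      rw [h2]
      exact hw
    obtain ⟨g, hg⟩ := cl2_all (eucZ_cl m v w j hj) h1
    refine ⟨_, hg, fun i hi => ?_⟩
    rw [Function.update_of_ne (by omega)]
    by_cases hij : i = j
    · rw [hij, Function.update_self]
    · rw [Function.update_of_ne hij]
      exact hw0 i (by omega)

theorem eucZ (m : ℕ) (v : ℕ → ℤ × ℤ) : ∃ w, Reach m v w ∧ ∀ i, i + 1 < m → w i = (0, 0) := by
  rcases Nat.eq_zero_or_pos m with hm | hm
  · exact ⟨v, Reach.refl, fun i hi => by omega⟩
  · obtain ⟨w, hw, hw0⟩ := eucZ_step m v (m - 1) (by omega)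
    exact ⟨w, hw, fun i hi => hw0 i (by omega)⟩

end Pool.Agent.PWI
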