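import Pool.Agent.PWI.Auto
import Pool.Agent.PWI.EucZ

/-!
# PWI module EUC: a homomorphism to a cyclic group can be concentrated on the last handle

`ψ` is multiplicative on `Wd m` (the subgroup of the first `m` handles) with values in a cyclic
group `C`.  There is a mapping class `T` with `T (Wd m) ≤ Wd m` and `ψ (T a_i) = ψ (T b_i) = 1` for
all `i` with `i + 1 < m`.

Proof. Let `ρ` generate `C`, and `ψ a_i = ρ ^ x_i`, `ψ b_i = ρ ^ y_i` for `i < m`; `v i = (x_i, y_i)`.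
Claim: if `Reach m v w` then there is `T` with `T (Wd m) ≤ Wd m` and `ψ (T a_i) = ρ ^ (w i).1`,
`ψ (T b_i) = ρ ^ (w i).2` for all `i < m`.  Induction: for the moves take `T * A_i ^ k`,
`T * B_i ^ k` (`k : ℤ`; `A_i ^ k`: `a_i ↦ a_i`, `b_i ↦ b_i a_i ^ k`; `B_i ^ k`: `a_i ↦ a_i b_i ^ (-k)`,
others fixed) and `T * C_i` from `exA, exB, exC`:
`ψ (T (C_i a_i)) = ψ (T a_i) ψ (T c)⁻¹`, `ψ (T (C_i b_i)) = ψ (T b_i)`,
`ψ (T (C_i a_(i+1))) = ψ (T c) ψ (T a_(i+1))`, where `ψ (T c) = ψ (T b_i)⁻¹ ψ (T b_(i+1))`; all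
elements involved lie in `Wd m`, where `ψ ∘ T` is multiplicative (`C` is commutative).
Now apply the claim to the `w` of `eucZ`.
-/

namespace Pool.Agent.PWI

variable {g n : ℕ}

/-! ### Multiplicative functions on a subgroup -/

private theorem mu_one {G C : Type*} [Group G] [CommGroup C] {W : Subgroup G} {φ : G → C}
    (h : ∀ x ∈ W, ∀ y ∈ W, φ (x * y) = φ x * φ y) : φ 1 = 1 := by
  have h1 := h 1 W.one_mem 1 W.one_mem
  rw [mul_one] at h1
  exact (mul_eq_left.1 h1.symm)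

private theorem mu_inv {G C : Type*} [Group G] [CommGroup C] {W : Subgroup G} {φ : G → C}
    (h : ∀ x ∈ W, ∀ y ∈ W, φ (x * y) = φ x * φ y) {x : G} (hx : x ∈ W) :
    φ x⁻¹ = (φ x)⁻¹ := by
  have h1 := h x⁻¹ (W.inv_mem hx) x hx
  rw [inv_mul_cancel, mu_one h] at h1
  exact eq_inv_of_mul_eq_one_left h1.symm

private theorem mu_zpow {G C : Type*} [Group G] [CommGroup C] {W : Subgroup G} {φ : G → C}
    (h : ∀ x ∈ W, ∀ y ∈ W, φ (x * y) = φ x * φ y) {x : G} (hx : x ∈ W) (k : ℤ) :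
    φ (x ^ k) = φ x ^ k := by
  induction k using Int.induction_on with
  | zero => rw [zpow_zero, zpow_zero, mu_one h]
  | succ k ih => rw [zpow_add_one, h _ (W.zpow_mem hx _) _ hx, ih, zpow_add_one]
  | pred k ih =>
    rw [zpow_sub_one, h _ (W.zpow_mem hx _) _ (W.inv_mem hx), ih, mu_inv h hx, zpow_sub_one]

/-! ### Powers of the mapping classes `A`, `B` -/

private theorem euA (i : ℕ) (k : ℤ) : ∃ T : PMod g n, T.1 (sa i) = sa i ∧
    T.1 (sb i) = sb i * (sa i) ^ k ∧ Fixes T {i} := by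
  obtain ⟨A, hA1, hA2, hA3⟩ := exA (g := g) (n := n) i
  have hB1 : (A⁻¹).1 (sa i) = sa i := act_inv_eq hA1
  have hB2 : (A⁻¹).1 (sb i) = sb i * (sa i)⁻¹ := by
    apply act_inv_eq
    rw [map_mul, map_inv, hA1, hA2, mul_assoc, mul_inv_cancel, mul_one]
  induction k using Int.induction_on with
  | zero => exact ⟨1, rfl, by rw [zpow_zero, mul_one]; rfl, fixes_one _⟩
  | succ k ih =>
    obtain ⟨T, h1, h2, h3⟩ := ih
    refine ⟨T * A, ?_, ?_, h3.mul hA3⟩
    · change T.1 (A.1 (sa i)) = sa i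
      rw [hA1, h1]
    · change T.1 (A.1 (sb i)) = _
      rw [hA2, map_mul, h1, h2, mul_assoc, ← zpow_add_one]
  | pred k ih =>
    obtain ⟨T, h1, h2, h3⟩ := ih
    refine ⟨T * A⁻¹, ?_, ?_, h3.mul hA3.inv⟩
    · change T.1 ((A⁻¹).1 (sa i)) = sa i
      rw [hB1, h1]
    · change T.1 ((A⁻¹).1 (sb i)) = _
      rw [hB2, map_mul, map_inv, h1, h2, mul_assoc, ← zpow_sub_one]

private theorem euB (i : ℕ) (k : ℤ) : ∃ T : PMod g n, T.1 (sa i) = sa i * (sb i) ^ k ∧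
    T.1 (sb i) = sb i ∧ Fixes T {i} := by
  obtain ⟨A, hA1, hA2, hA3⟩ := exB (g := g) (n := n) i
  have hB2 : (A⁻¹).1 (sb i) = sb i := act_inv_eq hA2
  have hB1 : (A⁻¹).1 (sa i) = sa i * sb i := by
    apply act_inv_eq
    rw [map_mul, hA1, hA2, mul_assoc, inv_mul_cancel, mul_one]
  induction k using Int.induction_on with
  | zero => exact ⟨1, by rw [zpow_zero, mul_one]; rfl, rfl, fixes_one _⟩
  | succ k ih =>
    obtain ⟨T, h1, h2, h3⟩ := ih
    refine ⟨T * A⁻¹, ?_, ?_, h3.mul hA3.inv⟩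
    · change T.1 ((A⁻¹).1 (sa i)) = _
      rw [hB1, map_mul, h1, h2, mul_assoc, ← zpow_add_one]
    · change T.1 ((A⁻¹).1 (sb i)) = _
      rw [hB2, h2]
  | pred k ih =>
    obtain ⟨T, h1, h2, h3⟩ := ih
    refine ⟨T * A, ?_, ?_, h3.mul hA3⟩
    · change T.1 (A.1 (sa i)) = _
      rw [hA1, map_mul, map_inv, h1, h2, mul_assoc, ← zpow_sub_one]
    · change T.1 (A.1 (sb i)) = _
      rw [hA2, h2]

/-! ### The invariant -/

private theorem wd_a {m j : ℕ} (h : j < m) : (sa j : SG g n) ∈ Wd m :=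
  Subgroup.subset_closure ⟨j, h, Or.inl rfl⟩

private theorem wd_b {m j : ℕ} (h : j < m) : (sb j : SG g n) ∈ Wd m :=
  Subgroup.subset_closure ⟨j, h, Or.inr rfl⟩

private theorem wd_map {m : ℕ} (A : PMod g n)
    (h : ∀ j, j < m → A.1 (sa j) ∈ Wd m ∧ A.1 (sb j) ∈ Wd m) :
    ∀ x ∈ Wd m, A.1 x ∈ Wd m := by
  have h1 : (Wd m : Subgroup (SG g n)) ≤ (Wd m).comap (A.1 : SG g n →* SG g n) := by
    unfold Wd
    rw [Subgroup.closure_le]
    rintro x ⟨k, hk, rfl | rfl⟩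
    · exact (h k hk).1
    · exact (h k hk).2
  exact fun x hx => h1 hx

/-- The state of a mapping class. -/
private def EuSt (m : ℕ) {C : Type*} [CommGroup C] (ψ : SG g n → C) (ρ : C) (T : PMod g n)
    (w : ℕ → ℤ × ℤ) : Prop :=
  (∀ x ∈ Wd m, T.1 x ∈ Wd m) ∧
    ∀ j, j < m → ψ (T.1 (sa j)) = ρ ^ (w j).1 ∧ ψ (T.1 (sb j)) = ρ ^ (w j).2

private theorem eu_reach (m : ℕ) (hmg : m ≤ g) {C : Type*} [CommGroup C] (ψ : SG g n → C)
    (hψ : ∀ x ∈ Wd m, ∀ y ∈ Wd m, ψ (x * y) = ψ x * ψ y) (ρ : C) (v w : ℕ → ℤ × ℤ)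
    (hv : ∀ j, ψ (sa j) = ρ ^ (v j).1 ∧ ψ (sb j) = ρ ^ (v j).2) (h : Reach m v w) :
    ∃ T : PMod g n, EuSt m ψ ρ T w := by
  induction h with
  | refl => exact ⟨1, fun x hx => hx, fun j _ => hv j⟩
  | moveA w i hi k _ ih =>
    obtain ⟨T, hT1, hT2⟩ := ih
    obtain ⟨A, hA1, hA2, hA3⟩ := euA (g := g) (n := n) i k
    have hφ : ∀ x ∈ Wd m, ∀ y ∈ Wd m,
        (fun x => ψ (T.1 x)) (x * y) = (fun x => ψ (T.1 x)) x * (fun x => ψ (T.1 x)) y := by
      intro x hx y hy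
      dsimp only
      rw [map_mul, hψ _ (hT1 x hx) _ (hT1 y hy)]
    have hai := wd_a (g := g) (n := n) hi
    have hbi := wd_b (g := g) (n := n) hi
    have hAW : ∀ x ∈ Wd m, A.1 x ∈ Wd m := by
      refine wd_map A fun j hj => ?_
      by_cases hji : j = i
      · subst hji
        rw [hA1, hA2]
        exact ⟨hai, (Wd m).mul_mem hbi ((Wd m).zpow_mem hai k)⟩
      · rw [(hA3.1 j hji).1, (hA3.1 j hji).2]
        exact ⟨wd_a hj, wd_b hj⟩
    refine ⟨T * A, fun x hx => hT1 _ (hAW x hx), fun j hj => ?_⟩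
    change ψ (T.1 (A.1 (sa j))) = _ ∧ ψ (T.1 (A.1 (sb j))) = _
    by_cases hji : j = i
    · subst hji
      have h1 := hφ _ hbi _ ((Wd m).zpow_mem hai k)
      have h2 := mu_zpow (φ := fun x => ψ (T.1 x)) hφ hai k
      dsimp only at h1 h2
      rw [hA1, hA2, Function.update_self, h1, h2, (hT2 j hi).1, (hT2 j hi).2, ← zpow_mul,
        ← zpow_add, mul_comm k]
      exact ⟨rfl, rfl⟩
    · rw [(hA3.1 j hji).1, (hA3.1 j hji).2, Function.update_of_ne hji]
      exact hT2 j hj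
  | moveB w i hi k _ ih =>
    obtain ⟨T, hT1, hT2⟩ := ih
    obtain ⟨A, hA1, hA2, hA3⟩ := euB (g := g) (n := n) i (-k)
    have hφ : ∀ x ∈ Wd m, ∀ y ∈ Wd m,
        (fun x => ψ (T.1 x)) (x * y) = (fun x => ψ (T.1 x)) x * (fun x => ψ (T.1 x)) y := by
      intro x hx y hy
      dsimp only
      rw [map_mul, hψ _ (hT1 x hx) _ (hT1 y hy)]
    have hai := wd_a (g := g) (n := n) hi
    have hbi := wd_b (g := g) (n := n) hi
    have hAW : ∀ x ∈ Wd m, A.1 x ∈ Wd m := by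
      refine wd_map A fun j hj => ?_
      by_cases hji : j = i
      · subst hji
        rw [hA1, hA2]
        exact ⟨(Wd m).mul_mem hai ((Wd m).zpow_mem hbi _), hbi⟩
      · rw [(hA3.1 j hji).1, (hA3.1 j hji).2]
        exact ⟨wd_a hj, wd_b hj⟩
    refine ⟨T * A, fun x hx => hT1 _ (hAW x hx), fun j hj => ?_⟩
    change ψ (T.1 (A.1 (sa j))) = _ ∧ ψ (T.1 (A.1 (sb j))) = _
    by_cases hji : j = i
    · subst hji
      have h1 := hφ _ hai _ ((Wd m).zpow_mem hbi (-k))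
      have h2 := mu_zpow (φ := fun x => ψ (T.1 x)) hφ hbi (-k)
      dsimp only at h1 h2
      rw [hA1, hA2, Function.update_self, h1, h2, (hT2 j hi).1, (hT2 j hi).2, ← zpow_mul,
        ← zpow_add]
      refine ⟨?_, rfl⟩
      congr 1
      ring
    · rw [(hA3.1 j hji).1, (hA3.1 j hji).2, Function.update_of_ne hji]
      exact hT2 j hj
  | moveC w i hi _ ih =>
    obtain ⟨T, hT1, hT2⟩ := ih
    obtain ⟨c, hc⟩ : ∃ c : SG g n, c = (sb i)⁻¹ * sa (i + 1) * sb (i + 1) * (sa (i + 1))⁻¹ :=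
      ⟨_, rfl⟩
    obtain ⟨A, hA1, hA2, hA3, hA4, hA5⟩ := exC (g := g) (n := n) i (by omega) c hc
    have hφ : ∀ x ∈ Wd m, ∀ y ∈ Wd m,
        (fun x => ψ (T.1 x)) (x * y) = (fun x => ψ (T.1 x)) x * (fun x => ψ (T.1 x)) y := by
      intro x hx y hy
      dsimp only
      rw [map_mul, hψ _ (hT1 x hx) _ (hT1 y hy)]
    have hi' : i < m := by omega
    have ha := wd_a (g := g) (n := n) hi'
    have hb := wd_b (g := g) (n := n) hi'
    have ha' := wd_a (g := g) (n := n) hi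
    have hb' := wd_b (g := g) (n := n) hi
    have hcW : c ∈ Wd m := by
      rw [hc]
      exact (Wd m).mul_mem ((Wd m).mul_mem ((Wd m).mul_mem ((Wd m).inv_mem hb) ha') hb')
        ((Wd m).inv_mem ha')
    have hAW : ∀ x ∈ Wd m, A.1 x ∈ Wd m := by
      refine wd_map A fun j hj => ?_
      by_cases hji : j = i
      · subst hji
        rw [hA1, hA2]
        exact ⟨(Wd m).mul_mem ha ((Wd m).inv_mem hcW),
          (Wd m).mul_mem ((Wd m).mul_mem hcW hb) ((Wd m).inv_mem hcW)⟩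
      · by_cases hji' : j = i + 1
        · subst hji'
          rw [hA3, hA4]
          exact ⟨(Wd m).mul_mem hcW ha', hb'⟩
        · have h1 : j ∉ ({i, i + 1} : Set ℕ) := by
            rw [Set.mem_insert_iff, Set.mem_singleton_iff]
            omega
          rw [(hA5.1 j h1).1, (hA5.1 j h1).2]
          exact ⟨wd_a hj, wd_b hj⟩
    have hTc : ψ (T.1 c) = ρ ^ ((w (i + 1)).2 - (w i).2) := by
      have e1 := hφ _ ((Wd m).mul_mem ((Wd m).mul_mem ((Wd m).inv_mem hb) ha') hb') _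
        ((Wd m).inv_mem ha')
      have e2 := hφ _ ((Wd m).mul_mem ((Wd m).inv_mem hb) ha') _ hb'
      have e3 := hφ _ ((Wd m).inv_mem hb) _ ha'
      have e4 := mu_inv (φ := fun x => ψ (T.1 x)) hφ hb
      have e5 := mu_inv (φ := fun x => ψ (T.1 x)) hφ ha'
      dsimp only at e1 e2 e3 e4 e5
      rw [hc, e1, e2, e3, e4, e5, (hT2 _ hi').2, (hT2 _ hi).1, (hT2 _ hi).2, ← zpow_neg,
        ← zpow_neg, ← zpow_add, ← zpow_add, ← zpow_add]
      congr 1
      ring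
    have hTc' := mu_inv (φ := fun x => ψ (T.1 x)) hφ hcW
    rw [hTc, ← zpow_neg] at hTc'
    refine ⟨T * A, fun x hx => hT1 _ (hAW x hx), fun j hj => ?_⟩
    change ψ (T.1 (A.1 (sa j))) = _ ∧ ψ (T.1 (A.1 (sb j))) = _
    by_cases hji : j = i
    · subst hji
      have e1 := hφ _ ha _ ((Wd m).inv_mem hcW)
      have e2 := hφ _ ((Wd m).mul_mem hcW hb) _ ((Wd m).inv_mem hcW)
      have e3 := hφ _ hcW _ hb
      dsimp only at e1 e2 e3
      rw [hA1, hA2, Function.update_of_ne (by omega), Function.update_self, e1, e2, e3, hTc,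
        hTc', (hT2 j hj).1, (hT2 j hj).2, ← zpow_add, ← zpow_add, ← zpow_add]
      constructor
      · congr 1
        ring
      · congr 1
        ring
    · by_cases hji' : j = i + 1
      · subst hji'
        have e1 := hφ _ hcW _ ha'
        dsimp only at e1
        rw [hA3, hA4, Function.update_self, e1, hTc, (hT2 _ hj).1, (hT2 _ hj).2, ← zpow_add]
        refine ⟨?_, rfl⟩
        congr 1
        ring
      · have h1 : j ∉ ({i, i + 1} : Set ℕ) := by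
          rw [Set.mem_insert_iff, Set.mem_singleton_iff]
          omega
        rw [(hA5.1 j h1).1, (hA5.1 j h1).2, Function.update_of_ne hji',
          Function.update_of_ne hji]
        exact hT2 j hj

theorem euc (m : ℕ) (hmg : m ≤ g) {C : Type*} [CommGroup C] [IsCyclic C] (ψ : SG g n → C)
    (hψ : ∀ x ∈ Wd m, ∀ y ∈ Wd m, ψ (x * y) = ψ x * ψ y) :
    ∃ T : PMod g n, (∀ x ∈ Wd m, T.1 x ∈ Wd m) ∧
      ∀ i, i + 1 < m → ψ (T.1 (sa i)) = 1 ∧ ψ (T.1 (sb i)) = 1 := by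
  obtain ⟨ρ, hρ⟩ := IsCyclic.exists_generator (α := C)
  have h1 : ∀ c : C, ∃ k : ℤ, c = ρ ^ k := fun c => by
    obtain ⟨k, hk⟩ := Subgroup.mem_zpowers_iff.1 (hρ c)
    exact ⟨k, hk.symm⟩
  choose x hx using fun i => h1 (ψ (sa i))
  choose y hy using fun i => h1 (ψ (sb i))
  obtain ⟨w, hw, hw0⟩ := eucZ m (fun i => (x i, y i))
  obtain ⟨T, hT1, hT2⟩ := eu_reach m hmg ψ hψ ρ (fun i => (x i, y i)) w
    (fun j => ⟨hx j, hy j⟩) hw
  refine ⟨T, hT1, fun i hi => ?_⟩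
  have h2 := hT2 i (by omega)
  rw [hw0 i hi] at h2
  simpa using h2

end Pool.Agent.PWI
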