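import Pool.Agent.PWI.ExtF

/-!
# PWI module EXT: local automorphisms act on the surface group

Proof. Compose `E` of `extF_exists` with `D` of `desc_exists`; the image lies in `PMod g n`
because the `z_j` are fixed.  Note `PresentedGroup.mk _ (FreeGroup.of x) = PresentedGroup.of x`,
and `iota m i x = PresentedGroup.mk _ (iotaF m i x)` (check on generators with
`FreeGroup.ext_hom`, unfolding `sa`, `sb`).  For `k ≥ g` the generators `sa k = sb k = 1` are
fixed trivially.
-/

namespace Pool.Agent.PWI

variable {g n : ℕ}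

/-- The handles `i, ..., i + m - 1`, in the surface group. -/
def iota (m i : ℕ) : FreeGroup (Gen m 0) →* SG g n :=
  FreeGroup.lift fun y => match y with
    | Gen.a k => sa (i + k)
    | Gen.b k => sb (i + k)
    | Gen.z k => k.elim0

theorem iota_eq (m i : ℕ) (h : i + m ≤ g) (x : FreeGroup (Gen m 0)) :
    (iota m i x : SG g n) = PresentedGroup.mk _ (iotaF m i x) := by
  have : (iota m i : FreeGroup (Gen m 0) →* SG g n) =
      (PresentedGroup.mk {rel g n}).comp (iotaF m i) := by
    apply FreeGroup.ext_hom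
    rintro (k | k | k)
    · have hk : i + (k : ℕ) < g := by have := k.2; omega
      simp only [iota, iotaF, FreeGroup.lift_apply_of, MonoidHom.comp_apply, sa, dif_pos hk]
      rfl
    · have hk : i + (k : ℕ) < g := by have := k.2; omega
      simp only [iota, iotaF, FreeGroup.lift_apply_of, MonoidHom.comp_apply, sb, dif_pos hk]
      rfl
    · exact k.elim0
  rw [this]; rfl

theorem ext_exists (m i : ℕ) (h : i + m ≤ g) : ∃ E : St m →* PMod g n,
    (∀ (θ : St m) (x : FreeGroup (Gen m 0)), (E θ).1 (iota m i x) = iota m i (θ.1 x)) ∧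
    ∀ θ : St m, Fixes (E θ) {k | i ≤ k ∧ k < i + m} := by
  obtain ⟨E, hE1, hE2, hE3⟩ := extF_exists (g := g) (n := n) m i h
  obtain ⟨D, hD⟩ := desc_exists g n
  have hz : ∀ (θ : St m) (j : ℕ), D (E θ) (sz j) = sz j := by
    intro θ j
    by_cases hj : j < n
    · have e : (sz j : SG g n) = PresentedGroup.mk _ (FreeGroup.of (Gen.z ⟨j, hj⟩)) := by
        simp only [sz, dif_pos hj]; rfl
      rw [e, hD, hE3]
    · have e : (sz j : SG g n) = 1 := by simp only [sz, dif_neg hj]
      rw [e, map_one]
  have ha : ∀ (θ : St m) (k : ℕ), (k < i ∨ i + m ≤ k) →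
      D (E θ) (sa k) = sa k ∧ D (E θ) (sb k) = sb k := by
    intro θ k hk
    by_cases hkg : k < g
    · have e : (sa k : SG g n) = PresentedGroup.mk _ (FreeGroup.of (Gen.a ⟨k, hkg⟩)) := by
        simp only [sa, dif_pos hkg]; rfl
      have e' : (sb k : SG g n) = PresentedGroup.mk _ (FreeGroup.of (Gen.b ⟨k, hkg⟩)) := by
        simp only [sb, dif_pos hkg]; rfl
      have h2 := hE2 θ ⟨k, hkg⟩ hk
      rw [e, e', hD, hD, h2.1, h2.2]
      exact ⟨rfl, rfl⟩
    · have e : (sa k : SG g n) = 1 := by simp only [sa, dif_neg hkg]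
      have e' : (sb k : SG g n) = 1 := by simp only [sb, dif_neg hkg]
      rw [e, e', map_one]
      exact ⟨rfl, rfl⟩
  refine ⟨(D.comp E).codRestrict (PMod g n) ?_, ?_, ?_⟩
  · intro θ j
    show IsConj (sz j) (D (E θ) (sz j))
    rw [hz]
  · intro θ x
    show D (E θ) (iota m i x) = iota m i (θ.1 x)
    rw [iota_eq m i h, iota_eq m i h, hD, hE1]
  · intro θ
    refine ⟨?_, fun j => hz θ j⟩
    intro k hk
    apply ha θ k
    by_contra hc
    push Not at hc
    exact hk ⟨hc.1, hc.2⟩

end Pool.Agent.PWI
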