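import Pool.Agent.PWI.Desc

/-!
# PWI module EXTF: a local automorphism of `m` consecutive handles extends to all of them

`St m := StF m 0` (automorphisms of the free group on `a_k, b_k`, `k < m`, fixing
`rel m 0 = [a_0,b_0] ... [a_(m-1),b_(m-1)]`).  For `i + m ≤ g` let `iotaF i` be the homomorphism
`FreeGroup (Gen m 0) → FreeGroup (Gen g n)`, `a_k ↦ a_(i+k)`, `b_k ↦ b_(i+k)`.  We extend
`θ ∈ St m` to `FreeGroup (Gen g n)`: apply `θ` to the handles `i, ..., i+m-1`, and fix all other
generators.

Proof. For an endomorphism `θ` of `FreeGroup (Gen m 0)` put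
`e θ := FreeGroup.lift (fun y => match y with
   | a j => if h : i ≤ j ∧ j < i + m then iotaF i (θ (of (a ⟨j - i, _⟩))) else of (a j)
   | b j => (same with b) | z j => of (z j))`.
Then `e θ (iotaF i x) = iotaF i (θ x)` (check on generators, `FreeGroup.ext_hom`),
`e (θ ∘ θ') = e θ ∘ e θ'` and `e id = id` (check on generators).  So `e` gives a monoid
homomorphism `MulAut → MulAut` (build the inverse from `e θ⁻¹`).
Relation: `rel g n = pre * iotaF i (rel m 0) * post` where `pre` is the product of the
commutators of the handles `< i` and `post` the product of those `≥ i + m` times the product of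
the `z_j`; to see this write the list as `List.ofFn` of `Fin g` with `g = i + m + r`
(`List.ofFn_fin_append`, or convert to `(List.range g).map` with a function on `ℕ` and use
`List.range_add`), and `rel m 0` has empty `z` part.  `e θ` fixes `pre` and `post` since it fixes
their letters, and maps `iotaF i (rel m 0)` to `iotaF i (θ (rel m 0)) = iotaF i (rel m 0)`.
-/

namespace Pool.Agent.PWI

variable {g n : ℕ}

/-- Local automorphism group: `m` handles, no punctures. -/
abbrev St (m : ℕ) : Subgroup (MulAut (FreeGroup (Gen m 0))) := StF m 0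

/-- The handles `i, ..., i + m - 1`, in the free group. -/
def iotaF (m i : ℕ) : FreeGroup (Gen m 0) →* FreeGroup (Gen g n) :=
  FreeGroup.lift fun y => match y with
    | Gen.a k => if h : i + k < g then FreeGroup.of (Gen.a ⟨i + k, h⟩) else 1
    | Gen.b k => if h : i + k < g then FreeGroup.of (Gen.b ⟨i + k, h⟩) else 1
    | Gen.z k => k.elim0

/-- The commutator of handle `k`, in the free group (trivial for `k ≥ g`). -/
def cmF (g n k : ℕ) : FreeGroup (Gen g n) :=
  if h : k < g then FreeGroup.of (Gen.a ⟨k, h⟩) * FreeGroup.of (Gen.b ⟨k, h⟩) *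
    (FreeGroup.of (Gen.a ⟨k, h⟩))⁻¹ * (FreeGroup.of (Gen.b ⟨k, h⟩))⁻¹ else 1

theorem map_range_eq {α : Type*} (g : ℕ) (c : ℕ → α) (f : Fin g → α)
    (h : ∀ i : Fin g, f i = c i) : List.ofFn f = (List.range g).map c := by
  apply List.ext_getElem
  · simp
  · intro i h1 h2
    simp [h]

theorem rel_eq (g n : ℕ) : rel g n = ((List.range g).map (cmF g n)).prod *
    (List.ofFn fun j : Fin n => FreeGroup.of (Gen.z j : Gen g n)).prod := by
  unfold rel
  rw [map_range_eq g (cmF g n)]
  intro i
  simp [cmF, i.2]

/-- Extension of an endomorphism of the local free group. -/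
def extE (m i : ℕ) (θ : FreeGroup (Gen m 0) →* FreeGroup (Gen m 0)) :
    FreeGroup (Gen g n) →* FreeGroup (Gen g n) :=
  FreeGroup.lift fun y => match y with
    | Gen.a k => if h : i ≤ (k : ℕ) ∧ (k : ℕ) < i + m then
        iotaF m i (θ (FreeGroup.of (Gen.a ⟨(k : ℕ) - i, by omega⟩))) else FreeGroup.of (Gen.a k)
    | Gen.b k => if h : i ≤ (k : ℕ) ∧ (k : ℕ) < i + m then
        iotaF m i (θ (FreeGroup.of (Gen.b ⟨(k : ℕ) - i, by omega⟩))) else FreeGroup.of (Gen.b k)
    | Gen.z k => FreeGroup.of (Gen.z k)

theorem extE_iota (m i : ℕ) (h : i + m ≤ g) (θ : FreeGroup (Gen m 0) →* FreeGroup (Gen m 0))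
    (x : FreeGroup (Gen m 0)) :
    extE m i θ (iotaF m i x : FreeGroup (Gen g n)) = iotaF m i (θ x) := by
  have : (extE m i θ).comp (iotaF m i : FreeGroup (Gen m 0) →* FreeGroup (Gen g n)) =
      (iotaF m i).comp θ := by
    apply FreeGroup.ext_hom
    rintro (k | k | k)
    · have hk : i + (k : ℕ) < g := by have := k.2; omega
      have hk2 : i ≤ i + (k : ℕ) ∧ i + (k : ℕ) < i + m := by have := k.2; omega
      simp only [MonoidHom.comp_apply, iotaF, FreeGroup.lift_apply_of, dif_pos hk, extE,
        dif_pos hk2]
      congr 5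
      omega
    · have hk : i + (k : ℕ) < g := by have := k.2; omega
      have hk2 : i ≤ i + (k : ℕ) ∧ i + (k : ℕ) < i + m := by have := k.2; omega
      simp only [MonoidHom.comp_apply, iotaF, FreeGroup.lift_apply_of, dif_pos hk, extE,
        dif_pos hk2]
      congr 5
      omega
    · exact k.elim0
  exact DFunLike.congr_fun this x

theorem extE_comp (m i : ℕ) (h : i + m ≤ g) (θ η : FreeGroup (Gen m 0) →* FreeGroup (Gen m 0))
    (x : FreeGroup (Gen g n)) : extE m i θ (extE m i η x) = extE m i (θ.comp η) x := by
  have : (extE m i θ).comp (extE m i η : FreeGroup (Gen g n) →* FreeGroup (Gen g n)) =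
      extE m i (θ.comp η) := by
    apply FreeGroup.ext_hom
    rintro (k | k | k)
    · by_cases hk : i ≤ (k : ℕ) ∧ (k : ℕ) < i + m
      · have e : ∀ ζ : FreeGroup (Gen m 0) →* FreeGroup (Gen m 0),
            extE m i ζ (FreeGroup.of (Gen.a k) : FreeGroup (Gen g n)) =
            iotaF m i (ζ (FreeGroup.of (Gen.a ⟨(k : ℕ) - i, by omega⟩))) := by
          intro ζ
          simp only [extE, FreeGroup.lift_apply_of, dif_pos hk]
        rw [MonoidHom.comp_apply, e, e, extE_iota m i h]; rfl
      · have e : ∀ ζ : FreeGroup (Gen m 0) →* FreeGroup (Gen m 0),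
            extE m i ζ (FreeGroup.of (Gen.a k) : FreeGroup (Gen g n)) =
            FreeGroup.of (Gen.a k) := by
          intro ζ
          simp only [extE, FreeGroup.lift_apply_of, dif_neg hk]
        rw [MonoidHom.comp_apply, e, e, e]
    · by_cases hk : i ≤ (k : ℕ) ∧ (k : ℕ) < i + m
      · have e : ∀ ζ : FreeGroup (Gen m 0) →* FreeGroup (Gen m 0),
            extE m i ζ (FreeGroup.of (Gen.b k) : FreeGroup (Gen g n)) =
            iotaF m i (ζ (FreeGroup.of (Gen.b ⟨(k : ℕ) - i, by omega⟩))) := by
          intro ζ
          simp only [extE, FreeGroup.lift_apply_of, dif_pos hk]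
        rw [MonoidHom.comp_apply, e, e, extE_iota m i h]; rfl
      · have e : ∀ ζ : FreeGroup (Gen m 0) →* FreeGroup (Gen m 0),
            extE m i ζ (FreeGroup.of (Gen.b k) : FreeGroup (Gen g n)) =
            FreeGroup.of (Gen.b k) := by
          intro ζ
          simp only [extE, FreeGroup.lift_apply_of, dif_neg hk]
        rw [MonoidHom.comp_apply, e, e, e]
    · simp only [MonoidHom.comp_apply, extE, FreeGroup.lift_apply_of]
  exact DFunLike.congr_fun this x

theorem extE_id (m i : ℕ) (h : i + m ≤ g) (x : FreeGroup (Gen g n)) :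
    extE m i (MonoidHom.id _) x = x := by
  have : (extE m i (MonoidHom.id _) : FreeGroup (Gen g n) →* FreeGroup (Gen g n)) =
      MonoidHom.id _ := by
    apply FreeGroup.ext_hom
    rintro (k | k | k)
    · by_cases hk : i ≤ (k : ℕ) ∧ (k : ℕ) < i + m
      · have hk3 : i + ((k : ℕ) - i) < g := by have := k.2; omega
        simp only [extE, FreeGroup.lift_apply_of, dif_pos hk, MonoidHom.id_apply, iotaF,
          dif_pos hk3]
        congr 2
        apply Fin.ext
        show i + ((k : ℕ) - i) = k
        omega
      · simp only [extE, FreeGroup.lift_apply_of, dif_neg hk, MonoidHom.id_apply]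
    · by_cases hk : i ≤ (k : ℕ) ∧ (k : ℕ) < i + m
      · have hk3 : i + ((k : ℕ) - i) < g := by have := k.2; omega
        simp only [extE, FreeGroup.lift_apply_of, dif_pos hk, MonoidHom.id_apply, iotaF,
          dif_pos hk3]
        congr 2
        apply Fin.ext
        show i + ((k : ℕ) - i) = k
        omega
      · simp only [extE, FreeGroup.lift_apply_of, dif_neg hk, MonoidHom.id_apply]
    · simp only [extE, FreeGroup.lift_apply_of, MonoidHom.id_apply]
  rw [this]; rfl

theorem iotaF_cm (m i k : ℕ) (h : i + m ≤ g) (hk : k < m) :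
    (iotaF m i (cmF m 0 k) : FreeGroup (Gen g n)) = cmF g n (i + k) := by
  have hk2 : i + k < g := by omega
  simp only [cmF, dif_pos hk, dif_pos hk2, map_mul, map_inv, iotaF, FreeGroup.lift_apply_of]

theorem extE_cm (m i k : ℕ) (θ : FreeGroup (Gen m 0) →* FreeGroup (Gen m 0))
    (hk : k < i ∨ i + m ≤ k) : extE m i θ (cmF g n k) = cmF g n k := by
  by_cases hkg : k < g
  · have hk2 : ¬ (i ≤ k ∧ k < i + m) := by omega
    simp only [cmF, dif_pos hkg, map_mul, map_inv, extE, FreeGroup.lift_apply_of, dif_neg hk2]
  · simp only [cmF, dif_neg hkg, map_one]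

theorem extE_rel (m i : ℕ) (h : i + m ≤ g) (θ : FreeGroup (Gen m 0) →* FreeGroup (Gen m 0))
    (hθ : θ (rel m 0) = rel m 0) : extE m i θ (rel g n) = rel g n := by
  obtain ⟨r, hr⟩ : ∃ r, g = (i + m) + r := ⟨g - (i + m), by omega⟩
  have hm : ((List.range m).map (fun k => cmF g n (i + k))).prod = iotaF m i (rel m 0) := by
    rw [rel_eq m 0]
    simp only [List.ofFn_zero, List.prod_nil, mul_one, map_list_prod, List.map_map]
    congr 1
    apply List.map_congr_left
    intro k hk
    exact (iotaF_cm m i k h (List.mem_range.1 hk)).symm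
  have hz : extE m i θ (List.ofFn fun j : Fin n => FreeGroup.of (Gen.z j : Gen g n)).prod =
      (List.ofFn fun j : Fin n => FreeGroup.of (Gen.z j : Gen g n)).prod := by
    rw [map_list_prod, List.map_ofFn]
    congr 2
  have hpre : extE m i θ ((List.range i).map (cmF g n)).prod =
      ((List.range i).map (cmF g n)).prod := by
    rw [map_list_prod, List.map_map]
    congr 1
    apply List.map_congr_left
    intro k hk
    exact extE_cm m i k θ (Or.inl (List.mem_range.1 hk))
  have hpost : extE m i θ ((List.range r).map (fun k => cmF g n (i + m + k))).prod =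
      ((List.range r).map (fun k => cmF g n (i + m + k))).prod := by
    rw [map_list_prod, List.map_map]
    congr 1
    apply List.map_congr_left
    intro k hk
    exact extE_cm m i _ θ (Or.inr (by omega))
  have hsplit : ((List.range g).map (cmF g n)).prod = ((List.range i).map (cmF g n)).prod *
      ((List.range m).map (fun k => cmF g n (i + k))).prod *
      ((List.range r).map (fun k => cmF g n (i + m + k))).prod := by
    conv_lhs => rw [show List.range g = List.range ((i + m) + r) by rw [← hr]]
    rw [List.range_add, List.range_add]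
    simp only [List.map_append, List.prod_append, List.map_map]
    rfl
  rw [rel_eq, map_mul, hz, hsplit, map_mul, map_mul, hpre, hpost, hm, extE_iota m i h, hθ]

theorem extF_exists (m i : ℕ) (h : i + m ≤ g) : ∃ E : St m →* StF g n,
    (∀ (θ : St m) (x : FreeGroup (Gen m 0)), (E θ).1 (iotaF m i x) = iotaF m i (θ.1 x)) ∧
    (∀ (θ : St m) (k : Fin g), ((k : ℕ) < i ∨ i + m ≤ (k : ℕ)) →
      (E θ).1 (FreeGroup.of (Gen.a k)) = FreeGroup.of (Gen.a k) ∧
      (E θ).1 (FreeGroup.of (Gen.b k)) = FreeGroup.of (Gen.b k)) ∧
    ∀ (θ : St m) (j : Fin n), (E θ).1 (FreeGroup.of (Gen.z j)) = FreeGroup.of (Gen.z j) := by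
  let e : St m → (FreeGroup (Gen g n) →* FreeGroup (Gen g n)) := fun θ =>
    extE m i ((θ.1 : MulAut (FreeGroup (Gen m 0))) : FreeGroup (Gen m 0) →* FreeGroup (Gen m 0))
  have hcomp : ∀ (θ η : St m) (x), e θ (e η x) = e (θ * η) x := fun θ η x =>
    extE_comp m i h _ _ x
  have hone : ∀ x, e 1 x = x := fun x => extE_id m i h x
  refine ⟨{ toFun := fun θ => ⟨
              { toFun := e θ
                invFun := e θ⁻¹
                left_inv := fun y => by rw [hcomp, inv_mul_cancel, hone]
                right_inv := fun y => by rw [hcomp, mul_inv_cancel, hone]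
                map_mul' := (e θ).map_mul }, extE_rel m i h _ θ.2⟩
            map_one' := by
              apply Subtype.ext
              apply MulEquiv.ext
              intro y
              exact hone y
            map_mul' := by
              intro θ η
              apply Subtype.ext
              apply MulEquiv.ext
              intro y
              exact (hcomp θ η y).symm }, ?_, ?_, ?_⟩
  · intro θ x
    exact extE_iota m i h _ x
  · intro θ k hk
    have hk2 : ¬ (i ≤ (k : ℕ) ∧ (k : ℕ) < i + m) := by omega
    constructor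
    · show extE m i _ (FreeGroup.of (Gen.a k)) = _
      simp only [extE, FreeGroup.lift_apply_of, dif_neg hk2]
    · show extE m i _ (FreeGroup.of (Gen.b k)) = _
      simp only [extE, FreeGroup.lift_apply_of, dif_neg hk2]
  · intro θ j
    show e θ (FreeGroup.of (Gen.z j)) = _
    simp only [e, extE, FreeGroup.lift_apply_of]

end Pool.Agent.PWI
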