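import Pool.Agent.PWI.PushH

/-!
# PWI module FOOT: pushing one foot of handle 0 around an arbitrary loop, modulo `b_0`

Let `R1` be the normal closure of `b_0`, `Z = Zc 0`.  For every `x ∈ Z` there is a mapping class
`T` with `T a_0 ≡ a_0 x` and `T y ≡ y` (`y ∈ Z`) modulo `R1`.

Proof. Write `x ≡ y` for `x⁻¹ y ∈ R1`.  Let `Y` be the set of `x ∈ Z` such that there is `T` with
`IsConj b_0 (T b_0)`, `T a_0 ≡ a_0 x`, `T y ≡ y` for all `y ∈ Z`.  `T` and `T⁻¹` preserve `R1`.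
* `Y` is a subgroup: `T_y T_x (a_0) ≡ T_y (a_0 x) ≡ a_0 y x`, so `y x ∈ Y`; and
  `a_0 = T_x⁻¹ T_x a_0 ≡ T_x⁻¹ (a_0) x`, so `T_x⁻¹ a_0 ≡ a_0 x⁻¹`.
* If `S` fixes `a_0, b_0` and preserves `Z` (iff), then `x ∈ Y` implies `S x ∈ Y` (use `S T_x S⁻¹`).
* `a_1 ∈ Y`: let `C, B` be from `exC 0`, `exB 1`, and `T = C * B`.
  `c = b_0⁻¹ a_1 b_1 a_1⁻¹ ≡ a_1 b_1 a_1⁻¹`.  `T a_0 = C a_0 = a_0 c⁻¹ ≡ a_0 (a_1 b_1⁻¹ a_1⁻¹)`,
  `T b_0 = c b_0 c⁻¹`, `T a_1 = C (a_1 b_1⁻¹) = c a_1 b_1⁻¹ ≡ a_1 b_1 a_1⁻¹ a_1 b_1⁻¹ = a_1`,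
  `T b_1 = b_1`, other generators fixed.  So `x₀ := a_1 b_1⁻¹ a_1⁻¹ ∈ Y`.
  Apply `S = exA 1` (`b_1 ↦ b_1 a_1`): `S x₀ = a_1 (b_1 a_1)⁻¹ a_1⁻¹ = b_1⁻¹ a_1⁻¹ ∈ Y`, so
  `a_1 b_1 ∈ Y`; and `x₀⁻¹ = a_1 b_1 a_1⁻¹ ∈ Y`, so `(a_1 b_1 a_1⁻¹)⁻¹ (a_1 b_1) = a_1 ∈ Y`.
  (`S` preserves `Z`: `S⁻¹ b_1 = b_1 a_1⁻¹`.)
Now `genZ` gives `Z ≤ Y`.
-/

namespace Pool.Agent.PWI

variable {g n : ℕ}

/-- Normal closure of `b_0`. -/
def R1 : Subgroup (SG g n) := Subgroup.normalClosure {sb 0}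

/-- `T` acts modulo the normal closure of `b_0` as pushing a foot of handle 0 around `x`. -/
def GoodF (T : PMod g n) (x : SG g n) : Prop :=
  IsConj (sb 0) (T.1 (sb 0)) ∧
  QuotientGroup.mk' (Subgroup.normalClosure {sb 0}) (T.1 (sa 0)) =
    QuotientGroup.mk' (Subgroup.normalClosure {sb 0}) (sa 0 * x) ∧
  ∀ y ∈ Zc 0, QuotientGroup.mk' (Subgroup.normalClosure {sb 0}) (T.1 y) =
    QuotientGroup.mk' (Subgroup.normalClosure {sb 0}) y

theorem GoodF.mul {S T : PMod g n} {x y : SG g n} (hS : GoodF S x)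
    (hT : GoodF T y) (hx : x ∈ Zc 0) : GoodF (T * S) (y * x) := by
  have rT := resp_of_conj hT.1
  refine ⟨?_, ?_, ?_⟩
  · have := MonoidHom.map_isConj (T.1 : SG g n →* SG g n) hS.1
    exact hT.1.trans this
  · show QuotientGroup.mk' _ (T.1 (S.1 (sa 0))) = _
    rw [q_act rT hS.2.1]
    simp only [map_mul]
    rw [hT.2.2 x hx, hT.2.1]
    simp only [map_mul]
    group
  · intro z hz
    show QuotientGroup.mk' _ (T.1 (S.1 z)) = _
    rw [q_act rT (hS.2.2 z hz), hT.2.2 z hz]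

theorem GoodF.inv {T : PMod g n} {x : SG g n}
    (hT : GoodF T x) (hx : x ∈ Zc 0) : GoodF T⁻¹ x⁻¹ := by
  have rT := resp_of_conj (conj_inv hT.1)
  have hid : ∀ x, (T⁻¹).1 (T.1 x) = x := fun x => act_inv_eq rfl
  have hZ : ∀ y ∈ Zc 0, QuotientGroup.mk' (Subgroup.normalClosure {sb 0}) ((T⁻¹).1 y) =
      QuotientGroup.mk' (Subgroup.normalClosure {sb 0}) y := by
    intro y hy
    have := q_act rT (hT.2.2 y hy)
    rw [hid] at this
    exact this.symm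
  refine ⟨conj_inv hT.1, ?_, hZ⟩
  have := q_act rT hT.2.1
  rw [hid] at this
  simp only [map_mul] at this
  rw [hZ x hx] at this
  simp only [map_mul, map_inv]
  rw [this]; group

theorem GoodF.conj {S T : PMod g n} {x : SG g n} (hT : GoodF T x)
    (ha : S.1 (sa 0) = sa 0) (hb : S.1 (sb 0) = sb 0)
    (hS : ∀ x, x ∈ Zc 0 ↔ S.1 x ∈ Zc 0) : GoodF (S * T * S⁻¹) (S.1 x) := by
  have rS : ∀ r ∈ Subgroup.normalClosure {(sb 0 : SG g n)},
      S.1 r ∈ Subgroup.normalClosure {(sb 0 : SG g n)} :=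
    resp_of_conj (by rw [hb])
  have ia : (S⁻¹).1 (sa 0) = sa 0 := act_inv_eq ha
  have ib : (S⁻¹).1 (sb 0) = sb 0 := act_inv_eq hb
  have his : ∀ x, S.1 ((S⁻¹).1 x) = x := by
    intro x
    show S.1 ((S.1)⁻¹ x) = x
    simp
  refine ⟨?_, ?_, ?_⟩
  · show IsConj (sb 0) (S.1 (T.1 ((S⁻¹).1 (sb 0))))
    rw [ib]
    have := MonoidHom.map_isConj (S.1 : SG g n →* SG g n) hT.1
    have e : (S.1 : SG g n →* SG g n) (sb 0) = sb 0 := hb
    rw [e] at this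
    exact this
  · show QuotientGroup.mk' _ (S.1 (T.1 ((S⁻¹).1 (sa 0)))) = _
    rw [ia, q_act rS hT.2.1]
    simp only [map_mul, ha]
  · intro y hy
    show QuotientGroup.mk' _ (S.1 (T.1 ((S⁻¹).1 y))) = _
    have hy2 : (S⁻¹).1 y ∈ Zc 0 := (hS _).2 (by rw [his]; exact hy)
    rw [q_act rS (hT.2.2 _ hy2), his]

theorem foot (hg : 2 ≤ g) (x : SG g n) (hx : x ∈ Zc 0) : ∃ T : PMod g n,
    (sa 0 * x)⁻¹ * T.1 (sa 0) ∈ R1 ∧ ∀ y ∈ Zc 0, y⁻¹ * T.1 y ∈ R1 := by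
  let Y : Subgroup (SG g n) :=
    { carrier := {z | z ∈ Zc 0 ∧ ∃ T, GoodF T z}
      one_mem' := ⟨Subgroup.one_mem _, 1, IsConj.refl _, by simp, fun y _ => by simp⟩
      mul_mem' := by
        rintro x y ⟨hx, S, hS⟩ ⟨hy, T, hT⟩
        exact ⟨Subgroup.mul_mem _ hx hy, S * T, hT.mul hS hy⟩
      inv_mem' := by
        rintro x ⟨hx, S, hS⟩
        exact ⟨Subgroup.inv_mem _ hx, S⁻¹, hS.inv hx⟩ }
  have hbR : QuotientGroup.mk' (Subgroup.normalClosure {(sb 0 : SG g n)}) (sb 0) = 1 := by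
    rw [QuotientGroup.mk'_apply, QuotientGroup.eq_one_iff]
    exact Subgroup.subset_normalClosure (Set.mem_singleton _)
  have hconj : ∀ S : PMod g n, S.1 (sa 0) = sa 0 → S.1 (sb 0) = sb 0 →
      (∀ x, x ∈ Zc 0 ↔ S.1 x ∈ Zc 0) → ∀ x ∈ Y, S.1 x ∈ Y := by
    rintro S ha hb hS x ⟨hx, T, hT⟩
    exact ⟨(hS x).1 hx, S * T * S⁻¹, hT.conj ha hb hS⟩
  have h0 : sa 1 * (sb 1)⁻¹ * (sa 1)⁻¹ ∈ Y := by
    obtain ⟨C, h1, h2, h3, h4, h5⟩ := exC (g := g) (n := n) 0 hg _ rfl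
    obtain ⟨B, hB1, hB2, hB3⟩ := exB (g := g) (n := n) 1
    simp only [zero_add] at h1 h2 h3 h4 h5
    set c : SG g n := (sb 0)⁻¹ * sa 1 * sb 1 * (sa 1)⁻¹ with hc
    have qc : QuotientGroup.mk' (Subgroup.normalClosure {(sb 0 : SG g n)}) c =
        QuotientGroup.mk' (Subgroup.normalClosure {(sb 0 : SG g n)})
          (sa 1 * sb 1 * (sa 1)⁻¹) := by
      rw [hc]
      simp only [map_mul, map_inv, hbR]
      group
    have n01 : (0 : ℕ) ∉ ({1} : Set ℕ) := by simp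
    refine ⟨Subgroup.mul_mem _ (Subgroup.mul_mem _ (sa_mem_Zc (by omega))
      (Subgroup.inv_mem _ (sb_mem_Zc (by omega)))) (Subgroup.inv_mem _ (sa_mem_Zc (by omega))),
      C * B, ?_, ?_, ?_⟩
    · show IsConj (sb 0) (C.1 (B.1 (sb 0)))
      rw [(hB3.1 0 n01).2, h2, isConj_iff]
      exact ⟨c, rfl⟩
    · show QuotientGroup.mk' _ (C.1 (B.1 (sa 0))) = _
      rw [(hB3.1 0 n01).1, h1]
      rw [map_mul, map_inv, qc]
      simp only [map_mul, map_inv]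
      group
    · apply mod_fix
      · intro k hk
        show QuotientGroup.mk' _ (C.1 (B.1 (sa k))) = _ ∧ QuotientGroup.mk' _ (C.1 (B.1 (sb k))) = _
        by_cases hk1 : k = 1
        · subst hk1
          rw [hB1, hB2, h4]
          refine ⟨?_, rfl⟩
          rw [map_mul, map_inv, h3, h4, map_mul, map_mul, map_inv, qc]
          simp only [map_mul, map_inv]
          group
        · have e1 := hB3.1 k (by simp [hk1])
          have e2 := h5.1 k (by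
            simp only [Set.mem_insert_iff, Set.mem_singleton_iff]; omega)
          rw [e1.1, e1.2, e2.1, e2.2]
          exact ⟨rfl, rfl⟩
      · intro j
        show QuotientGroup.mk' _ (C.1 (B.1 (sz j))) = _
        rw [hB3.2, h5.2]
  have h1 : sa 1 ∈ Y := by
    obtain ⟨A, hA1, hA2, hA3⟩ := exA (g := g) (n := n) 1
    have n01 : (0 : ℕ) ∉ ({1} : Set ℕ) := by simp
    have hAi := hA3.inv
    have i1 : (A⁻¹).1 (sa 1) = sa 1 := inv_apply_eq hA1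
    have i2 : (A⁻¹).1 (sb 1) = sb 1 * (sa 1)⁻¹ := inv_apply_eq (by
      rw [map_mul, map_inv, hA1, hA2]; group)
    have m1 : (sa 1 : SG g n) ∈ Zc 0 := sa_mem_Zc (by omega)
    have m2 : (sb 1 : SG g n) ∈ Zc 0 := sb_mem_Zc (by omega)
    have hadm : ∀ x, x ∈ (Zc 0 : Subgroup (SG g n)) ↔ A.1 x ∈ Zc 0 := by
      apply adm
      · intro k hk
        by_cases hk1 : k = 1
        · subst hk1
          rw [hA1, hA2]
          exact ⟨m1, Subgroup.mul_mem _ m2 m1⟩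
        · have := hA3.1 k (by simp [hk1])
          rw [this.1, this.2]
          exact ⟨sa_mem_Zc hk, sb_mem_Zc hk⟩
      · intro j; rw [hA3.2]; exact sz_mem_Zc _ _
      · intro k hk
        by_cases hk1 : k = 1
        · subst hk1
          rw [i1, i2]
          exact ⟨m1, Subgroup.mul_mem _ m2 (Subgroup.inv_mem _ m1)⟩
        · have := hAi.1 k (by simp [hk1])
          rw [this.1, this.2]
          exact ⟨sa_mem_Zc hk, sb_mem_Zc hk⟩
      · intro j; rw [hAi.2]; exact sz_mem_Zc _ _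
    have k1 := hconj A (hA3.1 0 n01).1 (hA3.1 0 n01).2 hadm _ h0
    simp only [map_mul, map_inv, hA1, hA2] at k1
    have e : (sa 1 : SG g n) = (sa 1 * (sb 1)⁻¹ * (sa 1)⁻¹) *
        (sa 1 * (sb 1 * sa 1)⁻¹ * (sa 1)⁻¹)⁻¹ := by group
    rw [e]
    exact Y.mul_mem h0 (Y.inv_mem k1)
  have hY := genZ hg Y h1 hconj
  obtain ⟨_, T, hT⟩ := hY hx
  refine ⟨T, ?_, ?_⟩
  · have := hT.2.1
    rw [QuotientGroup.mk'_apply, QuotientGroup.mk'_apply, eq_comm, QuotientGroup.eq] at this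
    exact this
  · intro y hy
    have := hT.2.2 y hy
    rw [QuotientGroup.mk'_apply, QuotientGroup.mk'_apply, eq_comm, QuotientGroup.eq] at this
    exact this

end Pool.Agent.PWI
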