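import Mathlib

/-!
# PWI module FOUR: Fourier analysis over a finite abelian quotient (Mathlib only)

`K ≤ M ≤ P`, all commutators of `M` lie in `K`, `K` has finite index in `M`; `f` is additive on
`K`; `S` is a set of elements, invariant under conjugation by `M`, and `f (x ^ m) = 0` whenever
`x ∈ S`, `x ^ m ∈ K`.  Assume every crossed homomorphism `u` on `M`, for a character `χ` of finite
order trivial on `K`, that vanishes on `S ∩ M ∩ {χ = 1}`, vanishes on `K`.  Then `f = 0` on `K`.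

Proof. `K` is normal in `M` and `A := M / K` is a finite abelian group.  Choose a section
`s : A → M`.  For `a ∈ A`, `x ∈ M` put `κ (a, x) = s a * x * (s (a x̄))⁻¹ ∈ K`, so
`κ (a, x y) = κ (a, x) κ (a x̄, y)`.  For a character `ψ : A → ℂˣ` put `χ x = ψ x̄` and
`u x = ∑ a, (ψ a)⁻¹ * f (κ (a, x))` for `x ∈ M` (and `χ = 1`, `u = 0` outside `M`, say).
* `u (x y) = ∑ (ψ a)⁻¹ f (κ (a, x)) + ∑ (ψ a)⁻¹ f (κ (a x̄, y)) = u x + χ x * u y` (substitute
  `a ↦ a x̄⁻¹`).
* For `k ∈ K`: `u k = ∑ (ψ a)⁻¹ f (s a * k * (s a)⁻¹)`.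
* `van`: let `x ∈ S ∩ M`, `χ x = 1`, `m > 0` with `x ^ m ∈ K` (`m = |A|`).  By the crossed rule
  `u (x ^ m) = m * u x`.  And `u (x ^ m) = ∑ (ψ a)⁻¹ f ((s a * x * (s a)⁻¹) ^ m) = 0`, since
  `s a * x * (s a)⁻¹ ∈ S`.  So `u x = 0`.
* By the assumption `u k = 0` for all `k ∈ K` and all `ψ`.  Multiply by `ψ 1 = 1` and sum over all
  characters: `0 = ∑_ψ ∑_a (ψ a)⁻¹ f (s a k (s a)⁻¹) = |A| f (s 1 k (s 1)⁻¹)` by orthogonality
  (`∑_ψ ψ a = 0` for `a ≠ 1`; in Mathlib for additive finite abelian groups: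
  `AddChar.sum_apply_eq_ite`, use `Additive A`).  `s 1 ∈ K`, so `f (s 1 k (s 1)⁻¹) = f k`.
`χ ^ N = 1` on `M` with `N = |A|`.
-/

namespace Pool.Agent.PWI

private theorem four_aux {P : Type*} [Group P] (M K : Subgroup P) (hKM : K ≤ M)
    {Q : Type*} [CommGroup Q] [Fintype Q] [DecidableEq Q] (π : M →* Q)
    (hπ : Function.Surjective π) (hker : ∀ x : M, π x = 1 ↔ (x : P) ∈ K)
    (f : P → ℂ) (hf : ∀ x ∈ K, ∀ y ∈ K, f (x * y) = f x + f y)
    (S : Set P) (hS : ∀ x ∈ S, ∀ y ∈ M, y * x * y⁻¹ ∈ S)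
    (hfS : ∀ x ∈ S, ∀ m : ℕ, 0 < m → x ^ m ∈ K → f (x ^ m) = 0)
    (hpr : ∀ χ u : P → ℂ, χ 1 = 1 → (∀ x ∈ M, ∀ y ∈ M, χ (x * y) = χ x * χ y) →
      (∃ N : ℕ, 0 < N ∧ ∀ x ∈ M, χ x ^ N = 1) →
      (∀ x ∈ M, ∀ y ∈ M, u (x * y) = u x + χ x * u y) →
      (∀ x ∈ M, x ∈ S → χ x = 1 → u x = 0) → (∀ x ∈ K, χ x = 1) → ∀ x ∈ K, u x = 0) :
    ∀ x ∈ K, f x = 0 := by
  classical
  set s : Q → M := Function.surjInv hπ with hs
  have hs1 : ∀ a, π (s a) = a := Function.surjInv_eq hπ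
  -- the cocycle
  let κ : Q → M → M := fun a x => s a * x * (s (a * π x))⁻¹
  have hκ : ∀ a x, ((κ a x : M) : P) ∈ K := by
    intro a x
    rw [← hker]
    change π (s a * x * (s (a * π x))⁻¹) = 1
    rw [map_mul, map_mul, map_inv, hs1, hs1, mul_inv_cancel]
  have hκmul : ∀ a x y, κ a (x * y) = κ a x * κ (a * π x) y := by
    intro a x y
    change s a * (x * y) * (s (a * π (x * y)))⁻¹ =
      s a * x * (s (a * π x))⁻¹ * (s (a * π x) * y * (s (a * π x * π y))⁻¹)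
    rw [map_mul, ← mul_assoc a]
    group
  have hf1 : f 1 = 0 := by
    have h1 := hf 1 K.one_mem 1 K.one_mem
    rw [mul_one] at h1
    exact left_eq_add.1 h1
  -- for every character of `Q`
  have key : ∀ ψ : AddChar (Additive Q) ℂ, ∀ x : M, (x : P) ∈ K →
      ∑ a : Q, ψ (Additive.ofMul a⁻¹) * f (κ a x) = 0 := by
    intro ψ
    have hψ1 : ψ (Additive.ofMul (1 : Q)) = 1 := AddChar.map_zero_eq_one ψ
    have hψmul : ∀ a b : Q, ψ (Additive.ofMul (a * b)) =
        ψ (Additive.ofMul a) * ψ (Additive.ofMul b) := fun a b =>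
      AddChar.map_add_eq_mul ψ (Additive.ofMul a) (Additive.ofMul b)
    let χ : P → ℂ := fun x => if h : x ∈ M then ψ (Additive.ofMul (π ⟨x, h⟩)) else 1
    let u : P → ℂ := fun x => if h : x ∈ M then
      ∑ a : Q, ψ (Additive.ofMul a⁻¹) * f (κ a ⟨x, h⟩) else 0
    have hχ : ∀ x : M, χ x = ψ (Additive.ofMul (π x)) := fun x => dif_pos x.2
    have hu : ∀ x : M, u x = ∑ a : Q, ψ (Additive.ofMul a⁻¹) * f (κ a x) := fun x => dif_pos x.2
    have hcross : ∀ x y : M, u ((x * y : M) : P) = u x + χ x * u y := by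
      intro x y
      rw [hu, hu, hu, hχ]
      have h1 : ∀ a, f (κ a (x * y)) = f (κ a x) + f (κ (a * π x) y) := by
        intro a
        rw [hκmul, Subgroup.coe_mul]
        exact hf _ (hκ _ _) _ (hκ _ _)
      simp only [h1, mul_add]
      rw [Finset.sum_add_distrib]
      congr 1
      rw [Finset.mul_sum, ← Equiv.sum_comp (Equiv.mulRight (π x))
        (fun a => ψ (Additive.ofMul (π x)) * (ψ (Additive.ofMul a⁻¹) * f (κ a y)))]
      refine Finset.sum_congr rfl fun a _ => ?_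
      rw [Equiv.coe_mulRight, ← mul_assoc, ← hψmul]
      congr 3
      rw [mul_inv_rev, mul_inv_cancel_left]
    have hpow : ∀ x : M, χ x = 1 → ∀ m : ℕ, u ((x ^ m : M) : P) = m * u x := by
      intro x hx m
      induction m with
      | zero =>
        have h1 := hcross 1 1
        rw [hχ, map_one, hψ1, mul_one, one_mul] at h1
        have h2 : u ((1 : M) : P) = 0 := left_eq_add.1 h1
        rw [pow_zero, h2]
        simp
      | succ m ih =>
        rw [pow_succ', hcross, hx, ih]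
        push_cast
        ring
    have hcard : 0 < Fintype.card Q := Fintype.card_pos
    have hpc : ∀ x : M, ((x ^ Fintype.card Q : M) : P) ∈ K := by
      intro x
      rw [← hker, map_pow, pow_card_eq_one]
    have hmain := hpr χ u (by
      have := hχ 1
      rw [map_one, hψ1] at this
      exact this) (fun x hx y hy => by
        have h1 := hχ (⟨x, hx⟩ * ⟨y, hy⟩)
        rw [map_mul, hψmul, ← hχ, ← hχ] at h1
        exact h1) ⟨Fintype.card Q, hcard, fun x hx => by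
          have h1 := hχ ⟨x, hx⟩
          have h2 : χ x = ψ (Additive.ofMul (π ⟨x, hx⟩)) := h1
          rw [h2, ← AddChar.map_nsmul_eq_pow]
          have h3 : Fintype.card Q • Additive.ofMul (π ⟨x, hx⟩) = Additive.ofMul (1 : Q) := by
            rw [← ofMul_pow, pow_card_eq_one]
          rw [h3, hψ1]⟩ (fun x hx y hy => hcross ⟨x, hx⟩ ⟨y, hy⟩) (by
        intro x hx hxS hx1
        have h1 := hpow ⟨x, hx⟩ hx1 (Fintype.card Q)
        have h2 : u (((⟨x, hx⟩ : M) ^ Fintype.card Q : M) : P) = 0 := by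
          rw [hu]
          refine Finset.sum_eq_zero fun a _ => ?_
          have h3 : κ a ((⟨x, hx⟩ : M) ^ Fintype.card Q) =
              (s a * ⟨x, hx⟩ * (s a)⁻¹) ^ Fintype.card Q := by
            change s a * (⟨x, hx⟩ : M) ^ Fintype.card Q *
              (s (a * π ((⟨x, hx⟩ : M) ^ Fintype.card Q)))⁻¹ = _
            rw [map_pow, pow_card_eq_one, mul_one, conj_pow]
          have h4 := hκ a ((⟨x, hx⟩ : M) ^ Fintype.card Q)
          rw [h3] at h4 ⊢
          have h5 : (((s a * ⟨x, hx⟩ * (s a)⁻¹ : M) ^ Fintype.card Q : M) : P) =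
              ((s a : P) * x * (s a : P)⁻¹) ^ Fintype.card Q := by
            push_cast
            rfl
          rw [h5] at h4 ⊢
          rw [hfS _ (hS x hxS _ (s a).2) _ hcard h4, mul_zero]
        rw [h2] at h1
        have h6 : (Fintype.card Q : ℂ) ≠ 0 := by exact_mod_cast hcard.ne'
        exact (mul_eq_zero.1 h1.symm).resolve_left h6) (fun x hx => by
          have h1 := hχ ⟨x, hKM hx⟩
          have h2 : π ⟨x, hKM hx⟩ = 1 := (hker ⟨x, hKM hx⟩).2 hx
          rw [h2, hψ1] at h1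
          exact h1)
    intro x hx
    rw [← hu]
    exact hmain x hx
  intro x hx
  have hxM : x ∈ M := hKM hx
  have h1 : ∑ ψ : AddChar (Additive Q) ℂ, ∑ a : Q,
      ψ (Additive.ofMul a⁻¹) * f (κ a ⟨x, hxM⟩) = 0 :=
    Finset.sum_eq_zero fun ψ _ => key ψ ⟨x, hxM⟩ hx
  rw [Finset.sum_comm] at h1
  have h2 : ∀ a : Q, ∑ ψ : AddChar (Additive Q) ℂ, ψ (Additive.ofMul a⁻¹) * f (κ a ⟨x, hxM⟩) =
      if a = 1 then (Fintype.card Q : ℂ) * f (κ 1 ⟨x, hxM⟩) else 0 := by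
    intro a
    rw [← Finset.sum_mul, AddChar.sum_apply_eq_ite]
    have h3 : (Additive.ofMul a⁻¹ = 0) ↔ a = 1 := by
      rw [ofMul_eq_zero, inv_eq_one]
    by_cases ha : a = 1
    · rw [if_pos (h3.2 ha), if_pos ha, ha, Fintype.card_congr (Additive.toMul (α := Q))]
    · rw [if_neg fun h => ha (h3.1 h), if_neg ha, zero_mul]
  rw [Finset.sum_congr rfl fun a _ => h2 a, Finset.sum_ite_eq' Finset.univ (1 : Q),
    if_pos (Finset.mem_univ _)] at h1
  have h4 : (Fintype.card Q : ℂ) ≠ 0 := by exact_mod_cast (Fintype.card_pos (α := Q)).ne'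
  have h5 := (mul_eq_zero.1 h1).resolve_left h4
  have h6 : π ⟨x, hxM⟩ = 1 := (hker ⟨x, hxM⟩).2 hx
  have h7 : ((κ 1 ⟨x, hxM⟩ : M) : P) = (s 1 : P) * x * (s 1 : P)⁻¹ := by
    change ((s 1 * ⟨x, hxM⟩ * (s (1 * π ⟨x, hxM⟩))⁻¹ : M) : P) = _
    rw [h6, mul_one]
    rfl
  have h8 : (s 1 : P) ∈ K := (hker (s 1)).1 (hs1 1)
  rw [h7, hf _ (K.mul_mem h8 hx) _ (K.inv_mem h8), hf _ h8 _ hx] at h5
  have h9 := hf _ h8 _ (K.inv_mem h8)
  rw [mul_inv_cancel, hf1] at h9
  linear_combination h5 + h9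

theorem four {P : Type*} [Group P] (M K : Subgroup P) (hKM : K ≤ M)
    (hcomm : ∀ x ∈ M, ∀ y ∈ M, x * y * x⁻¹ * y⁻¹ ∈ K) (hfin : (K.subgroupOf M).FiniteIndex)
    (f : P → ℂ) (hf : ∀ x ∈ K, ∀ y ∈ K, f (x * y) = f x + f y)
    (S : Set P) (hS : ∀ x ∈ S, ∀ y ∈ M, y * x * y⁻¹ ∈ S)
    (hfS : ∀ x ∈ S, ∀ m : ℕ, 0 < m → x ^ m ∈ K → f (x ^ m) = 0)
    (hpr : ∀ χ u : P → ℂ, χ 1 = 1 → (∀ x ∈ M, ∀ y ∈ M, χ (x * y) = χ x * χ y) →
      (∃ N : ℕ, 0 < N ∧ ∀ x ∈ M, χ x ^ N = 1) →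
      (∀ x ∈ M, ∀ y ∈ M, u (x * y) = u x + χ x * u y) →
      (∀ x ∈ M, x ∈ S → χ x = 1 → u x = 0) → (∀ x ∈ K, χ x = 1) → ∀ x ∈ K, u x = 0) :
    ∀ x ∈ K, f x = 0 := by
  classical
  have hnorm : (K.subgroupOf M).Normal := by
    refine ⟨fun n hn g => ?_⟩
    rw [Subgroup.mem_subgroupOf] at hn ⊢
    have h1 := K.mul_mem (hcomm g g.2 n n.2) hn
    have h2 : ((g * n * g⁻¹ : M) : P) = (g : P) * n * (g : P)⁻¹ * (n : P)⁻¹ * n := by
      push_cast
      group
    rw [h2]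
    exact h1
  let inst : CommGroup (M ⧸ K.subgroupOf M) :=
    { (inferInstance : Group (M ⧸ K.subgroupOf M)) with
      mul_comm := by
        intro a b
        induction a using QuotientGroup.induction_on with
        | H x =>
          induction b using QuotientGroup.induction_on with
          | H y =>
            rw [← QuotientGroup.mk_mul, ← QuotientGroup.mk_mul, QuotientGroup.eq,
              Subgroup.mem_subgroupOf]
            have h1 := hcomm (y⁻¹ : M) (y⁻¹ : M).2 (x⁻¹ : M) (x⁻¹ : M).2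
            have h2 : (((x * y)⁻¹ * (y * x) : M) : P) =
                ((y⁻¹ : M) : P) * ((x⁻¹ : M) : P) * ((y⁻¹ : M) : P)⁻¹ * ((x⁻¹ : M) : P)⁻¹ := by
              push_cast
              group
            rw [h2]
            exact h1 }
  have hfinQ : Finite (M ⧸ K.subgroupOf M) := inferInstance
  let _ : Fintype (M ⧸ K.subgroupOf M) := Fintype.ofFinite _
  exact four_aux M K hKM (QuotientGroup.mk' (K.subgroupOf M))
    (QuotientGroup.mk'_surjective _) (fun x => by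
      rw [QuotientGroup.mk'_apply, QuotientGroup.eq_one_iff, Subgroup.mem_subgroupOf])
    f hf S hS hfS hpr

end Pool.Agent.PWI
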