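import Pool.Agent.PWI.PushH
import Pool.Agent.PWI.Hand

/-!
# PWI module LEML: comparing the potentials of handles

`M` normal, containing handles 0 and 1; `(χ, u)` as in `CH`; `ζ ≠ 1` is a value of `χ` on both
handles; `u = 0` on handle 1.  Then `u = 0` on handle 0 and on `M ∩ Zc 0`.

Proof. Let `d = [a_0, b_0]` and `R0` its normal closure.
(1) `χ r = 1` and `u r = 0` for `r ∈ R0` (and `R0 ≤ M`).  `R0` is the closure of the conjugates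
`y d y⁻¹`; by `CH.conj`, `(χ^y, u^y)` is `CH M`, `χ^y d = 1` (commutator), and by
`hand_principal` for handle 0: `u^y d = (χ^y d - 1) v = 0`.  Then closure induction
(`CH.closure_le` with `v = 0` for `u`, and multiplicativity for `χ`).
Hence for `x ∈ M`, `r ∈ R0`: `u (x r) = u x`, `χ (x r) = χ x`.
(2) Let `z ∈ M ∩ Zc 0`.  `χ^z = χ` on `M` (`CH.chi_conj`).  By `hand_value` (handle 0, `(χ^z, u^z)`,
`y⁻¹` where `χ y = ζ`) there is `T₀` supported on handle 0 with `χ^z (T₀ b_0) = ζ⁻¹`; by `hand_value`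
for `(χ, u)` and handle 1 there is `T₁` supported on handle 1 with `χ (T₁ b_1) = ζ`.
Put `w = T₀ b_0 ∈ Hd 0`, `w' = T₁ b_1 ∈ Hd 1 ≤ Zc 0`.  By `isS_mul`, `w w'` is simple.  With `T` from
`pushH` for `z`: `T w ≡ z w z⁻¹` (as `w` is a word in `a_0, b_0`; closure induction) and
`T w' ≡ w'` modulo `R0`; so `γ := T (w w') = (z w z⁻¹) w' r` with `r ∈ R0`, `γ ∈ M`, `γ` simple and
`χ γ = ζ⁻¹ ζ = 1`.  By `van`, `0 = u γ = u (z w z⁻¹ w') = u (z w z⁻¹) + ζ⁻¹ u w' = u (z w z⁻¹)`,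
as `u w' = 0`.  By `hand_principal` for `(χ^z, u^z)` there is `v` with `u^z = (χ^z - 1) v` on `Hd 0`;
at `w` we get `(ζ⁻¹ - 1) v = 0`, so `v = 0` and `u (z y z⁻¹) = 0` for all `y ∈ Hd 0`.
(3) With `z = 1`: `u = 0` on `Hd 0`.  For `x ∈ M ∩ Zc 0` take `z = x` and `y ∈ Hd 0` with
`χ y = ζ ≠ 1`: `0 = u (x y x⁻¹) = (1 - χ y) u x + χ x u y = (1 - ζ) u x` (`CH.u_conj`), so `u x = 0`.
-/

namespace Pool.Agent.PWI

variable {g n : ℕ}

theorem lemL_hd_le {M : Subgroup (SG g n)} {i : ℕ} (ha : sa i ∈ M) (hb : sb i ∈ M) :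
    (Hd i : Subgroup (SG g n)) ≤ M := by
  refine (Subgroup.closure_le M).2 ?_
  rintro x (rfl | rfl)
  · exact ha
  · exact hb

/-- `u` and `χ` are trivial on the normal closure of the commutator of handle 0. -/
theorem lemL_R0 (hg : 2 ≤ g) (M : Subgroup (SG g n)) [hM : M.Normal] (ha0 : sa 0 ∈ M)
    (hb0 : sb 0 ∈ M) (χ u : SG g n → ℂ) (h : CH M χ u) (r : SG g n) (hr : r ∈ R0) :
    r ∈ M ∧ χ r = 1 ∧ u r = 0 := by
  have hr' : r ∈ Subgroup.closure (Group.conjugatesOfSet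
      {(sa 0 * sb 0 * (sa 0)⁻¹ * (sb 0)⁻¹ : SG g n)}) := hr
  induction hr' using Subgroup.closure_induction with
  | mem x hx =>
    obtain ⟨d, hd, hdx⟩ := Group.mem_conjugatesOfSet_iff.1 hx
    obtain ⟨y, rfl⟩ := isConj_iff.1 hdx
    have hd' : d = sa 0 * sb 0 * (sa 0)⁻¹ * (sb 0)⁻¹ := hd
    subst hd'
    have hc := h.conj y
    have hdM : (sa 0 * sb 0 * (sa 0)⁻¹ * (sb 0)⁻¹ : SG g n) ∈ M :=
      M.mul_mem (M.mul_mem (M.mul_mem ha0 hb0) (M.inv_mem ha0)) (M.inv_mem hb0)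
    have hdH : (sa 0 * sb 0 * (sa 0)⁻¹ * (sb 0)⁻¹ : SG g n) ∈ Hd 0 := by
      have h1 : (sa 0 : SG g n) ∈ Hd 0 := Subgroup.subset_closure (by simp)
      have h2 : (sb 0 : SG g n) ∈ Hd 0 := Subgroup.subset_closure (by simp)
      exact (Hd 0).mul_mem ((Hd 0).mul_mem ((Hd 0).mul_mem h1 h2) ((Hd 0).inv_mem h1))
        ((Hd 0).inv_mem h2)
    have e1 : χ (y * (sa 0 * sb 0 * (sa 0)⁻¹ * (sb 0)⁻¹) * y⁻¹) = 1 := by
      have h1 := hc.mul (sa 0 * sb 0 * (sa 0)⁻¹)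
        (M.mul_mem (M.mul_mem ha0 hb0) (M.inv_mem ha0)) (sb 0)⁻¹ (M.inv_mem hb0)
      have h2 := hc.chi_conj ha0 hb0
      have h3 := hc.inv hb0
      have h4 := hc.ne_zero hb0
      beta_reduce at h1 h2 h3 h4
      rw [h1, h2, h3]
      exact mul_inv_cancel₀ h4
    refine ⟨hM.conj_mem _ hdM y, e1, ?_⟩
    obtain ⟨v, hv⟩ := hand_principal hg 0 (Or.inl rfl) M ha0 hb0 _ _ hc
    have h5 := hv _ hdH
    beta_reduce at h5
    rw [h5, e1, sub_self, zero_mul]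
  | one => exact ⟨M.one_mem, h.one, h.u_one⟩
  | mul x y hx hy ihx ihy =>
    obtain ⟨x1, x2, x3⟩ := ihx hx
    obtain ⟨y1, y2, y3⟩ := ihy hy
    refine ⟨M.mul_mem x1 y1, ?_, ?_⟩
    · rw [h.mul x x1 y y1, x2, y2, one_mul]
    · rw [h.cro x x1 y y1, x3, y3, mul_zero, add_zero]
  | inv x hx ih =>
    obtain ⟨x1, x2, x3⟩ := ih hx
    refine ⟨M.inv_mem x1, ?_, ?_⟩
    · rw [h.inv x1, x2, inv_one]
    · rw [h.u_inv x1, x3, mul_zero, neg_zero]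

/-- Congruent elements have the same values. -/
theorem lemL_congr (hg : 2 ≤ g) (M : Subgroup (SG g n)) [M.Normal] (ha0 : sa 0 ∈ M)
    (hb0 : sb 0 ∈ M) (χ u : SG g n → ℂ) (h : CH M χ u) {x y : SG g n} (hx : x ∈ M)
    (hxy : x⁻¹ * y ∈ R0) : y ∈ M ∧ χ y = χ x ∧ u y = u x := by
  obtain ⟨h1, h2, h3⟩ := lemL_R0 hg M ha0 hb0 χ u h _ hxy
  have e : y = x * (x⁻¹ * y) := by group
  refine ⟨?_, ?_, ?_⟩
  · rw [e]
    exact M.mul_mem hx h1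
  · rw [e, h.mul x hx _ h1, h2, mul_one]
  · rw [e, h.cro x hx _ h1, h3, mul_zero, add_zero]

/-- `u` vanishes on the conjugates of handle 0 by elements of `M ∩ Zc 0`. -/
theorem lemL_conj (hg : 2 ≤ g) (M : Subgroup (SG g n)) [hM : M.Normal] (ha0 : sa 0 ∈ M)
    (hb0 : sb 0 ∈ M) (ha1 : sa 1 ∈ M) (hb1 : sb 1 ∈ M) (χ u : SG g n → ℂ) (h : CH M χ u)
    (ζ : ℂ) (hζ : ζ ≠ 1) (h0 : ∃ y ∈ Hd 0, χ y = ζ) (h1 : ∃ y ∈ Hd 1, χ y = ζ)
    (hu : ∀ x ∈ Hd 1, u x = 0) (z : SG g n) (hzM : z ∈ M) (hz : z ∈ Zc 0) :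
    ∀ y ∈ Hd 0, u (z * y * z⁻¹) = 0 := by
  have hH0 := lemL_hd_le (g := g) (n := n) ha0 hb0
  have hH1 := lemL_hd_le (g := g) (n := n) ha1 hb1
  obtain ⟨y0, hy0, hy0'⟩ := h0
  obtain ⟨y1, hy1, hy1'⟩ := h1
  have hζ0 : ζ ≠ 0 := by
    rw [← hy0']
    exact h.ne_zero (hH0 hy0)
  have hc := h.conj z
  obtain ⟨T₀, hT₀, hT₀'⟩ := hand_value hg 0 (Or.inl rfl) M ha0 hb0 _ _ hc y0⁻¹
    ((Hd 0).inv_mem hy0)
  obtain ⟨T₁, hT₁, hT₁'⟩ := hand_value hg 1 (Or.inr rfl) M ha1 hb1 χ u h y1 hy1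
  rw [h.chi_conj hzM (M.inv_mem (hH0 hy0)), h.inv (hH0 hy0), hy0'] at hT₀'
  rw [hy1'] at hT₁'
  have hs := isS_mul hg T₀ T₁ hT₀ hT₁
  set w := T₀.1 (sb 0) with hw
  set w' := T₁.1 (sb 1) with hw'
  have hwH : w ∈ Hd 0 := (hT₀.2 _).1 (Subgroup.subset_closure (by simp))
  have hwH' : w' ∈ Hd 1 := (hT₁.2 _).1 (Subgroup.subset_closure (by simp))
  have hwZ : w' ∈ Zc 0 := by
    have hle : (Hd 1 : Subgroup (SG g n)) ≤ Zc 0 := by
      refine Subgroup.closure_mono ?_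
      rintro x (rfl | rfl)
      · exact Or.inl ⟨1, one_ne_zero, Or.inl rfl⟩
      · exact Or.inl ⟨1, one_ne_zero, Or.inr rfl⟩
    exact hle hwH'
  obtain ⟨T, hTa, hTb, hTz⟩ := pushH hg z hz
  have hN : (R0 : Subgroup (SG g n)).Normal := Subgroup.normalClosure_normal
  set π : SG g n →* SG g n ⧸ (R0 : Subgroup (SG g n)) := QuotientGroup.mk' R0 with hπ
  have hπe : ∀ x y : SG g n, π x = π y ↔ x⁻¹ * y ∈ (R0 : Subgroup (SG g n)) :=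
    fun x y => QuotientGroup.eq
  have hTw : ∀ x ∈ (Hd 0 : Subgroup (SG g n)), π (z * x * z⁻¹) = π (T.1 x) := by
    intro x hx
    induction hx using Subgroup.closure_induction with
    | mem x hx =>
      rcases hx with rfl | rfl
      · exact (hπe _ _).2 hTa
      · exact (hπe _ _).2 hTb
    | one =>
      congr 1
      rw [map_one]
      group
    | mul x y _ _ hx hy =>
      rw [map_mul T.1, map_mul π (T.1 x), ← hx, ← hy, ← map_mul]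
      congr 1
      group
    | inv x _ hx =>
      rw [map_inv T.1, map_inv π (T.1 x), ← hx, ← map_inv]
      congr 1
      group
  have hγ : π (z * w * z⁻¹ * w') = π (T.1 (w * w')) := by
    rw [map_mul T.1, map_mul π (T.1 w), ← hTw w hwH, map_mul π (z * w * z⁻¹)]
    congr 1
    exact (hπe _ _).2 (hTz _ hwZ)
  have m1 : z * w * z⁻¹ ∈ M := hM.conj_mem _ (hH0 hwH) z
  have m2 : w' ∈ M := hH1 hwH'
  obtain ⟨g1, g2, g3⟩ := lemL_congr hg M ha0 hb0 χ u h (M.mul_mem m1 m2) ((hπe _ _).1 hγ)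
  have g4 : χ (T.1 (w * w')) = 1 := by
    rw [g2, h.mul _ m1 _ m2, hT₀', hT₁', inv_mul_cancel₀ hζ0]
  have g5 := h.van _ g1 (hs.act T) g4
  rw [g3, h.cro _ m1 _ m2, hu w' hwH', mul_zero, add_zero] at g5
  obtain ⟨v, hv⟩ := hand_principal hg 0 (Or.inl rfl) M ha0 hb0 _ _ hc
  have g6 := hv w hwH
  beta_reduce at g6
  rw [g5, hT₀'] at g6
  have hv0 : v = 0 := by
    rcases mul_eq_zero.1 g6.symm with h2 | h2
    · exfalso
      have h3 : ζ⁻¹ = 1 := sub_eq_zero.1 h2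
      exact hζ (inv_eq_one.1 h3)
    · exact h2
  intro y hy
  have g7 := hv y hy
  beta_reduce at g7
  rw [g7, hv0, mul_zero]

theorem lemL (hg : 2 ≤ g) (M : Subgroup (SG g n)) [M.Normal] (ha0 : sa 0 ∈ M) (hb0 : sb 0 ∈ M)
    (ha1 : sa 1 ∈ M) (hb1 : sb 1 ∈ M) (χ u : SG g n → ℂ) (h : CH M χ u) (ζ : ℂ) (hζ : ζ ≠ 1)
    (h0 : ∃ y ∈ Hd 0, χ y = ζ) (h1 : ∃ y ∈ Hd 1, χ y = ζ) (hu : ∀ x ∈ Hd 1, u x = 0) :
    (∀ x ∈ Hd 0, u x = 0) ∧ ∀ x ∈ M, x ∈ Zc 0 → u x = 0 := by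
  have hH0 := lemL_hd_le (g := g) (n := n) ha0 hb0
  have k1 : ∀ x ∈ Hd 0, u x = 0 := by
    intro x hx
    have h2 := lemL_conj hg M ha0 hb0 ha1 hb1 χ u h ζ hζ h0 h1 hu 1 M.one_mem (Zc 0).one_mem x hx
    have e : (1 : SG g n) * x * 1⁻¹ = x := by group
    rwa [e] at h2
  refine ⟨k1, fun x hxM hxZ => ?_⟩
  obtain ⟨y0, hy0, hy0'⟩ := h0
  have h2 := lemL_conj hg M ha0 hb0 ha1 hb1 χ u h ζ hζ ⟨y0, hy0, hy0'⟩ h1 hu x hxM hxZ y0 hy0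
  rw [h.u_conj hxM (hH0 hy0), k1 y0 hy0, mul_zero, add_zero, hy0'] at h2
  rcases mul_eq_zero.1 h2 with h3 | h3
  · exact absurd (sub_eq_zero.1 h3).symm hζ
  · exact h3

end Pool.Agent.PWI
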