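import Pool.Agent.PWI.GenZ

/-!
# PWI module PUSHH: pushing handle 0 around an arbitrary loop, modulo its commutator

Let `d = [a_0, b_0]`, `R0` the normal closure of `d`, `Z = Zc 0`.  For every `z ∈ Z` there is a
mapping class `T` acting modulo `R0` as: identity on `Z`, conjugation by `z` on `a_0, b_0`.

Proof. Write `x ≡ y` for `x⁻¹ y ∈ R0` (a congruence since `R0` is normal).  Let `Y` be the set of
`z ∈ Z` such that there is `T` with `IsConj d (T d)`, `T a_0 ≡ z a_0 z⁻¹`, `T b_0 ≡ z b_0 z⁻¹`, and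
`T y ≡ y` for all `y ∈ Z`.  Because `T d` is conjugate to `d`, `T` and `T⁻¹` map `R0` to `R0`, so they
respect `≡`.
* `Y` is a subgroup: `1 ∈ Y`; if `z, y ∈ Y` with `T_z, T_y` then `T_y T_z` sends `a_0` to
  `T_y (z a_0 z⁻¹ r) ≡ z (y a_0 y⁻¹) z⁻¹`, so `z y ∈ Y`; `T_z⁻¹` fixes `Z` mod `R0`, and
  `a_0 = T_z⁻¹ (T_z a_0) ≡ T_z⁻¹ (z a_0 z⁻¹) ≡ z T_z⁻¹ (a_0) z⁻¹`, so `z⁻¹ ∈ Y`.
* `a_1 ∈ Y`: take `T` from `exP`: `c = d a_1 ≡ a_1`, `T a_0 = c a_0 c⁻¹ ≡ a_1 a_0 a_1⁻¹`, the same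
  for `b_0`; `T a_1 = d a_1 d⁻¹ ≡ a_1`, `T b_1 = b_1 d⁻¹ ≡ b_1`, the other generators are fixed
  (so `T y ≡ y` on `Z` by closure induction); `T d = c d c⁻¹`.
* If `S` fixes `a_0, b_0` and preserves `Z` (iff), then `S z ∈ Y` for `z ∈ Y`: use `S T_z S⁻¹`:
  `a_0 ↦ S (z a_0 z⁻¹ r) ≡ (S z) a_0 (S z)⁻¹` (`S d = d`, so `S R0 = R0`), and on `y ∈ Z`:
  `S⁻¹ y ∈ Z`, `S (T_z (S⁻¹ y)) ≡ y`.
Now `genZ` gives `Z ≤ Y`.
-/

namespace Pool.Agent.PWI

variable {g n : ℕ}

/-- Normal closure of the commutator of handle 0. -/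
def R0 : Subgroup (SG g n) :=
  Subgroup.normalClosure {sa 0 * sb 0 * (sa 0)⁻¹ * (sb 0)⁻¹}

theorem q_act {R : Subgroup (SG g n)} [R.Normal] {T : PMod g n} (hT : ∀ r ∈ R, T.1 r ∈ R)
    {x y : SG g n} (h : QuotientGroup.mk' R x = QuotientGroup.mk' R y) :
    QuotientGroup.mk' R (T.1 x) = QuotientGroup.mk' R (T.1 y) := by
  rw [QuotientGroup.mk'_apply, QuotientGroup.mk'_apply, QuotientGroup.eq] at h ⊢
  have := hT _ h
  rwa [map_mul, map_inv] at this

theorem resp_of_conj {d : SG g n} {T : PMod g n} (h : IsConj d (T.1 d)) :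
    ∀ r ∈ Subgroup.normalClosure {d}, T.1 r ∈ Subgroup.normalClosure {d} := by
  have h1 : Subgroup.normalClosure {d} ≤
      (Subgroup.normalClosure {d}).comap (T.1 : SG g n →* SG g n) := by
    have hn : ((Subgroup.normalClosure {d}).comap (T.1 : SG g n →* SG g n)).Normal :=
      inferInstance
    apply Subgroup.normalClosure_le_normal
    intro x hx
    rw [Set.mem_singleton_iff] at hx
    subst hx
    obtain ⟨c, hc⟩ := isConj_iff.1 h
    have h2 : x ∈ Subgroup.normalClosure ({x} : Set (SG g n)) :=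
      Subgroup.subset_normalClosure (Set.mem_singleton x)
    have h3 := (Subgroup.normalClosure_normal (s := ({x} : Set (SG g n)))).conj_mem x h2 c
    rw [hc] at h3
    exact h3
  exact h1

theorem conj_inv {d : SG g n} {T : PMod g n} (h : IsConj d (T.1 d)) : IsConj d ((T⁻¹).1 d) := by
  have := MonoidHom.map_isConj ((T⁻¹).1 : SG g n →* SG g n) h
  have e : ((T⁻¹).1 : SG g n →* SG g n) (T.1 d) = d := act_inv_eq rfl
  rw [e] at this
  exact this.symm

/-- `T` acts modulo the normal closure of `d` as pushing handle 0 around `z`. -/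
def GoodP (d : SG g n) (T : PMod g n) (z : SG g n) : Prop :=
  IsConj d (T.1 d) ∧
  QuotientGroup.mk' (Subgroup.normalClosure {d}) (T.1 (sa 0)) =
    QuotientGroup.mk' (Subgroup.normalClosure {d}) (z * sa 0 * z⁻¹) ∧
  QuotientGroup.mk' (Subgroup.normalClosure {d}) (T.1 (sb 0)) =
    QuotientGroup.mk' (Subgroup.normalClosure {d}) (z * sb 0 * z⁻¹) ∧
  ∀ y ∈ Zc 0, QuotientGroup.mk' (Subgroup.normalClosure {d}) (T.1 y) =
    QuotientGroup.mk' (Subgroup.normalClosure {d}) y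

theorem GoodP.mul {d : SG g n} {S T : PMod g n} {z y : SG g n} (hS : GoodP d S z)
    (hT : GoodP d T y) (hz : z ∈ Zc 0) : GoodP d (T * S) (z * y) := by
  have rT := resp_of_conj hT.1
  refine ⟨?_, ?_, ?_, ?_⟩
  · have := MonoidHom.map_isConj (T.1 : SG g n →* SG g n) hS.1
    exact hT.1.trans this
  · show QuotientGroup.mk' _ (T.1 (S.1 (sa 0))) = _
    rw [q_act rT hS.2.1]
    simp only [map_mul, map_inv]
    rw [hT.2.2.2 z hz, hT.2.1]
    simp only [map_mul, map_inv]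
    group
  · show QuotientGroup.mk' _ (T.1 (S.1 (sb 0))) = _
    rw [q_act rT hS.2.2.1]
    simp only [map_mul, map_inv]
    rw [hT.2.2.2 z hz, hT.2.2.1]
    simp only [map_mul, map_inv]
    group
  · intro x hx
    show QuotientGroup.mk' _ (T.1 (S.1 x)) = _
    rw [q_act rT (hS.2.2.2 x hx), hT.2.2.2 x hx]

theorem GoodP.inv {d : SG g n} {T : PMod g n} {z : SG g n}
    (hT : GoodP d T z) (hz : z ∈ Zc 0) : GoodP d T⁻¹ z⁻¹ := by
  have rT := resp_of_conj (conj_inv hT.1)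
  have hid : ∀ x, (T⁻¹).1 (T.1 x) = x := fun x => act_inv_eq rfl
  have hZ : ∀ y ∈ Zc 0, QuotientGroup.mk' (Subgroup.normalClosure {d}) ((T⁻¹).1 y) =
      QuotientGroup.mk' (Subgroup.normalClosure {d}) y := by
    intro y hy
    have := q_act rT (hT.2.2.2 y hy)
    rw [hid] at this
    exact this.symm
  refine ⟨conj_inv hT.1, ?_, ?_, hZ⟩
  · have := q_act rT hT.2.1
    rw [hid] at this
    simp only [map_mul, map_inv] at this
    rw [hZ z hz] at this
    simp only [map_mul, map_inv]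
    rw [this]; group
  · have := q_act rT hT.2.2.1
    rw [hid] at this
    simp only [map_mul, map_inv] at this
    rw [hZ z hz] at this
    simp only [map_mul, map_inv]
    rw [this]; group

theorem GoodP.conj {d : SG g n} {S T : PMod g n} {z : SG g n} (hT : GoodP d T z)
    (ha : S.1 (sa 0) = sa 0) (hb : S.1 (sb 0) = sb 0) (hd : S.1 d = d)
    (hS : ∀ x, x ∈ Zc 0 ↔ S.1 x ∈ Zc 0) : GoodP d (S * T * S⁻¹) (S.1 z) := by
  have rS : ∀ r ∈ Subgroup.normalClosure {d}, S.1 r ∈ Subgroup.normalClosure {d} :=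
    resp_of_conj (by rw [hd])
  have ia : (S⁻¹).1 (sa 0) = sa 0 := act_inv_eq ha
  have ib : (S⁻¹).1 (sb 0) = sb 0 := act_inv_eq hb
  have idd : (S⁻¹).1 d = d := act_inv_eq hd
  have his : ∀ x, S.1 ((S⁻¹).1 x) = x := by
    intro x
    show S.1 ((S.1)⁻¹ x) = x
    simp
  refine ⟨?_, ?_, ?_, ?_⟩
  · show IsConj d (S.1 (T.1 ((S⁻¹).1 d)))
    rw [idd]
    have := MonoidHom.map_isConj (S.1 : SG g n →* SG g n) hT.1
    have e : (S.1 : SG g n →* SG g n) d = d := hd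
    rw [e] at this
    exact this
  · show QuotientGroup.mk' _ (S.1 (T.1 ((S⁻¹).1 (sa 0)))) = _
    rw [ia, q_act rS hT.2.1]
    simp only [map_mul, map_inv, ha]
  · show QuotientGroup.mk' _ (S.1 (T.1 ((S⁻¹).1 (sb 0)))) = _
    rw [ib, q_act rS hT.2.2.1]
    simp only [map_mul, map_inv, hb]
  · intro y hy
    show QuotientGroup.mk' _ (S.1 (T.1 ((S⁻¹).1 y))) = _
    have hy2 : (S⁻¹).1 y ∈ Zc 0 := (hS _).2 (by rw [his]; exact hy)
    rw [q_act rS (hT.2.2.2 _ hy2), his]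

theorem mod_fix {R : Subgroup (SG g n)} [R.Normal] {T : PMod g n} {i : ℕ}
    (h : ∀ k, k ≠ i → QuotientGroup.mk' R (T.1 (sa k)) = QuotientGroup.mk' R (sa k) ∧
      QuotientGroup.mk' R (T.1 (sb k)) = QuotientGroup.mk' R (sb k))
    (hz : ∀ j, QuotientGroup.mk' R (T.1 (sz j)) = QuotientGroup.mk' R (sz j)) :
    ∀ y ∈ Zc i, QuotientGroup.mk' R (T.1 y) = QuotientGroup.mk' R y := by
  intro y hy
  induction hy using Subgroup.closure_induction with
  | mem x hx =>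
    rcases hx with ⟨k, hk, rfl | rfl⟩ | ⟨j, rfl⟩
    · exact (h k hk).1
    · exact (h k hk).2
    · exact hz j
  | one => simp
  | mul x y _ _ hx hy => rw [map_mul T.1, map_mul, map_mul, hx, hy]
  | inv x _ hx => rw [map_inv T.1, map_inv, map_inv, hx]

theorem pushH (hg : 2 ≤ g) (z : SG g n) (hz : z ∈ Zc 0) : ∃ T : PMod g n,
    (z * sa 0 * z⁻¹)⁻¹ * T.1 (sa 0) ∈ R0 ∧ (z * sb 0 * z⁻¹)⁻¹ * T.1 (sb 0) ∈ R0 ∧
    ∀ y ∈ Zc 0, y⁻¹ * T.1 y ∈ R0 := by
  set d : SG g n := sa 0 * sb 0 * (sa 0)⁻¹ * (sb 0)⁻¹ with hd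
  let Y : Subgroup (SG g n) :=
    { carrier := {z | z ∈ Zc 0 ∧ ∃ T, GoodP d T z}
      one_mem' := ⟨Subgroup.one_mem _, 1, IsConj.refl _, by
        simp, by simp, fun y _ => by simp⟩
      mul_mem' := by
        rintro x y ⟨hx, S, hS⟩ ⟨hy, T, hT⟩
        exact ⟨Subgroup.mul_mem _ hx hy, T * S, hS.mul hT hx⟩
      inv_mem' := by
        rintro x ⟨hx, S, hS⟩
        exact ⟨Subgroup.inv_mem _ hx, S⁻¹, hS.inv hx⟩ }
  have hdR : QuotientGroup.mk' (Subgroup.normalClosure {d}) d = 1 := by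
    rw [QuotientGroup.mk'_apply, QuotientGroup.eq_one_iff]
    exact Subgroup.subset_normalClosure (Set.mem_singleton d)
  have h1 : sa 1 ∈ Y := by
    obtain ⟨T, hT1, hT2, hT3, hT4, hT5⟩ := exP (g := g) (n := n) hg d _ hd rfl
    refine ⟨sa_mem_Zc (by omega), T, ?_, ?_, ?_, ?_⟩
    · rw [isConj_iff]
      have e : ∀ c : SG g n, c * d * c⁻¹ = (c * sa 0 * c⁻¹) * (c * sb 0 * c⁻¹) *
          (c * sa 0 * c⁻¹)⁻¹ * (c * sb 0 * c⁻¹)⁻¹ := by
        intro c; rw [hd]; group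
      have e2 : T.1 d = T.1 (sa 0) * T.1 (sb 0) * (T.1 (sa 0))⁻¹ * (T.1 (sb 0))⁻¹ := by
        rw [← map_inv, ← map_inv, ← map_mul, ← map_mul, ← map_mul]
      refine ⟨d * sa 1, ?_⟩
      rw [e2, hT1, hT2, e]
    · rw [hT1]
      simp only [map_mul, map_inv, hdR]
      group
    · rw [hT2]
      simp only [map_mul, map_inv, hdR]
      group
    · apply mod_fix
      · intro k hk
        by_cases hk1 : k = 1
        · subst hk1
          rw [hT3, hT4]
          simp only [map_mul, map_inv, hdR]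
          constructor <;> group
        · have := hT5.1 k (by
            simp only [Set.mem_insert_iff, Set.mem_singleton_iff]; omega)
          rw [this.1, this.2]
          exact ⟨rfl, rfl⟩
      · intro j; rw [hT5.2]
  have hY := genZ hg Y h1 (by
    rintro S ha hb hS x ⟨hx, T, hT⟩
    refine ⟨(hS x).1 hx, S * T * S⁻¹, hT.conj ha hb ?_ hS⟩
    rw [hd]; simp only [map_mul, map_inv, ha, hb])
  obtain ⟨_, T, hT⟩ := hY hz
  refine ⟨T, ?_, ?_, ?_⟩
  · have := hT.2.1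
    rw [QuotientGroup.mk'_apply, QuotientGroup.mk'_apply, eq_comm, QuotientGroup.eq] at this
    exact this
  · have := hT.2.2.1
    rw [QuotientGroup.mk'_apply, QuotientGroup.mk'_apply, eq_comm, QuotientGroup.eq] at this
    exact this
  · intro y hy
    have := hT.2.2.2 y hy
    rw [QuotientGroup.mk'_apply, QuotientGroup.mk'_apply, eq_comm, QuotientGroup.eq] at this
    exact this

end Pool.Agent.PWI
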