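import Pool.Agent.PWI.Defs
import Pool.Agent.PWI.Auto

/-!
# PWI module SCC: some nonseparating simple closed curves

`IsS x` means `x = T (a_0)` for some `T : PMod g n`.  `IsS` is closed under `PMod` (`IsS.act`) and
under conjugation (`IsS.conj`).  Write `A_i, B_i, C_i, S_i` for the automorphisms of `exA, exB,
exC, exS`.

* `A_0 (B_0 (a_0)) = A_0 (a_0 b_0⁻¹) = a_0 (b_0 a_0)⁻¹ = b_0⁻¹`, so `IsS (b_0⁻¹)`.
  `A_0 (B_0 (b_0⁻¹)) = (b_0 a_0)⁻¹ = a_0⁻¹ b_0⁻¹`, and `A_0 (B_0 (a_0⁻¹ b_0⁻¹)) =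
  b_0 * (b_0 a_0)⁻¹ = b_0 a_0⁻¹ b_0⁻¹`.  So `IsS (b_0 a_0⁻¹ b_0⁻¹)`, and by conjugation
  `IsS (a_0⁻¹)`.  If `x = T a_0` then `x⁻¹ = T (a_0⁻¹)`: this is `isS_inv`.  Hence `isS_b0`.
* `S_0 (a_1) = a_0`, so `a_1 = S_0⁻¹ (a_0)`; `S_0 (b_1) = b_0`, so `b_1 = S_0⁻¹ (b_0)`.
* `C_0⁻¹`: `C_0 (a_0) = a_0 c⁻¹`, and `C_0` fixes `c = b_0⁻¹ a_1 b_1 a_1⁻¹` (compute:
  `C_0 c = (c b_0 c⁻¹)⁻¹ (c a_1) b_1 (c a_1)⁻¹ = c c c⁻¹ = c`), so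
  `C_0⁻¹ (a_0) = a_0 c = a_0 b_0⁻¹ (a_1 b_1 a_1⁻¹)` is simple.
  Apply `B_0⁻¹` (`a_0 ↦ a_0 b_0`): `a_0 (a_1 b_1 a_1⁻¹)`.  Apply `A_1` (`b_1 ↦ b_1 a_1`):
  `a_0 a_1 b_1`.  Apply `B_1` (`a_1 ↦ a_1 b_1⁻¹`): `a_0 a_1`.  Apply `A_0 B_0` and then `A_1 B_1`
  (each maps `a_i ↦ b_i⁻¹`): `b_0⁻¹ b_1⁻¹`.  Its inverse is `b_1 b_0`; conjugate by `b_0`: `b_0 b_1`.
* `isS_mul`: if `T₀` is supported on handle 0 and `T₁` on handle 1, then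
  `T₀ (b_0) * T₁ (b_1) = (T₀ T₁) (b_0 b_1)`: `T₁ b_0 = b_0` and `T₀` fixes `T₁ b_1 ∈ Hd 1`
  (closure of `a_1, b_1`, both fixed by `T₀`).
-/

namespace Pool.Agent.PWI

variable {g n : ℕ}

theorem act_mul (S T : PMod g n) (x : SG g n) : (S * T).1 x = S.1 (T.1 x) := rfl

theorem isS_of_act {x : SG g n} (T : PMod g n) (h : IsS (T.1 x)) : IsS x := by
  have := h.act T⁻¹
  have e : (T⁻¹).1 (T.1 x) = x := act_inv_eq rfl
  rwa [e] at this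

theorem isS_b0_inv : IsS ((sb 0)⁻¹ : SG g n) := by
  obtain ⟨A, hA1, hA2, _⟩ := exA (g := g) (n := n) 0
  obtain ⟨B, hB1, hB2, _⟩ := exB (g := g) (n := n) 0
  have := (isS_a0.act B).act A
  rw [hB1, map_mul, map_inv, hA1, hA2] at this
  have e : (sa 0 * (sb 0 * sa 0)⁻¹ : SG g n) = (sb 0)⁻¹ := by group
  rwa [e] at this

theorem isS_a0_inv : IsS ((sa 0)⁻¹ : SG g n) := by
  obtain ⟨A, hA1, hA2, _⟩ := exA (g := g) (n := n) 0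
  obtain ⟨B, hB1, hB2, _⟩ := exB (g := g) (n := n) 0
  have h1 := (isS_b0_inv.act B).act A
  rw [map_inv, hB2, map_inv, hA2] at h1
  have e : ((sb 0 * sa 0)⁻¹ : SG g n) = (sa 0)⁻¹ * (sb 0)⁻¹ := by group
  rw [e] at h1
  have h2 := (h1.act B).act A
  rw [map_mul, map_inv, map_inv, hB1, hB2, map_mul, map_inv, map_inv, map_mul, map_inv, hA1,
    hA2] at h2
  have h3 := h2.conj (sb 0)⁻¹
  have e3 : (sb 0)⁻¹ * ((sa 0 * (sb 0 * sa 0)⁻¹)⁻¹ * (sb 0 * sa 0)⁻¹) * (sb 0)⁻¹⁻¹ =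
      ((sa 0)⁻¹ : SG g n) := by group
  rwa [e3] at h3

theorem isS_inv {x : SG g n} (hx : IsS x) : IsS x⁻¹ := by
  obtain ⟨T, rfl⟩ := hx
  rw [← map_inv]
  exact isS_a0_inv.act T

theorem isS_b0 : IsS (sb 0 : SG g n) := by
  have := isS_inv (isS_b0_inv (g := g) (n := n))
  rwa [inv_inv] at this

theorem isS_a1 (hg : 2 ≤ g) : IsS (sa 1 : SG g n) := by
  obtain ⟨S, h1, h2, h3, h4, _⟩ := exS (g := g) (n := n) 0 hg _ rfl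
  exact isS_of_act S (by rw [h3]; exact isS_a0)

theorem isS_b1 (hg : 2 ≤ g) : IsS (sb 1 : SG g n) := by
  obtain ⟨S, h1, h2, h3, h4, _⟩ := exS (g := g) (n := n) 0 hg _ rfl
  exact isS_of_act S (by rw [h4]; exact isS_b0)

theorem isS_b0b1 (hg : 2 ≤ g) : IsS (sb 0 * sb 1 : SG g n) := by
  obtain ⟨A0, hA1, hA2, hA3⟩ := exA (g := g) (n := n) 0
  obtain ⟨B0, hB1, hB2, hB3⟩ := exB (g := g) (n := n) 0
  obtain ⟨A1, hC1, hC2, hC3⟩ := exA (g := g) (n := n) 1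
  obtain ⟨B1, hD1, hD2, hD3⟩ := exB (g := g) (n := n) 1
  obtain ⟨C, h1, h2, h3, h4, _⟩ := exC (g := g) (n := n) 0 hg _ rfl
  have n10 : (1 : ℕ) ∉ ({0} : Set ℕ) := by simp
  have n01 : (0 : ℕ) ∉ ({1} : Set ℕ) := by simp
  set c : SG g n := (sb 0)⁻¹ * sa (0 + 1) * sb (0 + 1) * (sa (0 + 1))⁻¹ with hc
  have hCc : C.1 c = c := by
    rw [hc, map_mul, map_mul, map_mul, map_inv, map_inv, h2, h3, h4, ← hc]
    have : (c * sb 0 * c⁻¹)⁻¹ * (c * sa (0 + 1)) * sb (0 + 1) * (c * sa (0 + 1))⁻¹ =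
        c * ((sb 0)⁻¹ * sa (0 + 1) * sb (0 + 1) * (sa (0 + 1))⁻¹) * c⁻¹ := by group
    rw [this, ← hc]; group
  have s1 : IsS (sa 0 * c) := by
    apply isS_of_act C
    rw [map_mul, h1, hCc]
    have : sa 0 * c⁻¹ * c = (sa 0 : SG g n) := by group
    rw [this]; exact isS_a0
  -- apply the inverse of B0
  have s2 : IsS (sa 0 * (sa 1 * sb 1 * (sa 1)⁻¹) : SG g n) := by
    apply isS_of_act B0
    simp only [map_mul, map_inv, hB1, (hB3.1 1 n10).1, (hB3.1 1 n10).2]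
    have e : sa 0 * (sb 0)⁻¹ * (sa 1 * sb 1 * (sa 1)⁻¹) = sa 0 * c := by
      rw [hc]; simp only [zero_add]; group
    rw [e]; exact s1
  have s3 : IsS (sa 0 * (sa 1 * sb 1) : SG g n) := by
    have := s2.act A1
    simp only [map_mul, map_inv, (hC3.1 0 n01).1, hC1, hC2] at this
    have e : sa 0 * (sa 1 * (sb 1 * sa 1) * (sa 1)⁻¹) = (sa 0 * (sa 1 * sb 1) : SG g n) := by
      group
    rwa [e] at this
  have s4 : IsS (sa 0 * sa 1 : SG g n) := by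
    have := s3.act B1
    simp only [map_mul, (hD3.1 0 n01).1, hD1, hD2] at this
    have e : sa 0 * (sa 1 * (sb 1)⁻¹ * sb 1) = (sa 0 * sa 1 : SG g n) := by group
    rwa [e] at this
  have s5 : IsS ((sb 0)⁻¹ * sa 1 : SG g n) := by
    have := (s4.act B0).act A0
    simp only [map_mul, map_inv, hB1, (hB3.1 1 n10).1, hA1, hA2, (hA3.1 1 n10).1] at this
    have e : sa 0 * (sb 0 * sa 0)⁻¹ * sa 1 = ((sb 0)⁻¹ * sa 1 : SG g n) := by group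
    rwa [e] at this
  have s6 : IsS ((sb 0)⁻¹ * (sb 1)⁻¹ : SG g n) := by
    have := (s5.act B1).act A1
    simp only [map_mul, map_inv, (hD3.1 0 n01).2, hD1, (hC3.1 0 n01).2, hC1, hC2] at this
    have e : (sb 0)⁻¹ * (sa 1 * (sb 1 * sa 1)⁻¹) = ((sb 0)⁻¹ * (sb 1)⁻¹ : SG g n) := by group
    rwa [e] at this
  have s7 := (isS_inv s6).conj (sb 0)
  have e : sb 0 * ((sb 0)⁻¹ * (sb 1)⁻¹)⁻¹ * (sb 0)⁻¹ = (sb 0 * sb 1 : SG g n) := by group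
  rwa [e] at s7

theorem isS_mul (hg : 2 ≤ g) (T₀ T₁ : PMod g n) (h0 : Supp T₀ 0) (h1 : Supp T₁ 1) :
    IsS (T₀.1 (sb 0) * T₁.1 (sb 1)) := by
  have hs := (isS_b0b1 (n := n) hg).act (T₀ * T₁)
  have n10 : (1 : ℕ) ∉ ({0} : Set ℕ) := by simp
  have n01 : (0 : ℕ) ∉ ({1} : Set ℕ) := by simp
  rw [map_mul, act_mul, act_mul, (h1.1.1 0 n01).2] at hs
  have hmem : T₁.1 (sb 1) ∈ Hd 1 := (h1.2 _).1 (Subgroup.subset_closure (by simp))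
  have hfix : ∀ x ∈ (Hd 1 : Subgroup (SG g n)), T₀.1 x = x := by
    intro x hx
    induction hx using Subgroup.closure_induction with
    | mem x hx =>
      rcases hx with rfl | rfl
      · exact (h0.1.1 1 n10).1
      · exact (h0.1.1 1 n10).2
    | one => simp
    | mul x y _ _ hx hy => rw [map_mul, hx, hy]
    | inv x _ hx => rw [map_inv, hx]
  rwa [hfix _ hmem] at hs

end Pool.Agent.PWI
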