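import Mathlib

/-!
# PWI module TV: transfer argument (general group theory, Mathlib only)

`G` a group, `τ ∈ G` such that every homomorphism from the centraliser `C` of `τ` to `ℤ` kills
`τ`.  Then for every finite index `H ≤ G`, every `f : H → ℤ` and every `m` with `τ ^ m ∈ H`,
`f (τ ^ m) = 0`.

Proof. Let `C = centralizer {τ}`, `H' = H.subgroupOf C` (finite index in `C`), and let
`f' : H' →* Multiplicative ℤ` be the restriction of `f`.  `ψ := MonoidHom.transfer f' : C →* _`.
By `MonoidHom.transfer_eq_pow` (the key hypothesis holds because `τ` is central in `C`),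
`ψ τ = f' (τ ^ H'.index)`.  By assumption `ψ τ = 1`, so `f (τ ^ r) = 1` with `r = H'.index > 0`.
Then `f (τ ^ m) ^ r = f (τ ^ r) ^ m = 1`, and `Multiplicative ℤ` has no torsion.
-/

namespace Pool.Agent.PWI

theorem tv {G : Type*} [Group G] (H : Subgroup G) [H.FiniteIndex] (f : H →* Multiplicative ℤ)
    (τ : G)
    (hτ : ∀ ψ : Subgroup.centralizer ({τ} : Set G) →* Multiplicative ℤ,
      ψ ⟨τ, Subgroup.mem_centralizer_singleton_iff.2 rfl⟩ = 1)
    (m : ℕ) (h : τ ^ m ∈ H) : f ⟨τ ^ m, h⟩ = 1 := by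
  classical
  let C := Subgroup.centralizer ({τ} : Set G)
  let t : C := ⟨τ, Subgroup.mem_centralizer_singleton_iff.2 rfl⟩
  let H' : Subgroup C := H.subgroupOf C
  let f' : H' →* Multiplicative ℤ :=
    f.comp ((C.subtype.comp H'.subtype).codRestrict H (fun x => x.2))
  have hcent : ∀ c : C, c⁻¹ * t * c = t := by
    intro c
    have h1 := Subgroup.mem_centralizer_singleton_iff.1 c.2
    apply Subtype.ext
    show (c : G)⁻¹ * τ * c = τ
    rw [mul_assoc, ← h1, ← mul_assoc, inv_mul_cancel, one_mul]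
  have key : ∀ (k : ℕ) (g₀ : C), g₀⁻¹ * t ^ k * g₀ ∈ H' → g₀⁻¹ * t ^ k * g₀ = t ^ k := by
    intro k g₀ _
    have : g₀⁻¹ * t ^ k * g₀ = (g₀⁻¹ * t * g₀) ^ k := by
      have := conj_pow (a := g₀⁻¹) (b := t) (i := k)
      rw [inv_inv] at this
      exact this.symm
    rw [this, hcent]
  have h1 := MonoidHom.transfer_eq_pow f' t key
  have h2 : MonoidHom.transfer f' t = 1 := hτ _
  rw [h2] at h1
  have hr : H'.index ≠ 0 := Subgroup.FiniteIndex.index_ne_zero
  set r := H'.index with hrdef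
  have hmem : τ ^ r ∈ H := by
    have := MonoidHom.transfer_eq_pow_aux t key
    exact this
  have h3 : f ⟨τ ^ r, hmem⟩ = 1 := h1.symm
  have h4 : (f ⟨τ ^ m, h⟩) ^ r = (f ⟨τ ^ r, hmem⟩) ^ m := by
    rw [← map_pow, ← map_pow]
    congr 1
    apply Subtype.ext
    show (τ ^ m) ^ r = (τ ^ r) ^ m
    rw [← pow_mul, ← pow_mul, mul_comm]
  rw [h3, one_pow] at h4
  have h5 : r • Multiplicative.toAdd (f ⟨τ ^ m, h⟩) = 0 := by
    rw [← toAdd_pow, h4]; rfl
  have h6 : Multiplicative.toAdd (f ⟨τ ^ m, h⟩) = 0 := by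
    rcases smul_eq_zero.1 h5 with h | h
    · exact absurd h hr
    · exact h
  exact Multiplicative.toAdd.injective h6

end Pool.Agent.PWI
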